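import Pool.Agent.UT.St

set_option autoImplicit false

/-!
# Isomorphism classes as sets of graphs: the final form of the theorem
-/

namespace Pool.Agent.UT

open Pool.MP_1af41f_co.CSF RT Finset

/-- the isomorphism class as a set of graphs -/
def classSet {n : ℕ} (c : TreeClass n) : Set (SimpleGraph (Fin n)) :=
  Quotient.lift (s := treeSetoid n)
    (fun T : {T : SimpleGraph (Fin n) // T.IsTree} => {T' | Nonempty (T.1 ≃g T')})
    (by
      rintro T T' ⟨e⟩
      ext T''
      exact ⟨fun ⟨g⟩ => ⟨e.symm.trans g⟩, fun ⟨g⟩ => ⟨e.trans g⟩⟩) c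

lemma classSet_mk {n : ℕ} (T : {T : SimpleGraph (Fin n) // T.IsTree}) :
    classSet (Quotient.mk (treeSetoid n) T) = {T' | Nonempty (T.1 ≃g T')} := rfl

lemma classSet_inj {n : ℕ} : Function.Injective (classSet (n := n)) := by
  intro c c' h
  revert h
  refine Quotient.inductionOn₂ (s₁ := treeSetoid n) (s₂ := treeSetoid n) c c' ?_
  intro T T' h
  rw [classSet_mk, classSet_mk] at h
  have h1 : T'.1 ∈ {T'' | Nonempty (T'.1 ≃g T'')} := ⟨SimpleGraph.Iso.refl⟩
  rw [← h] at h1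
  exact Quotient.sound (s := treeSetoid n) h1

lemma detClass_mk {n : ℕ} (T : {T : SimpleGraph (Fin n) // T.IsTree}) :
    DetClass (Quotient.mk (treeSetoid n) T) ↔ Det T.1 := by
  constructor
  · intro h
    exact h T rfl
  · intro h T' hT'
    obtain ⟨e⟩ : Nonempty (T'.1 ≃g T.1) := Quotient.exact (s := treeSetoid n) hT'
    exact (det_iff e).2 h

lemma card_all (n : ℕ) : Nat.card (TreeClass n) =
    Nat.card {C : Set (SimpleGraph (Fin n)) // ∃ T : SimpleGraph (Fin n), T.IsTree ∧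
      C = {T' | Nonempty (T ≃g T')}} := by
  refine Nat.card_congr (Equiv.ofBijective (fun c => ⟨classSet c, ?_⟩) ⟨?_, ?_⟩)
  · refine Quotient.inductionOn (s := treeSetoid n) c fun T => ?_
    exact ⟨T.1, T.2, classSet_mk T⟩
  · intro c c' h
    exact classSet_inj (congrArg Subtype.val h)
  · rintro ⟨C, T, hT, hC⟩
    refine ⟨Quotient.mk (treeSetoid n) ⟨T, hT⟩, ?_⟩
    apply Subtype.ext
    show classSet (Quotient.mk (treeSetoid n) ⟨T, hT⟩) = C
    rw [hC]
    rfl

lemma card_det (n : ℕ) : Nat.card {c : TreeClass n // DetClass c} =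
    Nat.card {C : Set (SimpleGraph (Fin n)) // ∃ T : SimpleGraph (Fin n), T.IsTree ∧
      C = {T' | Nonempty (T ≃g T')} ∧ Det T} := by
  refine Nat.card_congr (Equiv.ofBijective (fun c => ⟨classSet c.1, ?_⟩) ⟨?_, ?_⟩)
  · obtain ⟨c, hc⟩ := c
    revert hc
    refine Quotient.inductionOn (s := treeSetoid n) c fun T hc => ?_
    exact ⟨T.1, T.2, classSet_mk T, (detClass_mk T).1 hc⟩
  · intro c c' h
    exact Subtype.ext (classSet_inj (congrArg Subtype.val h))
  · rintro ⟨C, T, hT, hC, hD⟩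
    refine ⟨⟨Quotient.mk (treeSetoid n) ⟨T, hT⟩, (detClass_mk ⟨T, hT⟩).2 hD⟩, ?_⟩
    apply Subtype.ext
    show classSet (Quotient.mk (treeSetoid n) ⟨T, hT⟩) = C
    rw [hC]
    rfl

/-- the final form -/
theorem final_form (h : S_TOP) : Filter.Tendsto (fun n : ℕ =>
    (Nat.card {C : Set (SimpleGraph (Fin n)) // ∃ T : SimpleGraph (Fin n), T.IsTree ∧
      C = {T' | Nonempty (T ≃g T')} ∧ Det T} : ℝ) /
    (Nat.card {C : Set (SimpleGraph (Fin n)) // ∃ T : SimpleGraph (Fin n), T.IsTree ∧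
      C = {T' | Nonempty (T ≃g T')}} : ℝ)) Filter.atTop (nhds 1) := by
  unfold S_TOP at h
  refine Filter.Tendsto.congr (fun n => ?_) h
  rw [card_all, card_det]

end Pool.Agent.UT
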