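import Pool.Agent.Lib_helper86.RT.Prob
import Pool.Agent.Lib_helper86.RT.Top

set_option autoImplicit false

/-!
# Almost all UNLABELLED trees are determined by their chromatic symmetric function: definitions

Canonical forests: ordered rooted forests (`Fr` of helper17) whose branches are canonical and
sorted by an injective code. They represent the isomorphism classes of rooted forests. `E m Φ` and
`ET k Φ` are the sums of `Φ` over the canonical forests with `m` vertices, respectively the canonical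
trees with `k` vertices, multiplied by `rr ^ m`, `rr ^ k`; `rr` is the radius of convergence (Otter).

In this namespace `E`, `ET`, `τ`, `υ`, `conv` are NOT those of namespace `RT` (Pool/Agent/Lib_helper86/RT)
but their analogues for canonical forests; `Fr`, `vs`, `deg`, `ind`, `br`, `splits`, `fr`, `AllLe`,
`Wset`, `Bset`, `HypH`, `Rng`, `Ev4`, `Ev5`, `Ev7`, `Bad`, `Det`, ... are those of `RT`.
-/

namespace Pool.Agent.UT

open Pool.MP_1af41f_co.CSF RT Finset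

/-! ### Canonical forests -/

/-- an injective code of the ordered forests -/
def cd : Fr → ℕ
  | Fr.nil => 0
  | Fr.cons a b => Nat.pair (cd a) (cd b) + 1

/-- canonical forests: the branches are canonical and sorted by their codes -/
def Can : Fr → Prop
  | Fr.nil => True
  | Fr.cons a b => Can a ∧ Can b ∧ ∀ c ∈ b.toList, cd a ≤ cd c

open Classical in
/-- the canonical forests with `m` vertices -/
noncomputable def CS (m : ℕ) : Finset Fr := (FS m).filter Can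

lemma mem_CS {m : ℕ} {f : Fr} : f ∈ CS m ↔ f.size = m ∧ Can f := by
  classical
  unfold CS
  rw [Finset.mem_filter, mem_FS]

/-- number of canonical forests with `m` vertices -/
noncomputable def cf (m : ℕ) : ℕ := (CS m).card

/-- number of canonical trees with `k` vertices -/
noncomputable def uu (k : ℕ) : ℕ := if k = 0 then 0 else cf (k - 1)

/-- coefficients of `1 / (1 - ∑ uu k x^k)` -/
noncomputable def ku : ℕ → ℕ
  | 0 => 1
  | (n + 1) => ∑ j : Fin (n + 1), uu (n + 1 - j) * ku j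

/-! ### The radius -/

/-- `r` is the radius (up to constants: Otter's theorem) -/
structure IsRad (r c : ℝ) : Prop where
  r_pos : 0 < r
  r_le : r ≤ 1
  c_one : 1 ≤ c
  c_inv : 1 / r ≤ c
  u_le : ∀ k : ℕ, 1 ≤ k → r ^ k * uu k ≤ c / (k * √k)
  u_ge : ∀ k : ℕ, 1 ≤ k → 1 / (c * (k * √k)) ≤ r ^ k * uu k
  ku_le : ∀ k : ℕ, 1 ≤ k → r ^ k * ku k ≤ c / √k

open Classical in
/-- the radius -/
noncomputable def rr : ℝ := if h : ∃ r c : ℝ, IsRad r c then h.choose else 1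

open Classical in
/-- the constant -/
noncomputable def cc : ℝ := if h : ∃ c : ℝ, IsRad rr c then h.choose else 1

lemma isRad_of (h : ∃ r c : ℝ, IsRad r c) : IsRad rr cc := by
  classical
  have h1 : ∃ c : ℝ, IsRad rr c := by
    have h2 := h.choose_spec
    have h3 : rr = h.choose := by
      unfold rr
      rw [dif_pos h]
    rw [h3]
    exact h2
  have h4 : cc = h1.choose := by
    unfold cc
    rw [dif_pos h1]
  rw [h4]
  exact h1.choose_spec

/-- normalised numbers of trees -/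
noncomputable def τ (k : ℕ) : ℝ := rr ^ k * uu k

/-- normalised numbers of contexts -/
noncomputable def υ (k : ℕ) : ℝ := rr ^ k * ku k

/-- `j`-fold convolution of `τ` -/
noncomputable def conv : ℕ → ℕ → ℝ
  | 0, s => if s = 0 then 1 else 0
  | (j + 1), s => ∑ k ∈ range (s + 1), τ k * conv j (s - k)

/-! ### Sums over canonical forests -/

/-- sum over the canonical forests with `m` vertices, times `rr ^ m` -/
noncomputable def E (m : ℕ) (Φ : Fr → ℝ) : ℝ := rr ^ m * ∑ f ∈ CS m, Φ f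

/-- sum over the canonical trees with `k` vertices (given by their branch forests), times
`rr ^ k` -/
noncomputable def ET (k : ℕ) (Φ : Fr → ℝ) : ℝ := if k = 0 then 0 else rr * E (k - 1) Φ

lemma E_nonneg (h : IsRad rr cc) {m : ℕ} {Φ : Fr → ℝ} (hΦ : ∀ f, 0 ≤ Φ f) : 0 ≤ E m Φ :=
  mul_nonneg (pow_nonneg h.r_pos.le _) (Finset.sum_nonneg fun f _ => hΦ f)

lemma E_mono' (h : IsRad rr cc) {m : ℕ} {Φ Ψ : Fr → ℝ}
    (hΦ : ∀ f, Can f → f.size = m → Φ f ≤ Ψ f) : E m Φ ≤ E m Ψ :=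
  mul_le_mul_of_nonneg_left (Finset.sum_le_sum fun f hf => hΦ f (mem_CS.1 hf).2 (mem_CS.1 hf).1)
    (pow_nonneg h.r_pos.le _)

lemma E_mono (h : IsRad rr cc) {m : ℕ} {Φ Ψ : Fr → ℝ} (hΦ : ∀ f, f.size = m → Φ f ≤ Ψ f) :
    E m Φ ≤ E m Ψ := E_mono' h fun f _ hf => hΦ f hf

lemma E_congr' {m : ℕ} {Φ Ψ : Fr → ℝ} (hΦ : ∀ f, Can f → f.size = m → Φ f = Ψ f) :
    E m Φ = E m Ψ := by
  unfold E
  rw [Finset.sum_congr rfl fun f hf => hΦ f (mem_CS.1 hf).2 (mem_CS.1 hf).1]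

lemma E_congr {m : ℕ} {Φ Ψ : Fr → ℝ} (hΦ : ∀ f, f.size = m → Φ f = Ψ f) : E m Φ = E m Ψ :=
  E_congr' fun f _ hf => hΦ f hf

lemma E_add (m : ℕ) (Φ Ψ : Fr → ℝ) : E m (fun f => Φ f + Ψ f) = E m Φ + E m Ψ := by
  simp [E, mul_add, Finset.sum_add_distrib]

lemma E_mul_left (m : ℕ) (c : ℝ) (Φ : Fr → ℝ) : E m (fun f => c * Φ f) = c * E m Φ := by
  simp only [E, ← Finset.mul_sum]
  ring

lemma E_sum {ι : Type*} (s : Finset ι) (m : ℕ) (Φ : ι → Fr → ℝ) :
    E m (fun f => ∑ i ∈ s, Φ i f) = ∑ i ∈ s, E m (Φ i) := by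
  simp only [E]
  rw [Finset.sum_comm, Finset.mul_sum]

lemma E_one (m : ℕ) : E m (fun _ => 1) = rr ^ m * cf m := by
  simp [E, cf]

lemma E_const (k : ℕ) (c : ℝ) : E k (fun _ => c) = c * E k (fun _ => 1) := by
  rw [← E_mul_left]
  simp

lemma ET_zero (Φ : Fr → ℝ) : ET 0 Φ = 0 := if_pos rfl

lemma ET_succ (k : ℕ) (Φ : Fr → ℝ) : ET (k + 1) Φ = rr * E k Φ := by
  simp [ET]

lemma ET_nonneg (h : IsRad rr cc) {k : ℕ} {Φ : Fr → ℝ} (hΦ : ∀ f, 0 ≤ Φ f) : 0 ≤ ET k Φ := by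
  unfold ET
  split_ifs
  · exact le_rfl
  · exact mul_nonneg h.r_pos.le (E_nonneg h hΦ)

lemma ET_mono' (h : IsRad rr cc) {k : ℕ} {Φ Ψ : Fr → ℝ}
    (hΦ : ∀ a, Can a → vs a = k → Φ a ≤ Ψ a) : ET k Φ ≤ ET k Ψ := by
  rcases k with _ | k
  · rw [ET_zero, ET_zero]
  · rw [ET_succ, ET_succ]
    exact mul_le_mul_of_nonneg_left (E_mono' h fun f hc hf => hΦ f hc (by unfold vs; omega))
      h.r_pos.le

lemma ET_mono (h : IsRad rr cc) {k : ℕ} {Φ Ψ : Fr → ℝ} (hΦ : ∀ a, vs a = k → Φ a ≤ Ψ a) :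
    ET k Φ ≤ ET k Ψ := ET_mono' h fun a _ ha => hΦ a ha

lemma ET_congr' {k : ℕ} {Φ Ψ : Fr → ℝ} (hΦ : ∀ a, Can a → vs a = k → Φ a = Ψ a) :
    ET k Φ = ET k Ψ := by
  rcases k with _ | k
  · rw [ET_zero, ET_zero]
  · rw [ET_succ, ET_succ, E_congr' fun f hc hf => hΦ f hc (by unfold vs; omega)]

lemma ET_congr {k : ℕ} {Φ Ψ : Fr → ℝ} (hΦ : ∀ a, vs a = k → Φ a = Ψ a) : ET k Φ = ET k Ψ :=
  ET_congr' fun a _ ha => hΦ a ha

lemma ET_add (k : ℕ) (Φ Ψ : Fr → ℝ) : ET k (fun f => Φ f + Ψ f) = ET k Φ + ET k Ψ := by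
  rcases k with _ | k
  · simp [ET_zero]
  · rw [ET_succ, ET_succ, ET_succ, E_add]; ring

lemma ET_mul_left (k : ℕ) (c : ℝ) (Φ : Fr → ℝ) : ET k (fun f => c * Φ f) = c * ET k Φ := by
  rcases k with _ | k
  · simp [ET_zero]
  · rw [ET_succ, ET_succ, E_mul_left]; ring

lemma ET_sum {ι : Type*} (s : Finset ι) (k : ℕ) (Φ : ι → Fr → ℝ) :
    ET k (fun f => ∑ i ∈ s, Φ i f) = ∑ i ∈ s, ET k (Φ i) := by
  rcases k with _ | k
  · simp [ET_zero]
  · simp only [ET_succ, E_sum, Finset.mul_sum]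

lemma uu_zero : uu 0 = 0 := if_pos rfl

lemma uu_succ (k : ℕ) : uu (k + 1) = cf k := by simp [uu]

lemma ET_one (k : ℕ) : ET k (fun _ => 1) = τ k := by
  rcases k with _ | k
  · simp [ET_zero, τ, uu_zero]
  · rw [ET_succ, E_one, τ, uu_succ, pow_succ]; ring

lemma ET_const (k : ℕ) (c : ℝ) : ET k (fun _ => c) = c * ET k (fun _ => 1) := by
  rw [← ET_mul_left]
  simp

lemma ET_cst (k : ℕ) (c : ℝ) : ET k (fun _ => c) = c * τ k := by
  rw [ET_const, ET_one]

/-- `rr * E m 1 = τ (m + 1)` -/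
lemma rr_E_one (m : ℕ) : rr * E m (fun _ => 1) = τ (m + 1) := by
  rw [← ET_succ, ET_one]

lemma τ_zero : τ 0 = 0 := by simp [τ, uu_zero]

lemma υ_zero : υ 0 = 1 := by simp [υ, ku]

lemma τ_nonneg (h : IsRad rr cc) (k : ℕ) : 0 ≤ τ k :=
  mul_nonneg (pow_nonneg h.r_pos.le _) (Nat.cast_nonneg _)

lemma υ_nonneg (h : IsRad rr cc) (k : ℕ) : 0 ≤ υ k :=
  mul_nonneg (pow_nonneg h.r_pos.le _) (Nat.cast_nonneg _)

lemma τ_le (h : IsRad rr cc) (k : ℕ) (hk : 1 ≤ k) : τ k ≤ cc / (k * √k) := h.u_le k hk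

lemma τ_ge (h : IsRad rr cc) (k : ℕ) (hk : 1 ≤ k) : 1 / (cc * (k * √k)) ≤ τ k := h.u_ge k hk

lemma υ_le (h : IsRad rr cc) (k : ℕ) (hk : 1 ≤ k) : υ k ≤ cc / √k := h.ku_le k hk

/-- the recursion of `υ` -/
lemma υ_rec (k : ℕ) (hk : 1 ≤ k) : υ k = ∑ j ∈ Icc 1 k, τ j * υ (k - j) := by
  obtain ⟨n, rfl⟩ : ∃ n, k = n + 1 := ⟨k - 1, by omega⟩
  have h1 : ku (n + 1) = ∑ j ∈ range (n + 1), uu (n + 1 - j) * ku j := by
    rw [ku]
    exact Fin.sum_univ_eq_sum_range (fun j => uu (n + 1 - j) * ku j) (n + 1)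
  have h2 : ∑ j ∈ Icc 1 (n + 1), τ j * υ (n + 1 - j)
      = ∑ j ∈ range (n + 1), τ (n + 1 - j) * υ j := by
    refine Finset.sum_nbij' (fun j => n + 1 - j) (fun j => n + 1 - j) ?_ ?_ ?_ ?_ ?_
    · intro j hj
      rw [Finset.mem_Icc] at hj
      rw [Finset.mem_range]; omega
    · intro j hj
      rw [Finset.mem_range] at hj
      rw [Finset.mem_Icc]; omega
    · intro j hj
      rw [Finset.mem_Icc] at hj
      show n + 1 - (n + 1 - j) = j
      omega
    · intro j hj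
      rw [Finset.mem_range] at hj
      show n + 1 - (n + 1 - j) = j
      omega
    · intro j hj
      rw [Finset.mem_Icc] at hj
      have : n + 1 - (n + 1 - j) = j := by omega
      rw [this]
  rw [h2, υ, h1]
  push_cast
  rw [Finset.mul_sum]
  refine Finset.sum_congr rfl fun j hj => ?_
  rw [Finset.mem_range] at hj
  unfold τ υ
  have h3 : rr ^ (n + 1) = rr ^ (n + 1 - j) * rr ^ j := by
    rw [← pow_add]
    congr 1
    omega
  rw [h3]
  ring

lemma cc_pos (h : IsRad rr cc) : 0 < cc := by linarith [h.c_one]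

lemma E_one_le (h : IsRad rr cc) (m : ℕ) :
    E m (fun _ => 1) ≤ cc ^ 2 / (((m : ℝ) + 1) * √((m : ℝ) + 1)) := by
  have h1 := τ_le h (m + 1) (by omega)
  rw [← rr_E_one] at h1
  push_cast at h1
  have h2 : E m (fun _ => 1) = (1 / rr) * (rr * E m (fun _ => 1)) := by
    have := h.r_pos.ne'
    field_simp
  rw [h2]
  have h3 : 0 ≤ rr * E m (fun _ => 1) :=
    mul_nonneg h.r_pos.le (E_nonneg h fun _ => zero_le_one)
  calc (1 / rr) * (rr * E m (fun _ => 1))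
      ≤ cc * (cc / (((m : ℝ) + 1) * √((m : ℝ) + 1))) :=
        mul_le_mul h.c_inv h1 h3 (cc_pos h).le
    _ = _ := by ring

lemma E_le_one_mul (h : IsRad rr cc) (m : ℕ) (Φ : Fr → ℝ) (hΦ : ∀ f, f.size = m → Φ f ≤ 1) :
    E m Φ ≤ cc ^ 2 / (((m : ℝ) + 1) * √((m : ℝ) + 1)) := (E_mono h hΦ).trans (E_one_le h m)

end Pool.Agent.UT
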