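import Pool.Agent.UT.St

set_option autoImplicit false

/-!
BRI: marking a branch, splitting the branches, summing over the types of branches.
-/

namespace Pool.Agent.UT

open Pool.MP_1af41f_co.CSF RT Finset

namespace BRIa

open Classical in
lemma sum_le_of_inj {α β : Type} (A : Finset α) (T : Finset β) (Φ : α → ℝ) (G : β → ℝ)
    (q : α → β) (hG : ∀ b ∈ T, 0 ≤ G b)
    (hq : ∀ a ∈ A, 0 < Φ a → q a ∈ T ∧ Φ a ≤ G (q a))
    (hinj : ∀ a ∈ A, ∀ a' ∈ A, 0 < Φ a → 0 < Φ a' → q a = q a' → a = a') :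
    ∑ a ∈ A, Φ a ≤ ∑ b ∈ T, G b := by
  have h1 := Finset.sum_filter_add_sum_filter_not A (fun a => 0 < Φ a) Φ
  have h2 : ∑ a ∈ A.filter (fun a => ¬ 0 < Φ a), Φ a ≤ 0 :=
    Finset.sum_nonpos fun a ha => not_lt.1 (Finset.mem_filter.1 ha).2
  have h3 : ∑ a ∈ A.filter (fun a => 0 < Φ a), Φ a ≤
      ∑ a ∈ A.filter (fun a => 0 < Φ a), G (q a) :=
    Finset.sum_le_sum fun a ha =>
      (hq a (Finset.mem_filter.1 ha).1 (Finset.mem_filter.1 ha).2).2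
  have h4 : ∑ a ∈ A.filter (fun a => 0 < Φ a), G (q a) =
      ∑ b ∈ (A.filter (fun a => 0 < Φ a)).image q, G b := by
    rw [Finset.sum_image]
    intro a ha a' ha' h
    rw [Finset.mem_coe, Finset.mem_filter] at ha ha'
    exact hinj a ha.1 a' ha'.1 ha.2 ha'.2 h
  have h5 : ∑ b ∈ (A.filter (fun a => 0 < Φ a)).image q, G b ≤ ∑ b ∈ T, G b := by
    refine Finset.sum_le_sum_of_subset_of_nonneg ?_ fun b hb _ => hG b hb
    intro b hb
    obtain ⟨a, ha, rfl⟩ := Finset.mem_image.1 hb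
    exact (hq a (Finset.mem_filter.1 ha).1 (Finset.mem_filter.1 ha).2).1
  linarith

/-- the index set of the marked branches -/
noncomputable def T1 (m : ℕ) : Finset (Σ _ : ℕ, Fr × Fr) :=
  (Icc 1 m).sigma (fun k => CS (k - 1) ×ˢ CS (m - k))

lemma mem_T1 {m : ℕ} {x : Σ _ : ℕ, Fr × Fr} : x ∈ T1 m ↔
    (1 ≤ x.1 ∧ x.1 ≤ m) ∧ (x.2.1.size = x.1 - 1 ∧ Can x.2.1) ∧
      (x.2.2.size = m - x.1 ∧ Can x.2.2) := by
  unfold T1
  rw [Finset.mem_sigma, Finset.mem_Icc, Finset.mem_product, mem_CS, mem_CS]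

lemma rhs1 (m : ℕ) (H : Fr → Fr → ℝ) :
    ∑ k ∈ Icc 1 m, ET k (fun a => E (m - k) (fun g => H a g)) =
      rr ^ m * ∑ x ∈ T1 m, H x.2.1 x.2.2 := by
  unfold T1
  rw [Finset.sum_sigma, Finset.mul_sum]
  refine Finset.sum_congr rfl fun k hk => ?_
  rw [Finset.mem_Icc] at hk
  obtain ⟨j, rfl⟩ : ∃ j, k = j + 1 := ⟨k - 1, by omega⟩
  rw [ET_succ, Nat.add_sub_cancel, Finset.sum_product]
  unfold E
  have h1 : rr ^ m = rr * (rr ^ j * rr ^ (m - (j + 1))) := by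
    rw [← mul_assoc, ← pow_succ', ← pow_add]
    congr 1
    omega
  rw [h1, ← Finset.mul_sum]
  ring

/-- the index set of the splittings -/
noncomputable def T2 (m : ℕ) : Finset (Σ _ : ℕ, Fr × Fr) :=
  (range (m + 1)).sigma (fun k => CS k ×ˢ CS (m - k))

lemma mem_T2 {m : ℕ} {x : Σ _ : ℕ, Fr × Fr} : x ∈ T2 m ↔
    x.1 < m + 1 ∧ (x.2.1.size = x.1 ∧ Can x.2.1) ∧ (x.2.2.size = m - x.1 ∧ Can x.2.2) := by
  unfold T2
  rw [Finset.mem_sigma, Finset.mem_range, Finset.mem_product, mem_CS, mem_CS]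

lemma rhs2 (m : ℕ) (H : Fr → Fr → ℝ) :
    ∑ k ∈ range (m + 1), E k (fun a => E (m - k) (fun g => H a g)) =
      rr ^ m * ∑ x ∈ T2 m, H x.2.1 x.2.2 := by
  unfold T2
  rw [Finset.sum_sigma, Finset.mul_sum]
  refine Finset.sum_congr rfl fun k hk => ?_
  rw [Finset.mem_range] at hk
  rw [Finset.sum_product]
  unfold E
  have h1 : rr ^ m = rr ^ k * rr ^ (m - k) := by
    rw [← pow_add]
    congr 1
    omega
  rw [h1, ← Finset.mul_sum]
  ring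

lemma part1 (hA : S_CANA) (h : IsRad rr cc) (m : ℕ) (Φ : Fr → ℝ) (H : Fr → Fr → ℝ)
    (hH : ∀ a g, 0 ≤ H a g)
    (hΦ : ∀ f, Can f → f.size = m → Φ f ≤ 0 ∨ ∃ p ∈ br f, Φ f ≤ H p.1 p.2) :
    E m Φ ≤ ∑ k ∈ Icc 1 m, ET k (fun a => E (m - k) (fun g => H a g)) := by
  rw [rhs1]
  unfold E
  refine mul_le_mul_of_nonneg_left ?_ (pow_nonneg h.r_pos.le _)
  have hc : ∀ f, ∃ p : Fr × Fr, Can f → f.size = m → 0 < Φ f → p ∈ br f ∧ Φ f ≤ H p.1 p.2 := by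
    intro f
    by_cases h1 : Can f ∧ f.size = m ∧ 0 < Φ f
    · rcases hΦ f h1.1 h1.2.1 with h2 | ⟨p, h2, h3⟩
      · exact absurd h1.2.2 (not_lt.2 h2)
      · exact ⟨p, fun _ _ _ => ⟨h2, h3⟩⟩
    · exact ⟨(Fr.nil, Fr.nil), fun a b c => absurd ⟨a, b, c⟩ h1⟩
  choose q hq using hc
  refine sum_le_of_inj (CS m) (T1 m) Φ (fun x => H x.2.1 x.2.2) (fun f => ⟨vs (q f).1, q f⟩)
    (fun b _ => hH _ _) ?_ ?_
  · intro f hf hpos
    obtain ⟨hsz, hcan⟩ := mem_CS.1 hf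
    obtain ⟨h1, h2⟩ := hq f hcan hsz hpos
    have h3 := br_size h1
    have h4 := hA.2.2.2.1 f _ hcan h1
    refine ⟨mem_T1.2 ⟨⟨?_, ?_⟩, ⟨?_, h4.1⟩, ?_, h4.2⟩, h2⟩
    · simp only [vs]
      omega
    · simp only
      omega
    · simp only [vs]
      omega
    · simp only
      omega
  · intro f hf f' hf' hpos hpos' heq
    obtain ⟨hsz, hcan⟩ := mem_CS.1 hf
    obtain ⟨hsz', hcan'⟩ := mem_CS.1 hf'
    obtain ⟨h1, _⟩ := hq f hcan hsz hpos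
    obtain ⟨h1', _⟩ := hq f' hcan' hsz' hpos'
    have he : q f = q f' := by
      have := congrArg (fun x : Σ _ : ℕ, Fr × Fr => x.2) heq
      exact this
    have h2 := br_perm h1
    have h2' := br_perm h1'
    rw [he] at h2
    exact hA.2.1 f f' hcan hcan' (h2.trans h2'.symm)

lemma part2 (hA : S_CANA) (h : IsRad rr cc) (m : ℕ) (Φ : Fr → ℝ) (H : Fr → Fr → ℝ)
    (hH : ∀ a g, 0 ≤ H a g)
    (hΦ : ∀ f, Can f → f.size = m → Φ f ≤ 0 ∨ ∃ p ∈ splits f, Φ f ≤ H p.1 p.2) :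
    E m Φ ≤ ∑ k ∈ range (m + 1), E k (fun a => E (m - k) (fun g => H a g)) := by
  rw [rhs2]
  unfold E
  refine mul_le_mul_of_nonneg_left ?_ (pow_nonneg h.r_pos.le _)
  have hc : ∀ f, ∃ p : Fr × Fr, Can f → f.size = m → 0 < Φ f →
      p ∈ splits f ∧ Φ f ≤ H p.1 p.2 := by
    intro f
    by_cases h1 : Can f ∧ f.size = m ∧ 0 < Φ f
    · rcases hΦ f h1.1 h1.2.1 with h2 | ⟨p, h2, h3⟩
      · exact absurd h1.2.2 (not_lt.2 h2)
      · exact ⟨p, fun _ _ _ => ⟨h2, h3⟩⟩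
    · exact ⟨(Fr.nil, Fr.nil), fun a b c => absurd ⟨a, b, c⟩ h1⟩
  choose q hq using hc
  refine sum_le_of_inj (CS m) (T2 m) Φ (fun x => H x.2.1 x.2.2) (fun f => ⟨(q f).1.size, q f⟩)
    (fun b _ => hH _ _) ?_ ?_
  · intro f hf hpos
    obtain ⟨hsz, hcan⟩ := mem_CS.1 hf
    obtain ⟨h1, h2⟩ := hq f hcan hsz hpos
    have h3 := RT.Restr97.splits_size h1
    have h4 := hA.2.2.2.2.1 f _ hcan h1
    refine ⟨mem_T2.2 ⟨?_, ⟨rfl, h4.1⟩, ?_, h4.2.1⟩, h2⟩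
    · simp only
      omega
    · simp only
      omega
  · intro f hf f' hf' hpos hpos' heq
    obtain ⟨hsz, hcan⟩ := mem_CS.1 hf
    obtain ⟨hsz', hcan'⟩ := mem_CS.1 hf'
    obtain ⟨h1, _⟩ := hq f hcan hsz hpos
    obtain ⟨h1', _⟩ := hq f' hcan' hsz' hpos'
    have he : q f = q f' := by
      have := congrArg (fun x : Σ _ : ℕ, Fr × Fr => x.2) heq
      exact this
    have h2 := (hA.2.2.2.2.1 f _ hcan h1).2.2
    have h2' := (hA.2.2.2.2.1 f' _ hcan' h1').2.2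
    rw [he] at h2
    exact hA.2.1 f f' hcan hcan' (h2.trans h2'.symm)

open Classical in
lemma part3 (hA : S_CANA) (h : IsRad rr cc) (m : ℕ) (H : Fr → ℝ) (hH : ∀ a, 0 ≤ H a) :
    E m (fun f => ∑ a ∈ f.toList.toFinset, H a) ≤
      ∑ k ∈ Icc 1 m, ET k H * E (m - k) (fun _ => 1) := by
  have e1 : ∑ k ∈ Icc 1 m, ET k H * E (m - k) (fun _ => 1) =
      ∑ k ∈ Icc 1 m, ET k (fun a => E (m - k) (fun _ => H a)) := by
    refine Finset.sum_congr rfl fun k _ => ?_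
    rw [mul_comm, ← ET_mul_left]
    refine ET_congr fun a _ => ?_
    rw [E_const (m - k) (H a), mul_comm]
  rw [e1, rhs1]
  unfold E
  refine mul_le_mul_of_nonneg_left ?_ (pow_nonneg h.r_pos.le _)
  have hc : ∀ x : (Σ _ : Fr, Fr), ∃ g : Fr, x.2 ∈ x.1.toList → (x.2, g) ∈ br x.1 := by
    intro x
    by_cases h1 : x.2 ∈ x.1.toList
    · obtain ⟨p, hp, h2⟩ := exists_br_of_mem h1
      refine ⟨p.2, fun _ => ?_⟩
      rw [← h2]
      exact hp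
    · exact ⟨Fr.nil, fun a => absurd a h1⟩
  choose q hq using hc
  have e2 : ∑ f ∈ CS m, ∑ a ∈ f.toList.toFinset, H a =
      ∑ x ∈ (CS m).sigma (fun f => f.toList.toFinset), H x.2 := (Finset.sum_sigma' _ _ _)
  rw [e2]
  refine sum_le_of_inj _ (T1 m) (fun x => H x.2) (fun x => H x.2.1)
    (fun x => ⟨vs x.2, (x.2, q x)⟩) (fun b _ => hH _) ?_ ?_
  · intro x hx _
    rw [Finset.mem_sigma, List.mem_toFinset] at hx
    obtain ⟨hsz, hcan⟩ := mem_CS.1 hx.1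
    have h1 := hq x hx.2
    have h3 := br_size h1
    have h4 := hA.2.2.2.1 _ _ hcan h1
    simp only at h3 h4
    refine ⟨mem_T1.2 ⟨⟨?_, ?_⟩, ⟨?_, h4.1⟩, ?_, h4.2⟩, le_rfl⟩
    · simp only [vs]
      omega
    · simp only
      omega
    · simp only [vs]
      omega
    · simp only
      omega
  · intro x hx y hy _ _ heq
    rw [Finset.mem_sigma, List.mem_toFinset] at hx hy
    obtain ⟨hsz, hcan⟩ := mem_CS.1 hx.1
    obtain ⟨hsz', hcan'⟩ := mem_CS.1 hy.1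
    have h1 := hq x hx.2
    have h1' := hq y hy.2
    have he : (x.2, q x) = (y.2, q y) := congrArg (fun x : Σ _ : ℕ, Fr × Fr => x.2) heq
    have h2 := br_perm h1
    have h2' := br_perm h1'
    rw [he] at h2
    have h3 : x.1 = y.1 := hA.2.1 _ _ hcan hcan' (h2.trans h2'.symm)
    have h4 : x.2 = y.2 := congrArg Prod.fst he
    rcases x with ⟨x1, x2⟩
    rcases y with ⟨y1, y2⟩
    simp only at h3 h4
    rw [h3, h4]

end BRIa

open BRIa in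
theorem t_BRI (hA : S_CANA) : S_BRI := fun h =>
  ⟨fun m Φ H hH hΦ => part1 hA h m Φ H hH hΦ, fun m Φ H hH hΦ => part2 hA h m Φ H hH hΦ,
    fun m H hH => part3 hA h m H hH⟩

end Pool.Agent.UT
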