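import Pool.Agent.UT.St

/-!
# Module CANB: canonical forests and isomorphism of rooted forests
-/

set_option autoImplicit false

namespace Pool.Agent.UT

open Pool.MP_1af41f_co.CSF RT Finset

namespace CANBa

/-- every vertex is reachable from the root -/
lemma reach (f : Fr) : ∀ x : Fr.W f, (Fr.G f).Reachable (Fr.ρ f) x := by
  induction f with
  | nil => exact fun x => SimpleGraph.Reachable.refl _
  | cons a b iha ihb =>
    have hb : ∀ y : Fr.W b, (Fr.G (Fr.cons a b)).Reachable (Sum.inr (Fr.ρ b)) (Sum.inr y) := by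
      intro y
      have h1 := ihb y
      exact h1.map (⟨Sum.inr, fun h => h⟩ : Fr.G b →g Fr.G (Fr.cons a b))
    have ha : ∀ y : Fr.W a, (Fr.G (Fr.cons a b)).Reachable (Sum.inl (Fr.ρ a)) (Sum.inl y) := by
      intro y
      have h1 := iha y
      exact h1.map (⟨Sum.inl, fun h => h⟩ : Fr.G a →g Fr.G (Fr.cons a b))
    rintro (x | x)
    · have h2 : (Fr.G (Fr.cons a b)).Adj (Sum.inr (Fr.ρ b)) (Sum.inl (Fr.ρ a)) := ⟨rfl, rfl⟩
      exact h2.reachable.trans (ha x)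
    · exact hb x

section join
variable {V₁ V₂ V₁' V₂' : Type} {G₁ : SimpleGraph V₁} {r₁ : V₁} {G₂ : SimpleGraph V₂} {r₂ : V₂}
  {G₁' : SimpleGraph V₁'} {r₁' : V₁'} {G₂' : SimpleGraph V₂'} {r₂' : V₂'}

lemma inl_of (h₁ : ∀ x, G₁.Reachable r₁ x) (e : join G₁ r₁ G₂ r₂ ≃g join G₁' r₁' G₂' r₂')
    (he1 : e (Sum.inl r₁) = Sum.inl r₁') (he2 : e (Sum.inr r₂) = Sum.inr r₂') (x : V₁) :
    ∃ y, e (Sum.inl x) = Sum.inl y := by
  have hr := (SimpleGraph.reachable_iff_reflTransGen r₁ x).1 (h₁ x)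
  induction hr with
  | refl => exact ⟨r₁', he1⟩
  | @tail b c _ hbc ih =>
    obtain ⟨y, hy⟩ := ih
    rcases hc : e (Sum.inl c) with z | z
    · exact ⟨z, rfl⟩
    · exfalso
      have h2 : (join G₁ r₁ G₂ r₂).Adj (Sum.inl b) (Sum.inl c) := hbc
      have h3 := e.map_rel_iff.2 h2
      rw [hy, hc, join_inl_inr] at h3
      rw [h3.2, ← he2] at hc
      have h4 := e.injective hc
      simp at h4

lemma inr_of (h₁ : ∀ x, G₁'.Reachable r₁' x) (e : join G₁ r₁ G₂ r₂ ≃g join G₁' r₁' G₂' r₂')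
    (he1 : e (Sum.inl r₁) = Sum.inl r₁') (he2 : e (Sum.inr r₂) = Sum.inr r₂') (x : V₂) :
    ∃ y, e (Sum.inr x) = Sum.inr y := by
  rcases hc : e (Sum.inr x) with z | z
  · exfalso
    have he1' : e.symm (Sum.inl r₁') = Sum.inl r₁ := by rw [← he1]; exact e.symm_apply_apply _
    have he2' : e.symm (Sum.inr r₂') = Sum.inr r₂ := by rw [← he2]; exact e.symm_apply_apply _
    obtain ⟨y, hy⟩ := inl_of h₁ e.symm he1' he2' z
    rw [← hc] at hy
    have h5 : e.symm (e (Sum.inr x)) = Sum.inr x := e.symm_apply_apply _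
    rw [h5] at hy
    simp at hy
  · exact ⟨z, rfl⟩

lemma join_iso (h₁ : ∀ x, G₁.Reachable r₁ x) (h₁' : ∀ x, G₁'.Reachable r₁' x)
    (e : join G₁ r₁ G₂ r₂ ≃g join G₁' r₁' G₂' r₂')
    (he1 : e (Sum.inl r₁) = Sum.inl r₁') (he2 : e (Sum.inr r₂) = Sum.inr r₂') :
    (∃ e₁ : G₁ ≃g G₁', e₁ r₁ = r₁') ∧ (∃ e₂ : G₂ ≃g G₂', e₂ r₂ = r₂') := by
  have he1' : e.symm (Sum.inl r₁') = Sum.inl r₁ := by rw [← he1]; exact e.symm_apply_apply _
  have he2' : e.symm (Sum.inr r₂') = Sum.inr r₂ := by rw [← he2]; exact e.symm_apply_apply _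
  choose φ hφ using inl_of h₁ e he1 he2
  choose φ' hφ' using inl_of h₁' e.symm he1' he2'
  choose ψ hψ using inr_of h₁' e he1 he2
  choose ψ' hψ' using inr_of h₁ e.symm he1' he2'
  have l1 : ∀ x, φ' (φ x) = x := by
    intro x
    have h := hφ' (φ x)
    rw [← hφ x] at h
    have h5 : e.symm (e (Sum.inl x)) = Sum.inl x := e.symm_apply_apply _
    rw [h5] at h
    exact (Sum.inl_injective h).symm
  have l2 : ∀ x, φ (φ' x) = x := by
    intro x
    have h := hφ (φ' x)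
    rw [← hφ' x] at h
    have h5 : e (e.symm (Sum.inl x)) = Sum.inl x := e.apply_symm_apply _
    rw [h5] at h
    exact (Sum.inl_injective h).symm
  have l3 : ∀ x, ψ' (ψ x) = x := by
    intro x
    have h := hψ' (ψ x)
    rw [← hψ x] at h
    have h5 : e.symm (e (Sum.inr x)) = Sum.inr x := e.symm_apply_apply _
    rw [h5] at h
    exact (Sum.inr_injective h).symm
  have l4 : ∀ x, ψ (ψ' x) = x := by
    intro x
    have h := hψ (ψ' x)
    rw [← hψ' x] at h
    have h5 : e (e.symm (Sum.inr x)) = Sum.inr x := e.apply_symm_apply _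
    rw [h5] at h
    exact (Sum.inr_injective h).symm
  refine ⟨⟨⟨⟨φ, φ', l1, l2⟩, ?_⟩, ?_⟩, ⟨⟨⟨ψ, ψ', l3, l4⟩, ?_⟩, ?_⟩⟩
  · intro x y
    have h := e.map_rel_iff (a := Sum.inl x) (b := Sum.inl y)
    rw [hφ, hφ] at h
    exact h
  · have h := hφ r₁
    rw [he1] at h
    exact (Sum.inl_injective h).symm
  · intro x y
    have h := e.map_rel_iff (a := Sum.inr x) (b := Sum.inr y)
    rw [hψ, hψ] at h
    exact h
  · have h := hψ r₂
    rw [he2] at h
    exact (Sum.inr_injective h).symm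

end join

/-- swapping the first two branches -/
lemma swapIso (a b c : Fr) : ∃ e : Fr.G (Fr.cons a (Fr.cons b c)) ≃g Fr.G (Fr.cons b (Fr.cons a c)),
    e (Fr.ρ (Fr.cons a (Fr.cons b c))) = Fr.ρ (Fr.cons b (Fr.cons a c)) ∧
    ∀ x : Fr.W b, e (Sum.inr (Sum.inl x)) = Sum.inl x := by
  refine ⟨⟨⟨fun x => match x with
      | Sum.inl x => Sum.inr (Sum.inl x)
      | Sum.inr (Sum.inl x) => Sum.inl x
      | Sum.inr (Sum.inr x) => Sum.inr (Sum.inr x),
    fun x => match x with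
      | Sum.inl x => Sum.inr (Sum.inl x)
      | Sum.inr (Sum.inl x) => Sum.inl x
      | Sum.inr (Sum.inr x) => Sum.inr (Sum.inr x), ?_, ?_⟩, ?_⟩, ?_, ?_⟩
  · rintro (x | x | x) <;> rfl
  · rintro (x | x | x) <;> rfl
  · have key : ∀ y : Fr.W c, ((Sum.inr y : Fr.W b ⊕ Fr.W c) = Sum.inr (Fr.ρ c)) ↔ y = Fr.ρ c :=
      fun y => Sum.inr_injective.eq_iff
    have key' : ∀ y : Fr.W c, ((Sum.inr y : Fr.W a ⊕ Fr.W c) = Sum.inr (Fr.ρ c)) ↔ y = Fr.ρ c :=
      fun y => Sum.inr_injective.eq_iff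
    rintro (x | x | x) (y | y | y) <;> simp [Fr.G, Fr.ρ, join]
    · exact fun _ => (key y).symm
    · exact fun _ => key' y
    · exact fun _ => (key x).symm
    · exact fun _ => key' x
  · rfl
  · intro x; rfl

/-- a neighbour of the root is the root of a branch -/
lemma exists_br (g : Fr) : ∀ x : Fr.W g, (Fr.G g).Adj x (Fr.ρ g) →
    ∃ q ∈ br g, ∃ e : Fr.G g ≃g Fr.G (Fr.cons q.1 q.2),
      e (Fr.ρ g) = Fr.ρ (Fr.cons q.1 q.2) ∧ e x = Sum.inl (Fr.ρ q.1) := by
  induction g with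
  | nil => exact fun x h => h.elim
  | cons a b _ ih =>
    rintro (x | x) hx
    · have h1 : x = Fr.ρ a := (show x = Fr.ρ a ∧ Fr.ρ b = Fr.ρ b from hx).1
      subst h1
      exact ⟨(a, b), by simp [br], SimpleGraph.Iso.refl, rfl, rfl⟩
    · have h1 : (Fr.G b).Adj x (Fr.ρ b) := hx
      obtain ⟨q, hq, e, he1, he2⟩ := ih x h1
      obtain ⟨e', he1', he2'⟩ := swapIso a q.1 q.2
      refine ⟨(q.1, Fr.cons a q.2), ?_, ?_⟩
      · rw [br, List.mem_cons, List.mem_map]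
        exact Or.inr ⟨q, hq, rfl⟩
      · let e'' : Fr.G (Fr.cons a b) ≃g Fr.G (Fr.cons a (Fr.cons q.1 q.2)) :=
          joinCongr (SimpleGraph.Iso.refl) rfl e he1
        refine ⟨e''.trans e', ?_, ?_⟩
        · have h2 : e'' (Fr.ρ (Fr.cons a b)) = Fr.ρ (Fr.cons a (Fr.cons q.1 q.2)) := by
            show Sum.inr (e (Fr.ρ b)) = Sum.inr (Fr.ρ (Fr.cons q.1 q.2))
            rw [he1]
          show e' (e'' (Fr.ρ (Fr.cons a b))) = _
          rw [h2]
          exact he1'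
        · have h2 : e'' (Sum.inr x) = Sum.inr (Sum.inl (Fr.ρ q.1)) := by
            show Sum.inr (e x) = Sum.inr (Sum.inl (Fr.ρ q.1))
            exact congrArg Sum.inr he2
          show e' (e'' (Sum.inr x)) = _
          rw [h2]
          exact he2' _

lemma card_eq {f g : Fr} (h : Fr.Equ f g) : f.size = g.size := by
  obtain ⟨e, _⟩ := h
  have h1 := Fintype.card_congr e.toEquiv
  rw [Fr.card_W, Fr.card_W] at h1
  omega

lemma exists_can (hA : S_CANA) (f : Fr) : ∃ g : Fr, Can g ∧ Fr.Equ f g ∧ g.size = f.size := by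
  induction f with
  | nil => exact ⟨Fr.nil, trivial, Fr.Equ.refl _, rfl⟩
  | cons a b iha ihb =>
    obtain ⟨a', ha1, ha2, ha3⟩ := iha
    obtain ⟨b', hb1, hb2, hb3⟩ := ihb
    obtain ⟨g, hg1, hg2⟩ := hA.2.2.1 (Fr.cons a' b').toList (by
      intro x hx
      simp only [Fr.toList, List.mem_cons] at hx
      rcases hx with rfl | hx
      · exact ha1
      · exact hA.2.2.2.2.2.2 b' x hb1 hx)
    have h1 : Fr.Equ (Fr.cons a b) g :=
      (Fr.Equ.cons ha2 hb2).trans (Fr.Equ.of_toList_perm hg2.symm)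
    exact ⟨g, hg1, h1, (card_eq h1).symm⟩

lemma unique (hA : S_CANA) (n : ℕ) : ∀ f g : Fr, f.size = n → Can f → Can g → Fr.Equ f g →
    f = g := by
  induction n using Nat.strong_induction_on with
  | _ n ih =>
    intro f g hn hf hg hfg
    have hs := card_eq hfg
    cases f with
    | nil =>
      cases g with
      | nil => rfl
      | cons c d =>
        simp only [Fr.size] at hs
        omega
    | cons a b =>
      obtain ⟨e, he⟩ := hfg
      have hadj : (Fr.G (Fr.cons a b)).Adj (Sum.inl (Fr.ρ a)) (Fr.ρ (Fr.cons a b)) :=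
        ⟨rfl, rfl⟩
      have hadj' := e.map_rel_iff.2 hadj
      rw [he] at hadj'
      obtain ⟨q, hq, e', he1', he2'⟩ := exists_br g _ hadj'
      obtain ⟨h1, h2⟩ := join_iso (G₁ := Fr.G a) (r₁ := Fr.ρ a) (G₂ := Fr.G b) (r₂ := Fr.ρ b)
        (G₁' := Fr.G q.1) (r₁' := Fr.ρ q.1) (G₂' := Fr.G q.2) (r₂' := Fr.ρ q.2)
        (reach a) (reach q.1) (e.trans e') he2' (by
          show e' (e (Fr.ρ (Fr.cons a b))) = _
          rw [he, he1']
          rfl)
      have hq' := hA.2.2.2.1 g q hg hq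
      simp only [Fr.size] at hn
      have h3 : a = q.1 := ih a.size (by omega) a q.1 rfl hf.1 hq'.1 h1
      have h4 : b = q.2 := ih b.size (by omega) b q.2 rfl hf.2.1 hq'.2 h2
      refine hA.2.1 _ _ hf hg ?_
      rw [h3, h4]
      exact (br_perm hq).symm

end CANBa

theorem t_CANB (hA : S_CANA) : S_CANB :=
  ⟨CANBa.exists_can hA, fun f g hf hg h => CANBa.unique hA f.size f g rfl hf hg h⟩

end Pool.Agent.UT
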