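import Pool.Agent.UT.St

set_option autoImplicit false

/-!
# CAT: at most `4 ^ m` canonical forests with `m` vertices
-/

namespace Pool.Agent.UT

open Pool.MP_1af41f_co.CSF RT Finset

namespace CATa

/-- ordered forests as binary trees -/
def bt : Fr → BinaryTree Unit
  | Fr.nil => BinaryTree.nil
  | Fr.cons a b => BinaryTree.node () (bt a) (bt b)

lemma bt_inj : ∀ f g : Fr, bt f = bt g → f = g
  | Fr.nil, Fr.nil, _ => rfl
  | Fr.nil, Fr.cons a b, h => by simp [bt] at h
  | Fr.cons a b, Fr.nil, h => by simp [bt] at h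
  | Fr.cons a b, Fr.cons a' b', h => by
    simp only [bt, BinaryTree.node.injEq, true_and] at h
    rw [bt_inj a a' h.1, bt_inj b b' h.2]

lemma bt_size : ∀ f : Fr, (bt f).numNodes = f.size
  | Fr.nil => rfl
  | Fr.cons a b => by
    simp only [bt, BinaryTree.numNodes, Fr.size, bt_size a, bt_size b]
    omega

lemma card_FS_le (m : ℕ) : (FS m).card ≤ catalan m := by
  rw [← BinaryTree.treesOfNumNodesEq_card_eq_catalan]
  apply Finset.card_le_card_of_injOn bt
  · intro f hf
    have h1 : f.size = m := mem_FS.1 hf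
    rw [Finset.mem_coe, BinaryTree.mem_treesOfNumNodesEq, bt_size, h1]
  · intro f _ g _ h
    exact bt_inj f g h

lemma catalan_le (m : ℕ) : catalan m ≤ 4 ^ m := by
  calc catalan m ≤ (m + 1) * catalan m := Nat.le_mul_of_pos_left _ (Nat.succ_pos m)
    _ = m.centralBinom := succ_mul_catalan_eq_centralBinom m
    _ = (2 * m).choose m := Nat.centralBinom_eq_two_mul_choose m
    _ ≤ 2 ^ (2 * m) := Nat.choose_le_two_pow _ _
    _ = 4 ^ m := by rw [pow_mul]; norm_num

end CATa

theorem t_CAT : S_CAT := by
  classical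
  intro m
  have h1 : cf m ≤ (FS m).card := Finset.card_le_card (Finset.filter_subset _ _)
  exact h1.trans ((CATa.card_FS_le m).trans (CATa.catalan_le m))

end Pool.Agent.UT
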