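import Pool.Agent.UT.St

set_option autoImplicit false

/-!
# Module EUL (helper63): Euler's recursion for the numbers of canonical forests (MP_1af41f_co)
-/

namespace Pool.Agent.UT

open Pool.MP_1af41f_co.CSF RT Finset

namespace EULa

/-- total size of a list of trees -/
def ts (l : List Fr) : ℕ := (l.map (fun a => 1 + a.size)).sum

lemma size_eq_ts (f : Fr) : f.size = ts f.toList := Fr.size_eq_sum f

lemma ts_perm {l l' : List Fr} (h : l.Perm l') : ts l = ts l' := (h.map _).sum_eq

lemma ts_append (l l' : List Fr) : ts (l ++ l') = ts l + ts l' := by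
  simp [ts]

lemma ts_replicate (j : ℕ) (a : Fr) : ts (List.replicate j a) = j * vs a := by
  simp [ts, vs]

open Classical in
lemma exists_rest {l : List Fr} {a : Fr} {j : ℕ} (h : j ≤ l.count a) :
    ∃ l' : List Fr, l.Perm (List.replicate j a ++ l') := by
  have h1 : j ≤ Multiset.count a (l : Multiset Fr) := by simpa using h
  rw [Multiset.le_count_iff_replicate_le] at h1
  obtain ⟨s, hs⟩ := Multiset.le_iff_exists_add.1 h1
  induction s using Quotient.inductionOn with
  | h l' =>
    refine ⟨l', ?_⟩
    have h2 : (l : Multiset Fr) = ((List.replicate j a ++ l' : List Fr) : Multiset Fr) := by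
      rw [hs, ← Multiset.coe_replicate, Multiset.quot_mk_to_coe, Multiset.coe_add]
    exact Multiset.coe_eq_coe.1 h2

open Classical in
lemma card_count (hA : S_CANA) {a : Fr} (ha : Can a) (m j : ℕ) :
    ((CS m).filter fun f => j ≤ f.toList.count a).card =
      if j * vs a ≤ m then cf (m - j * vs a) else 0 := by
  obtain ⟨-, hperm, hex, -, -, -, hmem⟩ := hA
  by_cases hj : j * vs a ≤ m
  · rw [if_pos hj, cf]
    have hF : ∀ g, ∃ f, Can g → (Can f ∧ f.toList.Perm (List.replicate j a ++ g.toList)) := by
      intro g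
      by_cases hg : Can g
      · obtain ⟨f, hf⟩ := hex (List.replicate j a ++ g.toList) (by
          intro b hb
          rcases List.mem_append.1 hb with hb | hb
          · rw [List.eq_of_mem_replicate hb]
            exact ha
          · exact hmem g b hg hb)
        exact ⟨f, fun _ => hf⟩
      · exact ⟨g, fun h => absurd h hg⟩
    choose F hF using hF
    symm
    refine Finset.card_nbij F ?_ ?_ ?_
    · intro g hg
      rw [Finset.mem_coe, mem_CS] at hg
      obtain ⟨h1, h2⟩ := hF g hg.2
      rw [Finset.mem_coe, Finset.mem_filter, mem_CS]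
      refine ⟨⟨?_, h1⟩, ?_⟩
      · rw [size_eq_ts, ts_perm h2, ts_append, ts_replicate, ← size_eq_ts, hg.1]
        omega
      · rw [h2.count_eq, List.count_append, List.count_replicate_self]
        omega
    · intro g hg g' hg' h
      rw [Finset.mem_coe, mem_CS] at hg hg'
      obtain ⟨h1, h2⟩ := hF g hg.2
      obtain ⟨h1', h2'⟩ := hF g' hg'.2
      have h : F g = F g' := h
      rw [← h] at h2'
      exact hperm g g' hg.2 hg'.2 ((List.perm_append_left_iff _).1 (h2.symm.trans h2'))
    · intro f hf
      rw [Finset.mem_coe, Finset.mem_filter, mem_CS] at hf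
      obtain ⟨⟨h1, h2⟩, h3⟩ := hf
      obtain ⟨l', hl⟩ := exists_rest h3
      obtain ⟨g, hg, hgl⟩ := hex l' (by
        intro b hb
        exact hmem f b h2 (hl.mem_iff.2 (List.mem_append.2 (Or.inr hb))))
      obtain ⟨h4, h5⟩ := hF g hg
      refine ⟨g, ?_, ?_⟩
      · rw [Finset.mem_coe, mem_CS]
        refine ⟨?_, hg⟩
        have h6 := ts_perm hl
        rw [← size_eq_ts, h1, ts_append, ts_replicate] at h6
        rw [size_eq_ts, ts_perm hgl]
        omega
      · exact hperm _ _ h4 h2 (h5.trans (((List.perm_append_left_iff _).2 hgl).trans hl.symm))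
  · rw [if_neg hj, Finset.card_eq_zero, Finset.filter_eq_empty_iff]
    intro f hf h3
    rw [mem_CS] at hf
    obtain ⟨l', hl⟩ := exists_rest h3
    have h6 := ts_perm hl
    rw [← size_eq_ts, hf.1, ts_append, ts_replicate] at h6
    omega

open Classical in
lemma size_eq_double (hA : S_CANA) {m : ℕ} {f : Fr} (hf : f ∈ CS m) :
    m = ∑ d ∈ Icc 1 m, ∑ a ∈ CS (d - 1), ∑ j ∈ Icc 1 m,
      d * (if j ≤ f.toList.count a then 1 else 0) := by
  obtain ⟨-, hperm, hex, -, -, -, hmem⟩ := hA
  rw [mem_CS] at hf
  obtain ⟨h1, h2⟩ := hf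
  have hle : ∀ a, f.toList.count a * vs a ≤ m := by
    intro a
    obtain ⟨l', hl⟩ := exists_rest (le_refl (f.toList.count a))
    have h6 := ts_perm hl
    rw [← size_eq_ts, h1, ts_append, ts_replicate] at h6
    omega
  have hvs : ∀ a : Fr, 1 ≤ vs a := fun a => by unfold vs; omega
  have hsum : ∀ a, ∑ j ∈ Icc 1 m, (if j ≤ f.toList.count a then 1 else 0) = f.toList.count a := by
    intro a
    rw [Finset.sum_ite, Finset.sum_const_zero, add_zero, Finset.sum_const, smul_eq_mul, mul_one]
    have : (Icc 1 m).filter (fun j => j ≤ f.toList.count a) = Icc 1 (f.toList.count a) := by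
      ext j
      rw [Finset.mem_filter, Finset.mem_Icc, Finset.mem_Icc]
      have h3 := hle a
      have h4 : f.toList.count a ≤ f.toList.count a * vs a := Nat.le_mul_of_pos_right _ (hvs a)
      omega
    rw [this, Nat.card_Icc]
    omega
  have h3 : ∀ d ∈ Icc 1 m, (∑ a ∈ CS (d - 1), ∑ j ∈ Icc 1 m,
      d * (if j ≤ f.toList.count a then 1 else 0)) =
      ∑ a ∈ f.toList.toFinset.filter (fun a => vs a = d), f.toList.count a * vs a := by
    intro d hd
    rw [Finset.mem_Icc] at hd
    have h4 : ∀ a ∈ CS (d - 1), (∑ j ∈ Icc 1 m, d * (if j ≤ f.toList.count a then 1 else 0)) =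
        f.toList.count a * vs a := by
      intro a ha
      rw [mem_CS] at ha
      rw [← Finset.mul_sum, hsum, mul_comm]
      congr 1
      unfold vs
      omega
    rw [Finset.sum_congr rfl h4]
    symm
    refine Finset.sum_subset ?_ ?_
    · intro a ha
      rw [Finset.mem_filter, List.mem_toFinset] at ha
      rw [mem_CS]
      refine ⟨?_, hmem f a h2 ha.1⟩
      have := ha.2
      unfold vs at this
      omega
    · intro a ha hn
      rw [mem_CS] at ha
      have h5 : a ∉ f.toList := by
        intro h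
        apply hn
        rw [Finset.mem_filter, List.mem_toFinset]
        refine ⟨h, ?_⟩
        unfold vs
        omega
      rw [List.count_eq_zero_of_not_mem h5, zero_mul]
  rw [Finset.sum_congr rfl h3]
  have h5 : ∀ a ∈ f.toList.toFinset, vs a ∈ Icc 1 m := by
    intro a ha
    rw [List.mem_toFinset] at ha
    rw [Finset.mem_Icc]
    refine ⟨hvs a, ?_⟩
    have h6 : 1 ≤ f.toList.count a := List.count_pos_iff.2 ha
    calc vs a = 1 * vs a := (one_mul _).symm
      _ ≤ f.toList.count a * vs a := Nat.mul_le_mul_right _ h6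
      _ ≤ m := hle a
  rw [Finset.sum_fiberwise_of_maps_to h5 (fun a => f.toList.count a * vs a)]
  conv_lhs => rw [← h1, Fr.size_eq_sum]
  rw [Finset.sum_list_map_count]
  refine Finset.sum_congr rfl fun a _ => ?_
  rw [smul_eq_mul]
  rfl

lemma divisors_sum (m : ℕ) (u c : ℕ → ℕ) :
    ∑ k ∈ Icc 1 m, (∑ d ∈ k.divisors, d * u d) * c (m - k) =
      ∑ d ∈ Icc 1 m, ∑ j ∈ Icc 1 m, d * (u d * (if j * d ≤ m then c (m - j * d) else 0)) := by
  have h1 : ∀ k ∈ Icc 1 m, (∑ d ∈ k.divisors, d * u d) * c (m - k) =
      ∑ d ∈ Icc 1 m, ∑ j ∈ Icc 1 m, if j * d = k then d * u d * c (m - k) else 0 := by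
    intro k hk
    rw [Finset.mem_Icc] at hk
    rw [Finset.sum_mul]
    have h2 : ∀ d ∈ Icc 1 m, (∑ j ∈ Icc 1 m, if j * d = k then d * u d * c (m - k) else 0) =
        if d ∣ k then d * u d * c (m - k) else 0 := by
      intro d hd
      rw [Finset.mem_Icc] at hd
      by_cases hdk : d ∣ k
      · rw [if_pos hdk]
        obtain ⟨j, rfl⟩ := hdk
        have hj : 0 < j := by
          rcases Nat.eq_zero_or_pos j with h | h
          · subst h
            omega
          · exact h
        rw [Finset.sum_eq_single j]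
        · rw [if_pos (mul_comm _ _)]
        · intro i _ hi
          rw [if_neg]
          intro h
          apply hi
          rw [mul_comm] at h
          exact Nat.eq_of_mul_eq_mul_left (by omega) h
        · intro h
          exfalso
          apply h
          rw [Finset.mem_Icc]
          refine ⟨hj, ?_⟩
          calc j = 1 * j := (one_mul _).symm
            _ ≤ d * j := Nat.mul_le_mul_right _ hd.1
            _ ≤ m := hk.2
      · rw [if_neg hdk]
        refine Finset.sum_eq_zero fun j _ => ?_
        rw [if_neg]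
        rintro rfl
        exact hdk (dvd_mul_left _ _)
    rw [Finset.sum_congr rfl h2, ← Finset.sum_filter]
    refine Finset.sum_congr ?_ fun _ _ => rfl
    ext d
    rw [Nat.mem_divisors, Finset.mem_filter, Finset.mem_Icc]
    constructor
    · rintro ⟨h3, -⟩
      exact ⟨⟨Nat.pos_of_dvd_of_pos h3 (by omega), (Nat.le_of_dvd (by omega) h3).trans hk.2⟩, h3⟩
    · rintro ⟨-, h3⟩
      exact ⟨h3, by omega⟩
  rw [Finset.sum_congr rfl h1, Finset.sum_comm]
  refine Finset.sum_congr rfl fun d hd => ?_
  rw [Finset.sum_comm]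
  refine Finset.sum_congr rfl fun j hj => ?_
  rw [Finset.mem_Icc] at hd hj
  rw [Finset.sum_ite_eq]
  by_cases h : j * d ≤ m
  · rw [if_pos, if_pos h, mul_assoc]
    rw [Finset.mem_Icc]
    exact ⟨Nat.mul_pos hj.1 hd.1, h⟩
  · rw [if_neg, if_neg h]
    · simp
    · rw [Finset.mem_Icc]
      intro h2
      exact h h2.2

end EULa

open Classical in
theorem t_EUL (hA : S_CANA) : S_EUL := by
  intro m
  have h1 : m * cf m = ∑ _f ∈ CS m, m := by
    rw [Finset.sum_const, smul_eq_mul, mul_comm]
    rfl
  rw [h1, Finset.sum_congr rfl fun f hf => EULa.size_eq_double hA hf, Finset.sum_comm,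
    EULa.divisors_sum]
  refine Finset.sum_congr rfl fun d hd => ?_
  rw [Finset.mem_Icc] at hd
  rw [Finset.sum_comm]
  have h2 : ∀ a ∈ CS (d - 1), (∑ f ∈ CS m, ∑ j ∈ Icc 1 m,
      d * (if j ≤ f.toList.count a then 1 else 0)) =
      ∑ j ∈ Icc 1 m, d * (if j * d ≤ m then cf (m - j * d) else 0) := by
    intro a ha
    rw [mem_CS] at ha
    rw [Finset.sum_comm]
    refine Finset.sum_congr rfl fun j _ => ?_
    rw [← Finset.mul_sum]
    congr 1
    have h3 := EULa.card_count hA ha.2 m j
    have h4 : vs a = d := by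
      unfold vs
      omega
    rw [h4] at h3
    rw [← h3, Finset.card_filter]
  rw [Finset.sum_congr rfl h2, Finset.sum_const, smul_eq_mul, Finset.mul_sum]
  refine Finset.sum_congr rfl fun j _ => ?_
  obtain ⟨e, rfl⟩ : ∃ e, d = e + 1 := ⟨d - 1, by omega⟩
  rw [uu_succ, Nat.add_sub_cancel]
  change cf e * _ = _
  ring

end Pool.Agent.UT
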