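import Pool.Agent.UT.Tl

set_option autoImplicit false

/-!
Module FEW (the spine has many sizes), adapted from `Pool/Agent/Lib_helper86/RT/Few.lean`.
-/

namespace Pool.Agent.UT

open Pool.MP_1af41f_co.CSF RT Finset

namespace FEWa

/-- weight of the trees with `k` vertices whose branches have at most `y` vertices -/
noncomputable def Q (y k : ℕ) : ℝ := ET k (fun a => ind (AllLe y a))

/-- weight of the trees with `k` vertices with at most `M` sizes above `y` -/
noncomputable def A (y M k : ℕ) : ℝ := ET k (fun a => ind ((Wset y a).card ≤ M))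

lemma Q_nonneg (h : IsRad rr cc) (y k : ℕ) : 0 ≤ Q y k := ET_nonneg h fun _ => ind_nonneg _

lemma A_nonneg (h : IsRad rr cc) (y M k : ℕ) : 0 ≤ A y M k := ET_nonneg h fun _ => ind_nonneg _

lemma A_zero {y k : ℕ} (h : y < k) : A y 0 k = 0 := by
  unfold A
  have e : ET k (fun a => ind ((Wset y a).card ≤ 0)) = ET k (fun _ => 0) := by
    apply ET_congr
    intro a ha
    apply ind_of_not
    have : vs a ∈ Wset y a := RT.Few97.mem_Wset.mpr ⟨⟨a, List.mem_cons_self, rfl⟩, by omega⟩
    have := Finset.card_pos.mpr ⟨_, this⟩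
    omega
  rw [e]
  have := ET_mul_left k 0 (fun _ => 1)
  simpa using this

lemma pointwise {y M : ℕ} {a : Fr} (hy : y < vs a) :
    ind ((Wset y a).card ≤ M + 1) ≤ ind (AllLe y a) +
      ind (∃ p ∈ br a, y < vs p.1 ∧ (Wset y p.1).card ≤ M) := by
  have h0 : 0 ≤ ind (∃ p ∈ br a, y < vs p.1 ∧ (Wset y p.1).card ≤ M) := ind_nonneg _
  by_cases h1 : AllLe y a
  · rw [ind_of h1]
    have := ind_le_one ((Wset y a).card ≤ M + 1)
    linarith
  · rw [ind_of_not h1, zero_add]
    by_cases h2 : (Wset y a).card ≤ M + 1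
    · rw [ind_of h2]
      unfold AllLe at h1
      push Not at h1
      obtain ⟨b, hb, hyb⟩ := h1
      obtain ⟨p, hp, hpb⟩ := RT.Few97.exists_br hb
      have h3 := RT.Few97.Wset_branch hp hy
      rw [ind_of ⟨p, hp, by rw [hpb]; exact hyb, by omega⟩]
    · rw [ind_of_not h2]; exact h0

lemma ET_H (y M j : ℕ) :
    ET j (fun a => ind (y < vs a ∧ (Wset y a).card ≤ M)) = ind (y < j) * A y M j := by
  unfold A
  rw [← ET_mul_left]
  apply ET_congr
  intro a ha
  rw [ha]
  by_cases h1 : y < j
  · by_cases h2 : (Wset y a).card ≤ M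
    · rw [ind_of ⟨h1, h2⟩, ind_of h1, ind_of h2, one_mul]
    · rw [ind_of_not (fun h => h2 h.2), ind_of_not h2, mul_zero]
  · rw [ind_of_not (fun h => h1 h.1), ind_of_not h1, zero_mul]

lemma A_succ (hB : S_BRI) (h : IsRad rr cc) {y M k : ℕ} (hy : y < k) :
    A y (M + 1) k ≤ Q y k + ∑ j ∈ Icc 1 (k - 1), τ (k - j) * (ind (y < j) * A y M j) := by
  have h1 : A y (M + 1) k ≤
      ET k (fun a => ind (AllLe y a) + ind (∃ p ∈ br a, y < vs p.1 ∧ (Wset y p.1).card ≤ M)) :=
    ET_mono h fun a ha => pointwise (by omega)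
  refine h1.trans ?_
  rw [ET_add]
  unfold Q
  have h2 := ET_br_ind hB h k (fun a => y < vs a ∧ (Wset y a).card ≤ M)
  simp_rw [ET_H] at h2
  linarith

lemma conv_succ (j s : ℕ) : conv (j + 1) s = ∑ k ∈ range (s + 1), τ k * conv j (s - k) := rfl

lemma conv_zero (s : ℕ) : conv 0 s = if s = 0 then 1 else 0 := rfl

lemma inner_le (hC : S_CNV) (h : IsRad rr cc) (i k z : ℕ) (hkz : k ≤ z) :
    ∑ j ∈ Icc k (z - 1), τ (z - j) * conv i (j - k) ≤ conv (i + 1) (z - k) := by
  rw [conv_succ, ← Finset.sum_flip]
  rw [Finset.sum_range_succ]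
  have h1 : 0 ≤ τ (z - k - (z - k)) * conv i (z - k - (z - k - (z - k))) :=
    mul_nonneg (τ_nonneg h _) ((hC h).2.1 _ _)
  have h2 : ∑ j ∈ Icc k (z - 1), τ (z - j) * conv i (j - k) ≤
      ∑ s ∈ range (z - k), τ (z - k - s) * conv i (z - k - (z - k - s)) := by
    rcases Nat.eq_zero_or_pos z with hz | hz
    · subst hz
      have : k = 0 := by omega
      subst this
      simp [τ_zero]
    · have e1 : Icc k (z - 1) = Ico k z := by
        ext j; simp only [Finset.mem_Icc, Finset.mem_Ico]; omega
      rw [e1, Finset.sum_Ico_eq_sum_range]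
      apply le_of_eq
      apply Finset.sum_congr rfl
      intro s hs
      have hs' := Finset.mem_range.mp hs
      have e2 : z - (k + s) = z - k - s := by omega
      have e3 : k + s - k = z - k - (z - k - s) := by omega
      rw [e2, e3]
  linarith

lemma A_le (hB : S_BRI) (hC : S_CNV) (h : IsRad rr cc) (y M : ℕ) : ∀ z, y < z → A y M z ≤
    ∑ i ∈ range M, ∑ k ∈ Icc (y + 1) z, conv i (z - k) * Q y k := by
  induction M with
  | zero =>
    intro z hz
    rw [A_zero hz]; simp
  | succ M ih =>
    intro z hz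
    refine (A_succ hB h hz).trans ?_
    rw [Finset.sum_range_succ']
    have h1 : Q y z ≤ ∑ k ∈ Icc (y + 1) z, conv 0 (z - k) * Q y k := by
      have := Finset.single_le_sum (f := fun k => conv 0 (z - k) * Q y k) (s := Icc (y + 1) z)
        (fun k _ => mul_nonneg ((hC h).2.1 _ _) (Q_nonneg h _ _))
        (Finset.mem_Icc.mpr ⟨by omega, le_refl z⟩)
      simpa [conv_zero] using this
    have h2 : ∑ j ∈ Icc 1 (z - 1), τ (z - j) * (ind (y < j) * A y M j) ≤
        ∑ i ∈ range M, ∑ k ∈ Icc (y + 1) z, conv (i + 1) (z - k) * Q y k := by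
      calc ∑ j ∈ Icc 1 (z - 1), τ (z - j) * (ind (y < j) * A y M j)
          ≤ ∑ j ∈ Icc (y + 1) (z - 1), τ (z - j) * A y M j := by
            rw [← Finset.sum_filter_add_sum_filter_not (Icc 1 (z - 1)) (fun j => y < j)]
            have e2 : ∑ j ∈ (Icc 1 (z - 1)).filter (fun j => ¬ y < j),
                τ (z - j) * (ind (y < j) * A y M j) = 0 := by
              apply Finset.sum_eq_zero
              intro j hj
              rw [ind_of_not (Finset.mem_filter.mp hj).2]; ring
            have e3 : (Icc 1 (z - 1)).filter (fun j => y < j) = Icc (y + 1) (z - 1) := by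
              ext j; simp only [Finset.mem_filter, Finset.mem_Icc]; omega
            rw [e2, add_zero, e3]
            apply Finset.sum_le_sum
            intro j hj
            have hj' := Finset.mem_Icc.mp hj
            rw [ind_of (by omega : y < j), one_mul]
        _ ≤ ∑ j ∈ Icc (y + 1) (z - 1), τ (z - j) *
              ∑ i ∈ range M, ∑ k ∈ Icc (y + 1) j, conv i (j - k) * Q y k := by
            apply Finset.sum_le_sum
            intro j hj
            have hj' := Finset.mem_Icc.mp hj
            exact mul_le_mul_of_nonneg_left (ih j (by omega)) (τ_nonneg h _)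
        _ = ∑ i ∈ range M, ∑ j ∈ Icc (y + 1) (z - 1), ∑ k ∈ Icc (y + 1) j,
              τ (z - j) * (conv i (j - k) * Q y k) := by
            simp_rw [Finset.mul_sum]
            rw [Finset.sum_comm]
        _ = ∑ i ∈ range M, ∑ k ∈ Icc (y + 1) (z - 1), ∑ j ∈ Icc k (z - 1),
              τ (z - j) * (conv i (j - k) * Q y k) := by
            apply Finset.sum_congr rfl
            intro i _
            apply Finset.sum_comm'
            intro j k
            simp only [Finset.mem_Icc]
            omega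
        _ ≤ ∑ i ∈ range M, ∑ k ∈ Icc (y + 1) z, conv (i + 1) (z - k) * Q y k := by
            apply Finset.sum_le_sum
            intro i _
            calc ∑ k ∈ Icc (y + 1) (z - 1), ∑ j ∈ Icc k (z - 1),
                  τ (z - j) * (conv i (j - k) * Q y k)
                ≤ ∑ k ∈ Icc (y + 1) (z - 1), conv (i + 1) (z - k) * Q y k := by
                  apply Finset.sum_le_sum
                  intro k hk
                  have hk' := Finset.mem_Icc.mp hk
                  have := inner_le hC h i k z (by omega)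
                  calc ∑ j ∈ Icc k (z - 1), τ (z - j) * (conv i (j - k) * Q y k)
                      = (∑ j ∈ Icc k (z - 1), τ (z - j) * conv i (j - k)) * Q y k := by
                        rw [Finset.sum_mul]
                        apply Finset.sum_congr rfl
                        intro j _; ring
                    _ ≤ _ := mul_le_mul_of_nonneg_right this (Q_nonneg h _ _)
              _ ≤ _ := by
                  apply Finset.sum_le_sum_of_subset_of_nonneg
                  · intro k hk
                    simp only [Finset.mem_Icc] at hk ⊢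
                    omega
                  · intro k _ _
                    exact mul_nonneg ((hC h).2.1 _ _) (Q_nonneg h _ _)
    linarith

lemma A_mono (h : IsRad rr cc) {y t M z : ℕ} : A y M z ≤ A (y + t) M z := by
  unfold A
  apply ET_mono h
  intro a _
  apply ind_mono
  intro h
  refine le_trans (Finset.card_le_card ?_) h
  intro k hk
  rw [RT.Few97.mem_Wset] at hk ⊢
  exact ⟨hk.1, by omega⟩

lemma Q_le (hR : S_RST) (hr : IsRad rr cc) : ∃ C : ℝ, 0 < C ∧ ∀ k y : ℕ, y < k → Q y k ≤ C / (k * √k * √((k - y : ℕ) : ℝ)) := by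
  obtain ⟨C, hC, h⟩ := (hR hr).1
  have hcc : 0 < cc := cc_pos hr
  refine ⟨4 * C + cc, by positivity, ?_⟩
  intro k y hy
  obtain ⟨n, rfl⟩ : ∃ n, k = n + 1 := ⟨k - 1, by omega⟩
  rcases Nat.lt_or_ge y n with hyn | hyn
  · unfold Q
    rw [ET_succ]
    have h1 := h n y hyn
    have h0 : 0 ≤ E n (fun f => ind (AllLe y f)) := E_nonneg hr fun _ => ind_nonneg _
    have he : rr ≤ 1 := hr.r_le
    have h2 : rr * E n (fun f => ind (AllLe y f)) ≤ E n (fun f => ind (AllLe y f)) := by
      nlinarith
    refine (h2.trans h1).trans ?_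
    have hn1 : (1 : ℝ) ≤ n := by exact_mod_cast (by omega : 1 ≤ n)
    have hny : (1 : ℝ) ≤ (n : ℝ) - y := by
      have : (y : ℝ) + 1 ≤ n := by exact_mod_cast hyn
      linarith
    have hc : (((n + 1 - y : ℕ)) : ℝ) = (n : ℝ) + 1 - y := by
      push_cast [Nat.cast_sub (by omega : y ≤ n + 1)]; ring
    rw [hc]
    push_cast
    have s1 : √((n : ℝ) + 1) ≤ √2 * √(n : ℝ) := by
      rw [← Real.sqrt_mul (by norm_num)]
      apply Real.sqrt_le_sqrt; linarith
    have s2 : √((n : ℝ) + 1 - y) ≤ √2 * √((n : ℝ) - y) := by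
      rw [← Real.sqrt_mul (by norm_num)]
      apply Real.sqrt_le_sqrt; linarith
    have p1 : 0 < √(n : ℝ) := Real.sqrt_pos.mpr (by linarith)
    have p2 : 0 < √((n : ℝ) - y) := Real.sqrt_pos.mpr (by linarith)
    have p3 : 0 < √((n : ℝ) + 1) := Real.sqrt_pos.mpr (by linarith)
    have p4 : 0 < √((n : ℝ) + 1 - y) := Real.sqrt_pos.mpr (by linarith)
    have s3 : ((n : ℝ) + 1) * √((n : ℝ) + 1) * √((n : ℝ) + 1 - y) ≤
        4 * (n * √(n : ℝ) * √((n : ℝ) - y)) := by
      calc ((n : ℝ) + 1) * √((n : ℝ) + 1) * √((n : ℝ) + 1 - y)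
          ≤ (2 * n) * (√2 * √(n : ℝ)) * (√2 * √((n : ℝ) - y)) := by
            gcongr
            linarith
        _ = (√2 * √2) * (2 * n * √(n : ℝ) * √((n : ℝ) - y)) := by ring
        _ = 4 * (n * √(n : ℝ) * √((n : ℝ) - y)) := by
            rw [Real.mul_self_sqrt (by norm_num)]; ring
    rw [div_le_div_iff₀ (by positivity) (by positivity)]
    have hP : 0 < (n : ℝ) * √(n : ℝ) * √((n : ℝ) - y) := by positivity
    calc C * (((n : ℝ) + 1) * √((n : ℝ) + 1) * √((n : ℝ) + 1 - y))
        ≤ C * (4 * (n * √(n : ℝ) * √((n : ℝ) - y))) := mul_le_mul_of_nonneg_left s3 hC.le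
      _ ≤ (4 * C + cc) * (n * √(n : ℝ) * √((n : ℝ) - y)) := by nlinarith
  · have hyn' : y = n := by omega
    subst hyn'
    have h1 : Q y (y + 1) ≤ τ (y + 1) := by
      rw [← ET_one]
      exact ET_mono hr fun a _ => ind_le_one _
    refine h1.trans ((τ_le hr (y + 1) (by omega)).trans ?_)
    have e1 : y + 1 - y = 1 := by omega
    rw [e1, Nat.cast_one, Real.sqrt_one, mul_one]
    apply div_le_div_of_nonneg_right _ (by positivity)
    linarith

end FEWa

open FEWa in
theorem t_FEW (hB : S_BRI) (hR : S_RST) (hCV : S_CNV) : S_FEW := by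
  intro hr
  obtain ⟨C, hC, hQ⟩ := Q_le hR hr
  refine ⟨6 * C, by positivity, ?_⟩
  intro z y M hyz hz2
  have hz0 : (0 : ℝ) < z := by exact_mod_cast (by omega : 0 < z)
  have hD : ((z - y : ℕ) : ℝ) = (z : ℝ) - y := by
    push_cast [Nat.cast_sub hyz.le]; ring
  have hD0 : (0 : ℝ) < (z : ℝ) - y := by
    have : (y : ℝ) < z := by exact_mod_cast hyz
    linarith
  set D : ℝ := (z : ℝ) - y with hDdef
  have hsD : 0 < √D := Real.sqrt_pos.mpr hD0
  have hsz : 0 < √(z : ℝ) := Real.sqrt_pos.mpr hz0
  -- one column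
  have hcol : ∀ k ∈ Icc (y + 1) z, ∑ t ∈ range (k - y), Q (y + t) k ≤
      6 * C * √D / (z * √z) := by
    intro k hk
    have hk' := Finset.mem_Icc.mp hk
    have hk0 : (0 : ℝ) < k := by exact_mod_cast (by omega : 0 < k)
    have e1 : ∑ t ∈ range (k - y), Q (y + t) k ≤
        ∑ t ∈ range (k - y), C / (k * √k) * (1 / √((k - y - t : ℕ) : ℝ)) := by
      apply Finset.sum_le_sum
      intro t ht
      have ht' := Finset.mem_range.mp ht
      refine (hQ k (y + t) (by omega)).trans (le_of_eq ?_)
      have : k - (y + t) = k - y - t := by omega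
      rw [this]
      rw [div_mul_div_comm, mul_one]
    have e2 : ∑ t ∈ range (k - y), (1 / √((k - y - t : ℕ) : ℝ)) ≤ 2 * √D := by
      have e3 : ∑ t ∈ range (k - y), (1 / √((k - y - t : ℕ) : ℝ)) =
          ∑ r ∈ Icc 1 (k - y), 1 / √(r : ℝ) := by
        have e4 : Icc 1 (k - y) = Ico 1 (k - y + 1) := by
          ext r; simp only [Finset.mem_Icc, Finset.mem_Ico]; omega
        rw [e4, Finset.sum_Ico_eq_sum_range, Nat.add_sub_cancel,
          ← Finset.sum_range_reflect (fun j => 1 / √((1 + j : ℕ) : ℝ)) (k - y)]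
        apply Finset.sum_congr rfl
        intro t ht
        have ht' := Finset.mem_range.mp ht
        have : k - y - t = 1 + (k - y - 1 - t) := by omega
        rw [this]
      rw [e3]
      refine (sum_rsqrt_le (k - y)).trans ?_
      apply mul_le_mul_of_nonneg_left _ (by norm_num)
      apply Real.sqrt_le_sqrt
      rw [← hD]
      exact_mod_cast (by omega : k - y ≤ z - y)
    rw [← Finset.mul_sum] at e1
    have e5 : C / (k * √k) ≤ 3 * C / (z * √z) := by
      rw [div_le_div_iff₀ (by positivity) (by positivity)]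
      have hzk : (z : ℝ) ≤ 2 * k := by exact_mod_cast (by omega : z ≤ 2 * k)
      have hs : √(z : ℝ) ≤ √2 * √(k : ℝ) := by
        rw [← Real.sqrt_mul (by norm_num)]
        exact Real.sqrt_le_sqrt hzk
      have hs2 : √(2 : ℝ) ≤ 3 / 2 := by
        rw [Real.sqrt_le_left (by norm_num)]; norm_num
      have hsk : 0 < √(k : ℝ) := Real.sqrt_pos.mpr hk0
      have : (z : ℝ) * √z ≤ 3 * (k * √k) := by
        calc (z : ℝ) * √z ≤ (2 * k) * (√2 * √(k : ℝ)) := by gcongr
          _ ≤ (2 * k) * ((3 / 2) * √(k : ℝ)) := by gcongr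
          _ = 3 * (k * √k) := by ring
      calc C * (z * √z) ≤ C * (3 * (k * √k)) := mul_le_mul_of_nonneg_left this hC.le
        _ = 3 * C * (k * √k) := by ring
    calc ∑ t ∈ range (k - y), Q (y + t) k
        ≤ C / (k * √k) * ∑ t ∈ range (k - y), (1 / √((k - y - t : ℕ) : ℝ)) := e1
      _ ≤ (3 * C / (z * √z)) * (2 * √D) := by
          apply mul_le_mul e5 e2 _ (by positivity)
          apply Finset.sum_nonneg
          intro t _
          positivity
      _ = 6 * C * √D / (z * √z) := by ring
  -- averaging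
  have havg : D * A y M z ≤ M * (6 * C * √D / (z * √z)) := by
    have a1 : ((z - y : ℕ) : ℝ) * A y M z ≤ ∑ t ∈ range (z - y), A (y + t) M z := by
      have := Finset.sum_le_sum (s := range (z - y)) (f := fun _ => A y M z)
        (g := fun t => A (y + t) M z) (fun t _ => A_mono hr)
      simpa using this
    have a2 : ∑ t ∈ range (z - y), A (y + t) M z ≤
        ∑ t ∈ range (z - y), ∑ i ∈ range M, ∑ k ∈ Icc (y + t + 1) z,
          conv i (z - k) * Q (y + t) k := by
      apply Finset.sum_le_sum
      intro t ht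
      have ht' := Finset.mem_range.mp ht
      exact A_le hB hCV hr (y + t) M z (by omega)
    have a3 : ∑ t ∈ range (z - y), ∑ i ∈ range M, ∑ k ∈ Icc (y + t + 1) z,
          conv i (z - k) * Q (y + t) k =
        ∑ i ∈ range M, ∑ k ∈ Icc (y + 1) z, conv i (z - k) * ∑ t ∈ range (k - y), Q (y + t) k := by
      rw [Finset.sum_comm]
      apply Finset.sum_congr rfl
      intro i _
      simp_rw [Finset.mul_sum]
      apply Finset.sum_comm'
      intro t k
      simp only [Finset.mem_Icc, Finset.mem_range]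
      omega
    have a4 : ∀ i ∈ range M, ∑ k ∈ Icc (y + 1) z, conv i (z - k) *
        ∑ t ∈ range (k - y), Q (y + t) k ≤ 6 * C * √D / (z * √z) := by
      intro i _
      have hB : 0 ≤ 6 * C * √D / (z * √z) := by positivity
      calc ∑ k ∈ Icc (y + 1) z, conv i (z - k) * ∑ t ∈ range (k - y), Q (y + t) k
          ≤ ∑ k ∈ Icc (y + 1) z, conv i (z - k) * (6 * C * √D / (z * √z)) := by
            apply Finset.sum_le_sum
            intro k hk
            exact mul_le_mul_of_nonneg_left (hcol k hk) ((hCV hr).2.1 _ _)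
        _ = (∑ k ∈ Icc (y + 1) z, conv i (z - k)) * (6 * C * √D / (z * √z)) := by
            rw [Finset.sum_mul]
        _ ≤ 1 * (6 * C * √D / (z * √z)) := by
            apply mul_le_mul_of_nonneg_right _ hB
            have e6 : ∑ k ∈ Icc (y + 1) z, conv i (z - k) =
                ∑ s ∈ (Icc (y + 1) z).image (fun k => z - k), conv i s := by
              rw [Finset.sum_image]
              intro k hk l hl hkl
              have hk' := Finset.mem_Icc.mp (Finset.mem_coe.mp hk)
              have hl' := Finset.mem_Icc.mp (Finset.mem_coe.mp hl)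
              simp only at hkl
              omega
            rw [e6]
            exact (hCV hr).2.2 i _
        _ = _ := one_mul _
    rw [hD] at a1
    refine (a1.trans a2).trans ?_
    rw [a3]
    refine (Finset.sum_le_sum a4).trans ?_
    simp
  have hfin : A y M z ≤ 6 * C / (z * √z) * (M / √D) := by
    have hDs : D = √D * √D := (Real.mul_self_sqrt hD0.le).symm
    have h1 : A y M z ≤ M * (6 * C * √D / (z * √z)) / D := by
      rw [le_div_iff₀ hD0, mul_comm]; exact havg
    refine h1.trans (le_of_eq ?_)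
    rw [div_eq_iff hD0.ne']
    nth_rewrite 3 [hDs]
    field_simp
  refine hfin.trans ?_
  apply mul_le_mul_of_nonneg_left _ (by positivity)
  have : 0 ≤ (M : ℝ) ^ 2 / D := by positivity
  linarith

end Pool.Agent.UT
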