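import Pool.Agent.UT.Tl

set_option autoImplicit false

/-!
Module FRG: few different sizes of fringe subtrees above `L`.
-/

namespace Pool.Agent.UT

open Pool.MP_1af41f_co.CSF RT Finset

namespace FRGa

/-- number of different sizes larger than `L` of the fringe subtrees -/
noncomputable def cwF (L : ℕ) (a : Fr) : ℝ := ((Wset L a).card : ℝ)

lemma cwF_nonneg (L : ℕ) (a : Fr) : 0 ≤ cwF L a := Nat.cast_nonneg _

lemma exists_branch {g x : Fr} (hx : x ∈ fr g) : ∃ a ∈ g.toList, x ∈ a :: fr a := by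
  induction g with
  | nil => simp [fr] at hx
  | cons a b iha ihb =>
    simp only [fr, List.mem_cons, List.mem_append] at hx
    rcases hx with hx | hx | hx
    · exact ⟨a, by simp [Fr.toList], by simp [hx]⟩
    · exact ⟨a, by simp [Fr.toList], by simp [hx]⟩
    · obtain ⟨c, hc, hxc⟩ := ihb hx
      exact ⟨c, by simp [Fr.toList, hc], hxc⟩

open Classical in
lemma card_BsetF_le (L : ℕ) (g : Fr) :
    ((Bset L g).card : ℝ) ≤ ∑ a ∈ g.toList.toFinset, cwF L a := by
  have h1 : Bset L g ⊆ g.toList.toFinset.biUnion (fun a => Wset L a) := by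
    intro k hk
    unfold Bset at hk
    rw [Finset.mem_filter, List.mem_toFinset, List.mem_map] at hk
    obtain ⟨⟨x, hx, hxk⟩, hLk⟩ := hk
    obtain ⟨a, ha, hxa⟩ := exists_branch hx
    rw [Finset.mem_biUnion]
    refine ⟨a, List.mem_toFinset.2 ha, ?_⟩
    unfold Wset
    rw [Finset.mem_filter, List.mem_toFinset, List.mem_map]
    exact ⟨⟨x, hxa, hxk⟩, hLk⟩
  have h2 := (Finset.card_le_card h1).trans Finset.card_biUnion_le
  unfold cwF
  exact_mod_cast h2

lemma cwF_le (L : ℕ) (a : Fr) : cwF L a ≤ ind (L < vs a) + ((Bset L a).card : ℝ) := by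
  classical
  have h1 : Wset L a ⊆ (if L < vs a then {vs a} else ∅) ∪ Bset L a := by
    intro k hk
    unfold Wset at hk
    rw [Finset.mem_filter, List.mem_toFinset, List.map_cons, List.mem_cons] at hk
    rw [Finset.mem_union]
    obtain ⟨hk | hk, hLk⟩ := hk
    · left
      rw [if_pos (by omega), Finset.mem_singleton]
      exact hk
    · right
      unfold Bset
      rw [Finset.mem_filter, List.mem_toFinset]
      exact ⟨hk, hLk⟩
  have h2 := (Finset.card_le_card h1).trans (Finset.card_union_le _ _)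
  have h3 : ((if L < vs a then ({vs a} : Finset ℕ) else ∅).card : ℝ) = ind (L < vs a) := by
    by_cases h : L < vs a
    · rw [if_pos h, ind_of h, Finset.card_singleton]
      norm_num
    · rw [if_neg h, ind_of_not h, Finset.card_empty]
      norm_num
  rw [← h3]
  unfold cwF
  exact_mod_cast h2

open Classical in
lemma ET_cwF (hB : S_BRI) (h : IsRad rr cc) (L k : ℕ) :
    1 ≤ k → ET k (cwF L) ≤ ∑ j ∈ Icc 1 k, υ (k - j) * (ind (L < j) * τ j) := by
  induction k using Nat.strong_induction_on with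
  | _ k ih =>
    intro hk
    have h1 : ET k (cwF L) ≤ ET k (fun a => ind (L < vs a) + ∑ b ∈ a.toList.toFinset, cwF L b) :=
      ET_mono h fun a _ => (cwF_le L a).trans (by
        have := card_BsetF_le L a
        linarith)
    have h2 : ET k (fun a => ind (L < vs a)) = ind (L < k) * τ k := by
      rw [← ET_cst]
      exact ET_congr fun a ha => by rw [ha]
    have h3 := ET_types_le hB h k (cwF L) (cwF_nonneg L)
    rw [ET_add, h2] at h1
    have h4 : ∑ j ∈ Icc 1 (k - 1), τ (k - j) * ET j (cwF L) ≤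
        ∑ j ∈ Icc 1 (k - 1), ∑ i ∈ Icc 1 j, τ (k - j) * (υ (j - i) * (ind (L < i) * τ i)) := by
      refine Finset.sum_le_sum fun j hj => ?_
      rw [Finset.mem_Icc] at hj
      rw [← Finset.mul_sum]
      exact mul_le_mul_of_nonneg_left (ih j (by omega) hj.1) (τ_nonneg h _)
    have h5 : ∑ j ∈ Icc 1 (k - 1), ∑ i ∈ Icc 1 j, τ (k - j) * (υ (j - i) * (ind (L < i) * τ i)) =
        ∑ i ∈ Icc 1 (k - 1), υ (k - i) * (ind (L < i) * τ i) := by
      rw [Finset.sum_comm' (t' := Icc 1 (k - 1)) (s' := fun i => Icc i (k - 1))]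
      · refine Finset.sum_congr rfl fun i hi => ?_
        rw [Finset.mem_Icc] at hi
        rw [υ_rec (k - i) (by omega), Finset.sum_mul]
        refine Finset.sum_nbij' (fun j => k - j) (fun l => k - l) ?_ ?_ ?_ ?_ ?_
        · intro j hj
          rw [Finset.mem_Icc] at hj ⊢
          omega
        · intro l hl
          rw [Finset.mem_Icc] at hl ⊢
          omega
        · intro j hj
          rw [Finset.mem_Icc] at hj
          show k - (k - j) = j
          omega
        · intro l hl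
          rw [Finset.mem_Icc] at hl
          show k - (k - l) = l
          omega
        · intro j hj
          rw [Finset.mem_Icc] at hj
          have e : k - i - (k - j) = j - i := by omega
          rw [e]
          ring
      · intro j i
        simp only [Finset.mem_Icc]
        omega
    obtain ⟨n, rfl⟩ : ∃ n, k = n + 1 := ⟨k - 1, by omega⟩
    rw [Finset.sum_Icc_succ_top (by omega), Nat.sub_self, υ_zero, one_mul]
    rw [Nat.add_sub_cancel] at h3 h4 h5
    linarith

lemma sum_υF_le (h : IsRad rr cc) (n : ℕ) : ∑ k ∈ range (n + 1), υ k ≤ 1 + cc * (2 * √n) := by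
  rw [Finset.sum_range_succ']
  rw [υ_zero]
  have h1 : ∑ k ∈ range n, υ (k + 1) = ∑ k ∈ Icc 1 n, υ k := by
    rw [Finset.range_eq_Ico, Finset.sum_Ico_add' υ 0 n 1]
    rfl
  rw [h1]
  have h2 : ∑ k ∈ Icc 1 n, υ k ≤ ∑ k ∈ Icc 1 n, cc * (1 / √(k : ℝ)) :=
    Finset.sum_le_sum fun k hk => (υ_le h k (Finset.mem_Icc.1 hk).1).trans (le_of_eq (by ring))
  rw [← Finset.mul_sum] at h2
  have h3 := mul_le_mul_of_nonneg_left (sum_rsqrt_le n) (cc_pos h).le
  linarith

/-- total weight of the big fringe subtrees -/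
lemma sum_ET_cwF_le (hB : S_BRI) (h : IsRad rr cc) (L m : ℕ) (hL : 1 ≤ L) :
    ∑ k ∈ Icc 1 m, ET k (cwF L) ≤ cc * (3 / √L) * (1 + cc * (2 * √m)) := by
  have hc := cc_pos h
  have h1 : ∑ k ∈ Icc 1 m, ET k (cwF L)
      ≤ ∑ j ∈ Icc 1 m, ind (L < j) * τ j * ∑ k ∈ Icc j m, υ (k - j) := by
    have h2 : ∑ k ∈ Icc 1 m, ET k (cwF L)
        ≤ ∑ k ∈ Icc 1 m, ∑ j ∈ Icc 1 k, υ (k - j) * (ind (L < j) * τ j) :=
      Finset.sum_le_sum fun k hk => ET_cwF hB h L k (Finset.mem_Icc.1 hk).1
    refine h2.trans (le_of_eq ?_)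
    rw [Finset.sum_comm' (t' := Icc 1 m) (s' := fun j => Icc j m)]
    · apply Finset.sum_congr rfl
      intro j _
      rw [Finset.mul_sum]
      exact Finset.sum_congr rfl fun k _ => by ring
    · intro k j
      simp only [Finset.mem_Icc]
      omega
  refine h1.trans ?_
  have h2 : ∀ j ∈ Icc 1 m, ∑ k ∈ Icc j m, υ (k - j) ≤ 1 + cc * (2 * √m) := by
    intro j hj
    rw [Finset.mem_Icc] at hj
    have h3 : ∑ k ∈ Icc j m, υ (k - j) = ∑ k ∈ range (m - j + 1), υ k := by
      apply Finset.sum_nbij' (fun k => k - j) (fun k => k + j)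
      · intro k hk
        rw [Finset.mem_Icc] at hk
        rw [Finset.mem_range]; omega
      · intro k hk
        rw [Finset.mem_range] at hk
        rw [Finset.mem_Icc]; omega
      · intro k hk
        rw [Finset.mem_Icc] at hk
        omega
      · intro k _
        omega
      · intro k _
        rfl
    rw [h3]
    have h4 : ∑ k ∈ range (m - j + 1), υ k ≤ ∑ k ∈ range (m + 1), υ k :=
      Finset.sum_le_sum_of_subset_of_nonneg
        (Finset.range_subset_range.2 (by omega)) fun k _ _ => υ_nonneg h k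
    exact h4.trans (sum_υF_le h m)
  have h3 : ∑ j ∈ Icc 1 m, ind (L < j) * τ j * ∑ k ∈ Icc j m, υ (k - j)
      ≤ ∑ j ∈ Icc 1 m, ind (L < j) * τ j * (1 + cc * (2 * √m)) :=
    Finset.sum_le_sum fun j hj => mul_le_mul_of_nonneg_left (h2 j hj)
      (mul_nonneg (ind_nonneg _) (τ_nonneg h j))
  refine h3.trans ?_
  rw [← Finset.sum_mul]
  apply mul_le_mul_of_nonneg_right _ (by positivity)
  have h4 : ∑ j ∈ Icc 1 m, ind (L < j) * τ j ≤
      ∑ j ∈ Ico L (m + 1), cc * (1 / ((j : ℝ) * √j)) := by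
    have h5 : ∑ j ∈ Icc 1 m, ind (L < j) * τ j
        = ∑ j ∈ (Icc 1 m).filter (fun j => L < j), τ j := by
      rw [Finset.sum_filter]
      apply Finset.sum_congr rfl
      intro j _
      by_cases h : L < j
      · rw [ind_of h, if_pos h, one_mul]
      · rw [ind_of_not h, if_neg h, zero_mul]
    rw [h5]
    calc ∑ j ∈ (Icc 1 m).filter (fun j => L < j), τ j
        ≤ ∑ j ∈ (Icc 1 m).filter (fun j => L < j), cc * (1 / ((j : ℝ) * √j)) := by
          apply Finset.sum_le_sum
          intro j hj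
          rw [Finset.mem_filter, Finset.mem_Icc] at hj
          exact (τ_le h j hj.1.1).trans (le_of_eq (by ring))
      _ ≤ _ := by
          apply Finset.sum_le_sum_of_subset_of_nonneg
          · intro j hj
            rw [Finset.mem_filter, Finset.mem_Icc] at hj
            rw [Finset.mem_Ico]; omega
          · intro j _ _
            positivity
  rw [← Finset.mul_sum] at h4
  exact h4.trans (mul_le_mul_of_nonneg_left (sum_tail_le L (m + 1) hL) hc.le)

end FRGa

open FRGa in
theorem t_FRG (hB : S_BRI) : S_FRG := by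
  classical
  intro h δ hδ
  have hc := cc_pos h
  have hc1 := h.c_one
  refine ⟨9 * cc ^ 4 / (δ * √δ), by positivity, ?_⟩
  intro m z L hm hL hz
  have hm0 : (0 : ℝ) < m := by exact_mod_cast hm
  have hsL : 0 < √(L : ℝ) := Real.sqrt_pos.2 (by exact_mod_cast hL)
  have hsm : 1 ≤ √(m : ℝ) := by
    rw [Real.one_le_sqrt]; exact_mod_cast hm
  have h1 : E m (fun g => ind (AllLe z g) * ((Bset L g).card : ℝ))
      ≤ ∑ k ∈ Icc 1 m, ET k (fun a => ind (vs a ≤ z) * cwF L a) * E (m - k) (fun _ => 1) := by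
    refine le_trans (E_mono h (Ψ := fun g => ∑ a ∈ g.toList.toFinset,
      ind (vs a ≤ z) * cwF L a) fun g _ => ?_)
      (E_types_le hB h m _ fun a => mul_nonneg (ind_nonneg _) (cwF_nonneg _ _))
    by_cases hA : AllLe z g
    · rw [ind_of hA, one_mul]
      refine (card_BsetF_le L g).trans (le_of_eq (Finset.sum_congr rfl fun a ha => ?_))
      rw [ind_of (hA a (List.mem_toFinset.1 ha)), one_mul]
    · rw [ind_of_not hA, zero_mul]
      exact Finset.sum_nonneg fun a _ => mul_nonneg (ind_nonneg _) (cwF_nonneg _ _)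
  refine h1.trans ?_
  have h2 : ∀ k ∈ Icc 1 m, ET k (fun a => ind (vs a ≤ z) * cwF L a) * E (m - k) (fun _ => 1)
      ≤ ET k (cwF L) * (cc ^ 2 / ((δ * m) * √(δ * m))) := by
    intro k hk
    rw [Finset.mem_Icc] at hk
    have h3 : ET k (fun a => ind (vs a ≤ z) * cwF L a) = ind (k ≤ z) * ET k (cwF L) := by
      rw [← ET_mul_left]
      exact ET_congr fun a ha => by rw [ha]
    rw [h3]
    have h9 : 0 ≤ ET k (cwF L) := ET_nonneg h (cwF_nonneg L)
    by_cases hkz : k ≤ z
    · rw [ind_of hkz, one_mul]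
      apply mul_le_mul_of_nonneg_left _ h9
      refine (E_one_le h (m - k)).trans ?_
      have h5 : δ * m ≤ ((m - k : ℕ) : ℝ) + 1 := by
        rw [Nat.cast_sub hk.2]
        have : (k : ℝ) ≤ z := by exact_mod_cast hkz
        nlinarith
      have h6 : √(δ * m) ≤ √(((m - k : ℕ) : ℝ) + 1) := Real.sqrt_le_sqrt h5
      have h7 : 0 < δ * m := by positivity
      have h8 : 0 < √(δ * m) := Real.sqrt_pos.2 h7
      gcongr
    · rw [ind_of_not hkz, zero_mul, zero_mul]
      positivity
  refine (Finset.sum_le_sum h2).trans ?_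
  rw [← Finset.sum_mul]
  have h3 := sum_ET_cwF_le hB h L m hL
  have h4 : (0 : ℝ) < cc ^ 2 / ((δ * m) * √(δ * m)) := by
    have : 0 < √(δ * m) := Real.sqrt_pos.2 (by positivity)
    positivity
  calc (∑ k ∈ Icc 1 m, ET k (cwF L)) * (cc ^ 2 / ((δ * m) * √(δ * m)))
      ≤ (cc * (3 / √L) * (1 + cc * (2 * √m))) * (cc ^ 2 / ((δ * m) * √(δ * m))) :=
        mul_le_mul_of_nonneg_right h3 h4.le
    _ ≤ (cc * (3 / √L) * (cc * (3 * √m))) * (cc ^ 2 / ((δ * m) * √(δ * m))) := by
        apply mul_le_mul_of_nonneg_right _ h4.le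
        apply mul_le_mul_of_nonneg_left _ (by positivity)
        nlinarith
    _ = 9 * cc ^ 4 / (δ * √δ) / (m * √L) := by
        rw [Real.sqrt_mul hδ.le]
        have h5 : 0 < √δ := Real.sqrt_pos.2 hδ
        have h6 : 0 < √(m : ℝ) := by linarith
        field_simp
        ring

end Pool.Agent.UT
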