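import Pool.Agent.UT.St

set_option autoImplicit false

/-!
Module LAG: Lagrange inversion for `U = A exp U`.
-/

namespace Pool.Agent.UT

namespace LAGa

open Finset PowerSeries Pool.MP_1af41f_co.CSF

/-- the coefficients of the tree function -/
noncomputable def tt (m : ℕ) : ℝ := RT.τ m * Real.exp m

/-- `m ^ m / m!` -/
noncomputable def ss (m : ℕ) : ℝ := RT.υ m * Real.exp m

lemma tt_zero : tt 0 = 0 := by simp [tt, RT.τ_zero]

lemma tt_one : tt 1 = 1 := by
  simp [tt, RT.τ, ← Real.exp_add]

lemma ss_zero : ss 0 = 1 := by simp [ss, RT.υ_zero]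

lemma tt_conv (m : ℕ) :
    ∑ k ∈ Icc 1 m, (k : ℝ) * tt k * tt (m + 1 - k) = m * tt (m + 1) := by
  rcases Nat.eq_zero_or_pos m with rfl | hm
  · simp
  · have h := RT.E_one_aux m hm
    have h2 : (m : ℝ) * tt (m + 1) = Real.exp ((m + 1 : ℕ) : ℝ) * (m * RT.τ (m + 1)) := by
      unfold tt
      ring
    rw [h2, ← h, Finset.mul_sum]
    refine Finset.sum_congr rfl fun k hk => ?_
    rw [Finset.mem_Icc] at hk
    have e1 : m - k + 1 = m + 1 - k := by omega
    have e2 : Real.exp ((m + 1 : ℕ) : ℝ) = Real.exp (k : ℝ) * Real.exp ((m + 1 - k : ℕ) : ℝ) := by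
      rw [← Real.exp_add, ← Nat.cast_add]
      congr 2
      omega
    rw [e1, e2]
    unfold tt
    ring

lemma ss_conv (k : ℕ) (hk : 1 ≤ k) : ss k = ∑ j ∈ Icc 1 k, tt j * ss (k - j) := by
  unfold ss
  rw [RT.υ_rec k hk, Finset.sum_mul]
  refine Finset.sum_congr rfl fun j hj => ?_
  rw [Finset.mem_Icc] at hj
  have e2 : Real.exp (k : ℝ) = Real.exp (j : ℝ) * Real.exp ((k - j : ℕ) : ℝ) := by
    rw [← Real.exp_add, ← Nat.cast_add]
    congr 2
    omega
  rw [e2]
  unfold tt
  ring

lemma coeff_X_der (f : PowerSeries ℝ) (n : ℕ) :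
    coeff n (X * derivative ℝ f) = n * coeff n f := by
  rcases n with _ | n
  · simp
  · rw [coeff_succ_X_mul, coeff_derivative]
    push_cast
    ring

/-- coefficients of a product, both end terms split off -/
lemma coeff_mul_ends (f g : PowerSeries ℝ) (m : ℕ) :
    coeff (m + 1) (f * g) = coeff 0 f * coeff (m + 1) g
      + ∑ k ∈ Icc 1 m, coeff k f * coeff (m + 1 - k) g + coeff (m + 1) f * coeff 0 g := by
  rw [coeff_mul, Finset.Nat.sum_antidiagonal_eq_sum_range_succ_mk, Finset.sum_range_succ,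
    Finset.range_eq_Ico, Finset.sum_eq_sum_Ico_succ_bot (by omega)]
  simp only [Nat.sub_zero, Nat.sub_self, zero_add]
  rfl

noncomputable def TP : PowerSeries ℝ := PowerSeries.mk tt

noncomputable def SP : PowerSeries ℝ := PowerSeries.mk ss

noncomputable def BP : PowerSeries ℝ := PowerSeries.mk bb

noncomputable def EP : PowerSeries ℝ := PowerSeries.mk Es

lemma bb_zero : bb 0 = 0 := by simp [bb]

lemma TP_id : TP * (X * derivative ℝ TP) = X * derivative ℝ TP - TP := by
  ext n
  rcases n with _ | m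
  · simp [TP, tt_zero]
  · rw [mul_comm, coeff_mul_ends, map_sub]
    have h : ∑ k ∈ Icc 1 m, coeff k (X * derivative ℝ TP) * coeff (m + 1 - k) TP
        = m * tt (m + 1) := by
      rw [← tt_conv m]
      refine Finset.sum_congr rfl fun k _ => ?_
      rw [coeff_X_der]
      simp [TP]
    rw [h, coeff_X_der, coeff_X_der]
    simp only [TP, coeff_mk, tt_zero, mul_zero, Nat.cast_zero, zero_mul]
    push_cast
    ring

lemma SP_id : TP * SP = SP - 1 := by
  ext n
  rcases n with _ | m
  · simp [TP, SP, tt_zero, ss_zero]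
  · rw [coeff_mul_ends, map_sub]
    have h := ss_conv (m + 1) (by omega)
    rw [Finset.sum_Icc_succ_top (by omega), Nat.sub_self, ss_zero, mul_one] at h
    simp only [TP, SP, coeff_mk, tt_zero, ss_zero, mul_one, zero_mul, zero_add, coeff_one,
      Nat.add_eq_zero_iff, one_ne_zero, and_false, if_false, sub_zero]
    exact h.symm

lemma EP_id : X * derivative ℝ EP = EP * BP := by
  ext n
  rcases n with _ | m
  · simp [EP, BP, bb_zero]
  · have h0 : ((m : ℝ) + 1) * Es (m + 1) = ∑ j ∈ range (m + 1), bb (m + 1 - j) * Es j := by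
      rw [Es]
      have := Fin.sum_univ_eq_sum_range (fun j => bb (m + 1 - j) * Es j) (m + 1)
      rw [this]
      have hm : ((m : ℝ) + 1) ≠ 0 := by positivity
      field_simp
    rw [coeff_X_der, coeff_mul, Finset.Nat.sum_antidiagonal_eq_sum_range_succ_mk,
      Finset.sum_range_succ]
    simp only [EP, BP, coeff_mk, Nat.sub_self, bb_zero, mul_zero, add_zero]
    push_cast
    rw [h0]
    exact Finset.sum_congr rfl fun _ _ => mul_comm _ _

lemma As_eq : As = X * EP := rfl

lemma As_id : X * derivative ℝ As = As * (1 + BP) := by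
  rw [As_eq, Derivation.leibniz, derivative_X]
  simp only [smul_eq_mul, mul_one]
  have h := EP_id
  calc X * (X * derivative ℝ EP + EP) = X * (X * derivative ℝ EP) + X * EP := by ring
    _ = X * EP * (1 + BP) := by rw [h]; ring

lemma hAs : HasSubst As := HasSubst.of_constantCoeff_zero' (by simp [As_eq])

lemma coeff_As_pow (n d : ℕ) (h : n < d) : coeff n (As ^ d) = 0 := by
  rw [As_eq, mul_pow, coeff_X_pow_mul', if_neg (by omega)]

lemma coeff_subst_As (f : PowerSeries ℝ) (n : ℕ) :
    coeff n (f.subst As : PowerSeries ℝ) = ∑ m ∈ range (n + 1), coeff m f * coeff n (As ^ m) := by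
  rw [coeff_subst' hAs, finsum_eq_sum_of_support_subset (s := range (n + 1))]
  · rfl
  · intro d hd
    rw [Function.mem_support] at hd
    rw [Finset.mem_coe, Finset.mem_range]
    by_contra hc
    exact hd (by rw [coeff_As_pow n d (by omega), smul_zero])

/-- the substituted tree function -/
noncomputable def VP : PowerSeries ℝ := TP.subst As

lemma VP_zero : coeff 0 VP = 0 := by
  rw [VP, coeff_subst_As]
  simp [TP, tt_zero]

lemma VP_one : coeff 1 VP = 1 := by
  rw [VP, coeff_subst_As, Finset.sum_range_succ, Finset.sum_range_succ, Finset.sum_range_zero]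
  simp only [TP, coeff_mk, tt_zero, tt_one, zero_mul, zero_add, one_mul, pow_one]
  rw [As_eq, show (1 : ℕ) = 0 + 1 from rfl, coeff_succ_X_mul]
  simp [EP, Es]

lemma VP_id : X * derivative ℝ VP = VP + (X * derivative ℝ VP + BP) * VP := by
  have h1 : (X * derivative ℝ TP).subst As = As * (derivative ℝ TP).subst As := by
    rw [subst_mul hAs, subst_X hAs]
  have h2 : X * derivative ℝ VP = (X * derivative ℝ TP).subst As * (1 + BP) := by
    rw [VP, derivative_subst hAs, h1]
    calc X * ((derivative ℝ TP).subst As * derivative ℝ As)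
        = (derivative ℝ TP).subst As * (X * derivative ℝ As) := by ring
      _ = _ := by rw [As_id]; ring
  have h3 : VP * (X * derivative ℝ TP).subst As = (X * derivative ℝ TP).subst As - VP := by
    rw [VP, ← subst_mul hAs, TP_id, subst_sub hAs]
  rw [h2]
  linear_combination -(1 + BP) * h3

lemma VP_rec (m : ℕ) : (m : ℝ) * coeff (m + 1) VP
    = ∑ k ∈ Icc 1 m, ((k : ℝ) * coeff k VP + bb k) * coeff (m + 1 - k) VP := by
  have h := congrArg (coeff (m + 1)) VP_id
  rw [map_add, coeff_mul_ends (X * derivative ℝ VP + BP) VP, coeff_X_der, VP_zero, mul_zero,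
    add_zero] at h
  have h0 : coeff 0 (X * derivative ℝ VP + BP) = 0 := by
    rw [map_add, coeff_X_der]
    simp [BP, bb_zero]
  rw [h0, zero_mul, zero_add] at h
  have h1 : ∑ k ∈ Icc 1 m, coeff k (X * derivative ℝ VP + BP) * coeff (m + 1 - k) VP
      = ∑ k ∈ Icc 1 m, ((k : ℝ) * coeff k VP + bb k) * coeff (m + 1 - k) VP := by
    refine Finset.sum_congr rfl fun k _ => ?_
    rw [map_add, coeff_X_der]
    simp [BP]
  rw [← h1]
  push_cast at h
  linarith

lemma uu_one : uu 1 = 1 := by
  have h : CS 0 = {Fr.nil} := by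
    ext f
    rw [mem_CS, Finset.mem_singleton]
    constructor
    · rintro ⟨hf, -⟩
      cases f with
      | nil => rfl
      | cons a b => simp [Fr.size] at hf
    · rintro rfl
      exact ⟨rfl, trivial⟩
  rw [show (1 : ℕ) = 0 + 1 from rfl, uu_succ, cf, h, Finset.card_singleton]

lemma uu_rec (hE : S_EUL) (m : ℕ) : (m : ℝ) * uu (m + 1)
    = ∑ k ∈ Icc 1 m, ((k : ℝ) * uu k + bb k) * uu (m + 1 - k) := by
  have h := hE m
  have h' : (m : ℝ) * cf m = ∑ k ∈ Icc 1 m, (∑ d ∈ k.divisors, (d : ℝ) * uu d) * cf (m - k) := by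
    exact_mod_cast h
  rw [uu_succ, h']
  refine Finset.sum_congr rfl fun k hk => ?_
  rw [Finset.mem_Icc] at hk
  have e1 : m + 1 - k = m - k + 1 := by omega
  rw [e1, uu_succ, ← Nat.cons_self_properDivisors (by omega), Finset.sum_cons, bb]

lemma uu_eq (hE : S_EUL) (n : ℕ) : (uu n : ℝ) = coeff n VP := by
  induction n using Nat.strong_induction_on with
  | _ n ih =>
    rcases n with _ | m
    · rw [VP_zero, uu_zero, Nat.cast_zero]
    · rcases Nat.eq_zero_or_pos m with rfl | hm
      · rw [zero_add, VP_one, uu_one, Nat.cast_one]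
      · have hm' : (m : ℝ) ≠ 0 := by exact_mod_cast hm.ne'
        apply mul_left_cancel₀ hm'
        rw [uu_rec hE, VP_rec]
        refine Finset.sum_congr rfl fun k hk => ?_
        rw [Finset.mem_Icc] at hk
        rw [ih k (by omega), ih (m + 1 - k) (by omega)]

/-- the substituted series of `m ^ m / m!` -/
noncomputable def WP : PowerSeries ℝ := SP.subst As

lemma WP_id : VP * WP = WP - 1 := by
  have h1 : (1 : PowerSeries ℝ).subst As = (1 : PowerSeries ℝ) := by
    rw [← coe_substAlgHom hAs, map_one]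
  rw [VP, WP, ← subst_mul hAs, SP_id, subst_sub hAs, h1]

lemma WP_zero : coeff 0 WP = 1 := by
  rw [WP, coeff_subst_As]
  simp [SP, ss_zero]

lemma WP_rec (m : ℕ) :
    coeff (m + 1) WP = ∑ j ∈ range (m + 1), coeff (m + 1 - j) VP * coeff j WP := by
  have h := congrArg (coeff (m + 1)) WP_id
  rw [mul_comm, coeff_mul, Finset.Nat.sum_antidiagonal_eq_sum_range_succ_mk,
    Finset.sum_range_succ, map_sub] at h
  simp only [Nat.sub_self, VP_zero, mul_zero, add_zero, coeff_one, Nat.add_eq_zero_iff,
    one_ne_zero, and_false, if_false, sub_zero] at h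
  rw [← h]
  exact Finset.sum_congr rfl fun _ _ => mul_comm _ _

lemma ku_eq (hE : S_EUL) (n : ℕ) : (ku n : ℝ) = coeff n WP := by
  induction n using Nat.strong_induction_on with
  | _ n ih =>
    rcases n with _ | m
    · rw [WP_zero, ku, Nat.cast_one]
    · have h1 : ku (m + 1) = ∑ j ∈ range (m + 1), uu (m + 1 - j) * ku j := by
        rw [ku]
        exact Fin.sum_univ_eq_sum_range (fun j => uu (m + 1 - j) * ku j) (m + 1)
      rw [h1, WP_rec]
      push_cast
      refine Finset.sum_congr rfl fun j hj => ?_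
      rw [Finset.mem_range] at hj
      rw [uu_eq hE, ih j (by omega)]

end LAGa

open LAGa in
theorem t_LAG (hE : S_EUL) : S_LAG := by
  intro n
  refine ⟨?_, ?_⟩
  · rw [uu_eq hE, VP, coeff_subst_As]
    refine Finset.sum_congr rfl fun m _ => ?_
    rw [TP, PowerSeries.coeff_mk, tt]
  · rw [ku_eq hE, WP, coeff_subst_As]
    refine Finset.sum_congr rfl fun m _ => ?_
    rw [SP, PowerSeries.coeff_mk, ss]

end Pool.Agent.UT
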