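import Pool.Agent.UT.Tl

set_option autoImplicit false

/-!
MNB: the main bound. The forests rooted at a centroid which violate the hypotheses of Theorem H have
small weight (adapted from Pool/Agent/Lib_helper86/RT/Final.lean).
-/

namespace Pool.Agent.UT

open Pool.MP_1af41f_co.CSF RT Finset

namespace MNBa

lemma ET_E_swap (k j : ℕ) (H : Fr → Fr → ℝ) :
    ET k (fun a => E j (fun g => H a g)) = E j (fun g => ET k (fun a => H a g)) := by
  rcases k with _ | k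
  · simp only [ET_zero]
    have h := E_mul_left j 0 (fun _ => 1)
    simp only [zero_mul] at h
    exact h.symm
  · simp only [ET_succ]
    rw [E_mul_left]
    congr 1
    simp only [E, Finset.mul_sum]
    rw [Finset.sum_comm]
    exact Finset.sum_congr rfl fun g _ => Finset.sum_congr rfl fun a _ => by ring

lemma expand (k j : ℕ) (c : ℝ) (A y x : Fr → ℝ) (R : Finset ℕ) (u : ℕ → Fr → ℝ)
    (v : ℕ → Fr → Fr → ℝ) :
    ET k (fun a => E j (fun g => c * (A g * (x a + y g + ∑ ρ ∈ R, (u ρ a + v ρ a g)))))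
      = c * (ET k x * E j A + τ k * E j (fun g => A g * y g)
        + ∑ ρ ∈ R, (ET k (u ρ) * E j A + E j (fun g => A g * ET k (fun a => v ρ a g)))) := by
  have h1 : ∀ a : Fr, E j (fun g => c * (A g * (x a + y g + ∑ ρ ∈ R, (u ρ a + v ρ a g))))
      = c * (x a * E j A + E j (fun g => A g * y g)
        + ∑ ρ ∈ R, (u ρ a * E j A + E j (fun g => A g * v ρ a g))) := by
    intro a
    rw [E_mul_left]
    congr 1
    rw [← E_mul_left, ← E_add]
    have h2 : ∑ ρ ∈ R, (u ρ a * E j A + E j (fun g => A g * v ρ a g))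
        = E j (fun g => ∑ ρ ∈ R, (u ρ a * A g + A g * v ρ a g)) := by
      rw [E_sum]
      apply Finset.sum_congr rfl
      intro ρ _
      rw [E_add, E_mul_left]
    rw [h2, ← E_add]
    apply E_congr
    intro g _
    have h3 : ∑ ρ ∈ R, (u ρ a * A g + A g * v ρ a g) = A g * ∑ ρ ∈ R, (u ρ a + v ρ a g) := by
      rw [Finset.mul_sum]
      exact Finset.sum_congr rfl fun ρ _ => by ring
    rw [h3]
    ring
  simp only [h1]
  rw [ET_mul_left]
  congr 1
  rw [ET_add, ET_add, ET_sum, ET_cst]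
  congr 1
  · congr 1
    · rw [mul_comm, ← ET_mul_left]
      exact ET_congr fun a _ => by ring
    · ring
  · apply Finset.sum_congr rfl
    intro ρ _
    rw [ET_add, ET_E_swap]
    congr 1
    · rw [mul_comm, ← ET_mul_left]
      exact ET_congr fun a _ => by ring
    · exact E_congr fun g _ => by rw [ET_mul_left]

lemma rng_bound (hRst : S_RST) (h : IsRad rr cc) (δ : ℝ) (hδ : 0 < δ) :
    ∃ C : ℝ, 0 < C ∧ ∀ m z : ℕ, 1 ≤ m → Rng δ m z →
    E (m - z) (fun g => ind (AllLe z g)) ≤ C / (m : ℝ) ^ 2 := by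
  obtain ⟨C0, hC0, hrestr⟩ := (hRst h).1
  have hsδ : 0 < √(2 * δ) := Real.sqrt_pos.2 (by linarith)
  refine ⟨3 * C0 * (1 / √(2 * δ)), by positivity, ?_⟩
  intro m z hm hr
  obtain ⟨h1, h2⟩ := hr
  have hm0 : (0 : ℝ) < m := by exact_mod_cast hm
  have hsm : 0 < √(m : ℝ) := Real.sqrt_pos.2 hm0
  have hms : √(m : ℝ) * √(m : ℝ) = m := Real.mul_self_sqrt hm0.le
  have h3 : (z : ℝ) ≤ m := by nlinarith
  have h4 : z ≤ m := by exact_mod_cast h3
  have h5 : ((m - z : ℕ) : ℝ) = m - z := by rw [Nat.cast_sub h4]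
  have h6 : z < m - z := by
    have : (z : ℝ) < ((m - z : ℕ) : ℝ) := by rw [h5]; nlinarith
    exact_mod_cast this
  refine (hrestr (m - z) z h6).trans ?_
  have h10 : 1 / (((m - z : ℕ) : ℝ) * √((m - z : ℕ) : ℝ)) ≤ 3 / (m * √m) :=
    inv_le_of (7 / 10) _ m 3 (by norm_num) hm0 (by rw [h5]; nlinarith) (by norm_num)
  have hsq : √(2 * δ) ^ 2 = 2 * δ := Real.sq_sqrt (by linarith)
  have h12 : 1 / √(((m - z : ℕ) : ℝ) - z) ≤ (1 / √(2 * δ)) / √m :=
    inv_sqrt_le_of (√(2 * δ)) _ m _ hsδ hm0 (by rw [h5, hsq]; nlinarith)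
      (by rw [one_div, inv_mul_cancel₀ hsδ.ne'])
  calc C0 / (((m - z : ℕ) : ℝ) * √((m - z : ℕ) : ℝ) * √(((m - z : ℕ) : ℝ) - z))
      = C0 * (1 / (((m - z : ℕ) : ℝ) * √((m - z : ℕ) : ℝ))) * (1 / √(((m - z : ℕ) : ℝ) - z)) := by
        rw [div_mul_eq_div_div, mul_one_div, mul_one_div]
    _ ≤ C0 * (3 / (m * √m)) * ((1 / √(2 * δ)) / √m) := by gcongr
    _ = 3 * C0 * (1 / √(2 * δ)) / (m : ℝ) ^ 2 := by
        have h13 : (m : ℝ) * √m * √m = (m : ℝ) ^ 2 := by linear_combination (m : ℝ) * hms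
        rw [← h13]
        field_simp

lemma many_set (hMny : S_MNY) (hrad : IsRad rr cc) (p : ℕ) :
    ∃ C : ℝ, 0 < C ∧ ∀ (z : ℕ) (S : Finset ℕ) (T N : ℕ), 1 ≤ z → 1 ≤ T →
    1 ≤ N → S.card ≤ N → ET z (fun a => ind (Ev5 T S a)) ≤ C / (z * √z) * (√N / T) ^ p := by
  classical
  obtain ⟨C, hC, h⟩ := hMny hrad p
  refine ⟨C, hC, ?_⟩
  intro z S T N hz hT hN hS
  have h0 : ET z (fun a => ind (Ev5 T S a))
      = ET z (fun a => ind (T ≤ ((Wset (z / 2) a) ∩ S).card)) := by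
    apply ET_congr
    intro a ha
    unfold Ev5
    rw [ha]
  rw [h0]
  have hz0 : (0 : ℝ) < z := by exact_mod_cast hz
  have hT0 : (0 : ℝ) < T := by exact_mod_cast hT
  by_cases hS0 : 1 ≤ S.card
  · refine (h z S T hz hT hS0).trans ?_
    have hle : √(S.card : ℝ) ≤ √(N : ℝ) := Real.sqrt_le_sqrt (by exact_mod_cast hS)
    gcongr
  · have h1 : S = ∅ := Finset.card_eq_zero.1 (by omega)
    have h2 : ET z (fun a => ind (T ≤ ((Wset (z / 2) a) ∩ S).card)) ≤ ET z (fun _ => 0) := by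
      apply ET_mono hrad
      intro a _
      rw [ind_of_not]
      rw [h1, Finset.inter_empty, Finset.card_empty]
      omega
    rw [ET_cst, zero_mul] at h2
    exact h2.trans (by positivity)

/-- the main event, as a sum over the size `z` of the largest branch -/
lemma main_sum (hBri : S_BRI) (hrad : IsRad rr cc) (δ : ℝ) (m Y M T L N : ℕ) :
    E m (fun f => ind (∃ p ∈ br f, Rng δ m (vs p.1) ∧ AllLe (vs p.1) p.2 ∧ (Ev4 Y M p.1 ∨
      Ev7 L N p.2 ∨ ∃ ρ ∈ range (2 * m + 1), Ev5 T (Ico (ρ - L) ρ) p.1 ∨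
        ((Bset L p.2).card ≤ N ∧ Ev5 T ((Bset L p.2).image (fun b => ρ - b)) p.1))))
    ≤ ∑ z ∈ Icc 1 m, ind (Rng δ m z) *
      (ET z (fun a => ind (Ev4 Y M a)) * E (m - z) (fun g => ind (AllLe z g))
        + τ z * E (m - z) (fun g => ind (AllLe z g) * ind (Ev7 L N g))
        + ∑ ρ ∈ range (2 * m + 1), (ET z (fun a => ind (Ev5 T (Ico (ρ - L) ρ) a)) *
            E (m - z) (fun g => ind (AllLe z g))
          + E (m - z) (fun g => ind (AllLe z g) * ET z (fun a => ind ((Bset L g).card ≤ N ∧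
            Ev5 T ((Bset L g).image (fun b => ρ - b)) a))))) := by
  refine (E_br_le' hBri hrad m (fun a g => Rng δ m (vs a) ∧ AllLe (vs a) g ∧ (Ev4 Y M a ∨
      Ev7 L N g ∨ ∃ ρ ∈ range (2 * m + 1), Ev5 T (Ico (ρ - L) ρ) a ∨
        ((Bset L g).card ≤ N ∧ Ev5 T ((Bset L g).image (fun b => ρ - b)) a)))
    (fun a g => ind (Rng δ m (vs a)) * (ind (AllLe (vs a) g) *
    (ind (Ev4 Y M a) + ind (Ev7 L N g) + ∑ ρ ∈ range (2 * m + 1),
      (ind (Ev5 T (Ico (ρ - L) ρ) a) + ind ((Bset L g).card ≤ N ∧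
            Ev5 T ((Bset L g).image (fun b => ρ - b)) a))))) ?_ ?_).trans ?_
  · intro a g
    exact mul_nonneg (ind_nonneg _) (mul_nonneg (ind_nonneg _)
      (add_nonneg (add_nonneg (ind_nonneg _) (ind_nonneg _))
        (Finset.sum_nonneg fun ρ _ => add_nonneg (ind_nonneg _) (ind_nonneg _))))
  · rintro a g ⟨hr, hall, hev⟩
    rw [ind_of hr, ind_of hall, one_mul, one_mul]
    have h1 := ind_or_le (Ev4 Y M a) (Ev7 L N g ∨ ∃ ρ ∈ range (2 * m + 1),
      Ev5 T (Ico (ρ - L) ρ) a ∨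
        ((Bset L g).card ≤ N ∧ Ev5 T ((Bset L g).image (fun b => ρ - b)) a))
    have h2 := ind_or_le (Ev7 L N g) (∃ ρ ∈ range (2 * m + 1),
      Ev5 T (Ico (ρ - L) ρ) a ∨
        ((Bset L g).card ≤ N ∧ Ev5 T ((Bset L g).image (fun b => ρ - b)) a))
    have h3 := ind_exists_fin (range (2 * m + 1)) (fun ρ => Ev5 T (Ico (ρ - L) ρ) a ∨
        ((Bset L g).card ≤ N ∧ Ev5 T ((Bset L g).image (fun b => ρ - b)) a))
    have h4 : ∑ ρ ∈ range (2 * m + 1), ind (Ev5 T (Ico (ρ - L) ρ) a ∨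
        ((Bset L g).card ≤ N ∧ Ev5 T ((Bset L g).image (fun b => ρ - b)) a))
        ≤ ∑ ρ ∈ range (2 * m + 1), (ind (Ev5 T (Ico (ρ - L) ρ) a) +
        ind ((Bset L g).card ≤ N ∧ Ev5 T ((Bset L g).image (fun b => ρ - b)) a)) :=
      Finset.sum_le_sum fun ρ _ => ind_or_le _ _
    have h5 := ind_of hev
    linarith
  · apply le_of_eq
    apply Finset.sum_congr rfl
    intro z _
    rw [← expand]
    apply ET_congr
    intro a ha
    rw [ha]

lemma main_bound (hBri : S_BRI) (hRst : S_RST) (hFew : S_FEW) (hMny : S_MNY) (hFrg : S_FRG)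
    (hrad : IsRad rr cc) (δ : ℝ) (hδ : 0 < δ) (hδ24 : δ ≤ 1 / 24) : ∃ C : ℝ, 0 < C ∧
    ∀ (m N T M Y : ℕ) (q : ℝ), 1 ≤ m → 1 ≤ N → 1 ≤ T → 1 ≤ Y → (Y : ℝ) ≤ m / 6 → 1 ≤ q →
    (m : ℝ) ≤ 2 ^ 20 * q ^ 20 → (N : ℝ) = q ^ 14 → (T : ℝ) = q ^ 8 → (M : ℝ) = q ^ 9 →
    E m (fun f => ind (∃ p ∈ br f, Rng δ m (vs p.1) ∧ AllLe (vs p.1) p.2 ∧ (Ev4 Y M p.1 ∨
      Ev7 N N p.2 ∨ ∃ ρ ∈ range (2 * m + 1),
        Ev5 T (Ico (ρ - N) ρ) p.1 ∨ ((Bset N p.2).card ≤ N ∧
          Ev5 T ((Bset N p.2).image (fun b => ρ - b)) p.1))))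
    ≤ C * (q ^ 9 / √Y + (q ^ 9) ^ 2 / Y + 1 / q) / ((m : ℝ) ^ 2 * √m) := by
  obtain ⟨CR, hCR, hR⟩ := rng_bound hRst hrad δ hδ
  obtain ⟨C4, hC4, h4⟩ := hFew hrad
  obtain ⟨C5, hC5, h5⟩ := many_set hMny hrad 21
  obtain ⟨C7, hC7, h7⟩ := hFrg hrad δ hδ
  have hcc : 0 < cc := cc_pos hrad
  refine ⟨8 * C4 * CR + 16 * (cc * C7) * 2 ^ 20 + 48 * C5 * CR * 2 ^ 20, by positivity, ?_⟩
  intro m N T M Y q hm1 hN1 hT1 hY hYm hq hmq' hN hT hM
  have hq0 : (0 : ℝ) < q := by linarith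
  have hm0 : (0 : ℝ) < m := by exact_mod_cast hm1
  have hm1' : (1 : ℝ) ≤ m := by exact_mod_cast hm1
  have hsm : 0 < √(m : ℝ) := Real.sqrt_pos.2 hm0
  have hms : √(m : ℝ) * √(m : ℝ) = m := Real.mul_self_sqrt hm0.le
  have hY0 : (0 : ℝ) < Y := by exact_mod_cast hY
  have hsY : 0 < √(Y : ℝ) := Real.sqrt_pos.2 hY0
  have hsq14 : √(N : ℝ) = q ^ 7 := by
    rw [hN, show q ^ 14 = (q ^ 7) ^ 2 by ring, Real.sqrt_sq (by positivity)]
  have hrat : √(N : ℝ) / (T : ℝ) = 1 / q := by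
    rw [hsq14, hT]
    field_simp
  refine (main_sum hBri hrad δ m Y M T N N).trans ?_
  -- bound of each term
  obtain ⟨B, hB⟩ : ∃ B : ℝ, B = (8 * C4 / (m * √m) * ((q : ℝ) ^ 9 / √Y + ((q : ℝ) ^ 9) ^ 2 / Y))
      * (CR / (m : ℝ) ^ 2) + 8 * cc / (m * √m) * (1 / (q : ℝ) ^ 14 * (2 * C7 / (m * (q : ℝ) ^ 7)))
      + (2 * m + 1) * (2 * ((8 * C5 / (m * √m) * (1 / (q : ℝ)) ^ 21) * (CR / (m : ℝ) ^ 2))) :=
    ⟨_, rfl⟩
  have hB0 : 0 ≤ B := by rw [hB]; positivity
  have key : ∀ z ∈ Icc 1 m, ind (Rng δ m z) *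
      (ET z (fun a => ind (Ev4 Y M a)) * E (m - z) (fun g => ind (AllLe z g))
        + τ z * E (m - z) (fun g => ind (AllLe z g) * ind (Ev7 N N g))
        + ∑ ρ ∈ range (2 * m + 1), (ET z (fun a => ind (Ev5 T (Ico (ρ - N) ρ) a)) *
            E (m - z) (fun g => ind (AllLe z g))
          + E (m - z) (fun g => ind (AllLe z g) * ET z (fun a => ind ((Bset N g).card
            ≤ N ∧ Ev5 T ((Bset N g).image (fun b => ρ - b)) a))))) ≤ B := by
    intro z hz
    rw [Finset.mem_Icc] at hz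
    by_cases hr : Rng δ m z
    swap
    · rw [ind_of_not hr, zero_mul]; exact hB0
    rw [ind_of hr, one_mul]
    have hRz := hR m z hm1 hr
    obtain ⟨hz1, hz2⟩ := hr
    have hz0 : (0 : ℝ) < z := by exact_mod_cast hz.1
    have hsz : 0 < √(z : ℝ) := Real.sqrt_pos.2 hz0
    have hzinv : 1 / ((z : ℝ) * √z) ≤ 8 / (m * √m) :=
      inv_le_of (1 / 2) z m 8 (by norm_num) hm0 (by nlinarith) (by norm_num)
    have hzC : ∀ C : ℝ, 0 ≤ C → C / ((z : ℝ) * √z) ≤ 8 * C / (m * √m) := by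
      intro C hC
      calc C / ((z : ℝ) * √z) = C * (1 / ((z : ℝ) * √z)) := by ring
        _ ≤ C * (8 / (m * √m)) := by gcongr
        _ = _ := by ring
    have hτ : τ z ≤ 8 * cc / (m * √m) := (τ_le hrad z hz.1).trans (hzC cc hcc.le)
    have hER0 : 0 ≤ E (m - z) (fun g => ind (AllLe z g)) := E_nonneg hrad fun _ => ind_nonneg _
    -- few
    have hYz : Y < z := by
      have : (Y : ℝ) < z := by nlinarith
      exact_mod_cast this
    have hYz2 : 2 * Y ≤ z := by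
      have : ((2 * Y : ℕ) : ℝ) ≤ z := by push_cast; nlinarith
      exact_mod_cast this
    have hT4 : ET z (fun a => ind (Ev4 Y M a))
        ≤ 8 * C4 / (m * √m) * ((q : ℝ) ^ 9 / √Y + ((q : ℝ) ^ 9) ^ 2 / Y) := by
      have e1 : ET z (fun a => ind (Ev4 Y M a))
          = ET z (fun a => ind ((Wset (z - Y) a).card ≤ M)) := by
        apply ET_congr
        intro a ha
        unfold Ev4
        rw [ha]
      rw [e1]
      have e2 := h4 z (z - Y) M (by omega) (by omega)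
      have e3 : (z : ℝ) - ((z - Y : ℕ) : ℝ) = Y := by
        rw [Nat.cast_sub hYz.le]; ring
      rw [e3] at e2
      rw [hM] at e2
      refine e2.trans ?_
      apply mul_le_mul_of_nonneg_right (hzC C4 hC4.le) (by positivity)
    -- fringe
    have hT7 : E (m - z) (fun g => ind (AllLe z g) * ind (Ev7 N N g))
        ≤ 1 / (q : ℝ) ^ 14 * (2 * C7 / (m * (q : ℝ) ^ 7)) := by
      have e1 : E (m - z) (fun g => ind (AllLe z g) * ind (Ev7 N N g))
          ≤ E (m - z) (fun g => 1 / (q : ℝ) ^ 14 *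
            (ind (AllLe z g) * ((Bset N g).card : ℝ))) := by
        apply E_mono hrad
        intro g _
        have e2 : ind (Ev7 N N g)
            ≤ 1 / (q : ℝ) ^ 14 * ((Bset N g).card : ℝ) := by
          by_cases hc : Ev7 N N g
          · rw [ind_of hc]
            unfold Ev7 at hc
            have hc' : (q : ℝ) ^ 14 ≤ ((Bset N g).card : ℝ) := by
              rw [← hN]; exact_mod_cast hc.le
            rw [one_div, ← div_eq_inv_mul, le_div_iff₀ (by positivity)]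
            linarith
          · rw [ind_of_not hc]; positivity
        calc ind (AllLe z g) * ind (Ev7 N N g)
            ≤ ind (AllLe z g) * (1 / (q : ℝ) ^ 14 * ((Bset N g).card : ℝ)) :=
              mul_le_mul_of_nonneg_left e2 (ind_nonneg _)
          _ = _ := by ring
      refine e1.trans ?_
      rw [E_mul_left]
      apply mul_le_mul_of_nonneg_left _ (by positivity)
      have hzm : ((m - z : ℕ) : ℝ) = m - z := by rw [Nat.cast_sub hz.2]
      have hmz1 : 1 ≤ m - z := by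
        have : (z : ℝ) < m := by nlinarith
        have : z < m := by exact_mod_cast this
        omega
      have e3 := h7 (m - z) z N hmz1 hN1
        (by rw [hzm]; nlinarith)
      refine e3.trans ?_
      rw [hsq14]
      rw [div_le_div_iff₀ (by rw [hzm]; apply mul_pos _ (by positivity); nlinarith)
        (by positivity)]
      rw [hzm]
      have e4 : (m : ℝ) ≤ 2 * (m - z) := by nlinarith
      calc C7 * (m * (q : ℝ) ^ 7) = (C7 * (q : ℝ) ^ 7) * m := by ring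
        _ ≤ (C7 * (q : ℝ) ^ 7) * (2 * (m - z)) := by gcongr
        _ = _ := by ring
    -- many
    have hT5 : ∀ S : Finset ℕ, S.card ≤ N → ET z (fun a => ind (Ev5 T S a))
        ≤ 8 * C5 / (m * √m) * (1 / (q : ℝ)) ^ 21 := by
      intro S hS
      have e1 := h5 z S T N hz.1 hT1 hN1 hS
      rw [hrat] at e1
      refine e1.trans ?_
      exact mul_le_mul_of_nonneg_right (hzC C5 hC5.le) (by positivity)
    have hsum : ∑ ρ ∈ range (2 * m + 1), (ET z (fun a => ind (Ev5 T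
          (Ico (ρ - N) ρ) a)) * E (m - z) (fun g => ind (AllLe z g))
          + E (m - z) (fun g => ind (AllLe z g) * ET z (fun a => ind ((Bset N g).card
            ≤ N ∧ Ev5 T ((Bset N g).image (fun b => ρ - b)) a))))
        ≤ (2 * m + 1) * (2 * ((8 * C5 / (m * √m) * (1 / (q : ℝ)) ^ 21) * (CR / (m : ℝ) ^ 2))) := by
      have e1 : ∀ ρ ∈ range (2 * m + 1), (ET z (fun a => ind (Ev5 T
          (Ico (ρ - N) ρ) a)) * E (m - z) (fun g => ind (AllLe z g))
          + E (m - z) (fun g => ind (AllLe z g) * ET z (fun a => ind ((Bset N g).card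
            ≤ N ∧ Ev5 T ((Bset N g).image (fun b => ρ - b)) a))))
          ≤ 2 * ((8 * C5 / (m * √m) * (1 / (q : ℝ)) ^ 21) * (CR / (m : ℝ) ^ 2)) := by
        intro ρ _
        have e2 : ET z (fun a => ind (Ev5 T (Ico (ρ - N) ρ) a))
            ≤ 8 * C5 / (m * √m) * (1 / (q : ℝ)) ^ 21 :=
          hT5 _ (by rw [Nat.card_Ico]; omega)
        have e3 : E (m - z) (fun g => ind (AllLe z g) * ET z (fun a => ind ((Bset N g).card
            ≤ N ∧ Ev5 T ((Bset N g).image (fun b => ρ - b)) a)))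
            ≤ (8 * C5 / (m * √m) * (1 / (q : ℝ)) ^ 21) * (CR / (m : ℝ) ^ 2) := by
          have e4 : E (m - z) (fun g => ind (AllLe z g) * ET z (fun a => ind
              ((Bset N g).card ≤ N ∧
              Ev5 T ((Bset N g).image (fun b => ρ - b)) a)))
              ≤ E (m - z) (fun g => (8 * C5 / (m * √m) * (1 / (q : ℝ)) ^ 21) *
                ind (AllLe z g)) := by
            apply E_mono hrad
            intro g _
            rw [mul_comm]
            apply mul_le_mul_of_nonneg_right _ (ind_nonneg _)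
            by_cases hc : (Bset N g).card ≤ N
            · refine (ET_mono hrad fun a _ => ind_mono fun h => h.2).trans
                (hT5 _ (Finset.card_image_le.trans hc))
            · have e5 : ET z (fun a => ind ((Bset N g).card ≤ N ∧
                Ev5 T ((Bset N g).image (fun b => ρ - b)) a)) ≤ ET z (fun _ => 0) :=
                ET_mono hrad fun a _ => by rw [ind_of_not (fun h => hc h.1)]
              rw [ET_cst, zero_mul] at e5
              exact e5.trans (by positivity)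
          refine e4.trans ?_
          rw [E_mul_left]
          exact mul_le_mul_of_nonneg_left hRz (by positivity)
        have e6 : ET z (fun a => ind (Ev5 T (Ico (ρ - N) ρ) a)) *
            E (m - z) (fun g => ind (AllLe z g))
            ≤ (8 * C5 / (m * √m) * (1 / (q : ℝ)) ^ 21) * (CR / (m : ℝ) ^ 2) :=
          mul_le_mul e2 hRz hER0 (by positivity)
        linarith
      refine (Finset.sum_le_card_nsmul _ _ _ e1).trans (le_of_eq ?_)
      rw [nsmul_eq_mul, Finset.card_range]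
      push_cast
      ring
    have hA : ET z (fun a => ind (Ev4 Y M a)) * E (m - z) (fun g => ind (AllLe z g))
        ≤ (8 * C4 / (m * √m) * ((q : ℝ) ^ 9 / √Y + ((q : ℝ) ^ 9) ^ 2 / Y)) * (CR / (m : ℝ) ^ 2) :=
      mul_le_mul hT4 hRz hER0 (by positivity)
    have hBb : τ z * E (m - z) (fun g => ind (AllLe z g) * ind (Ev7 N N g))
        ≤ 8 * cc / (m * √m) * (1 / (q : ℝ) ^ 14 * (2 * C7 / (m * (q : ℝ) ^ 7))) :=
      mul_le_mul hτ hT7 (E_nonneg hrad fun _ => mul_nonneg (ind_nonneg _) (ind_nonneg _))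
        (by positivity)
    rw [hB]
    linarith
  refine (Finset.sum_le_card_nsmul _ _ _ key).trans ?_
  rw [nsmul_eq_mul, Nat.card_Icc]
  have hcm : ((m + 1 - 1 : ℕ) : ℝ) = m := by simp
  rw [hcm, hB]
  -- the three parts
  have p1 : (m : ℝ) * ((8 * C4 / (m * √m) * ((q : ℝ) ^ 9 / √Y + ((q : ℝ) ^ 9) ^ 2 / Y))
      * (CR / (m : ℝ) ^ 2))
      = 8 * C4 * CR * ((q : ℝ) ^ 9 / √Y + ((q : ℝ) ^ 9) ^ 2 / Y) / ((m : ℝ) ^ 2 * √m) := by
    field_simp
  have p2 : (m : ℝ) * (8 * cc / (m * √m) * (1 / (q : ℝ) ^ 14 * (2 * C7 / (m * (q : ℝ) ^ 7))))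
      ≤ 16 * (cc * C7) * 2 ^ 20 * (1 / q) / ((m : ℝ) ^ 2 * √m) := by
    have e1 : (m : ℝ) * (8 * cc / (m * √m) * (1 / (q : ℝ) ^ 14 * (2 * C7 / (m * (q : ℝ) ^ 7))))
        = 16 * (cc * C7) * (m * (1 / (q : ℝ) ^ 21)) / ((m : ℝ) ^ 2 * √m) := by
      field_simp
      ring
    have e2 : (m : ℝ) * (1 / (q : ℝ) ^ 21) ≤ 2 ^ 20 * (1 / q) := by
      rw [mul_one_div, mul_one_div, div_le_div_iff₀ (by positivity) hq0]
      calc (m : ℝ) * q ≤ (2 ^ 20 * (q : ℝ) ^ 20) * q := by gcongr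
        _ = _ := by ring
    rw [e1]
    have e3 : 16 * (cc * C7) * (m * (1 / (q : ℝ) ^ 21)) ≤ 16 * (cc * C7) * 2 ^ 20 * (1 / q) := by
      calc 16 * (cc * C7) * (m * (1 / (q : ℝ) ^ 21)) ≤ 16 * (cc * C7) * (2 ^ 20 * (1 / q)) := by
            gcongr
        _ = _ := by ring
    gcongr
  have p3 : (m : ℝ) * ((2 * m + 1) * (2 * ((8 * C5 / (m * √m) * (1 / (q : ℝ)) ^ 21)
      * (CR / (m : ℝ) ^ 2)))) ≤ 48 * C5 * CR * 2 ^ 20 * (1 / q) / ((m : ℝ) ^ 2 * √m) := by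
    have e1 : (m : ℝ) * ((2 * m + 1) * (2 * ((8 * C5 / (m * √m) * (1 / (q : ℝ)) ^ 21)
        * (CR / (m : ℝ) ^ 2))))
        = 16 * C5 * CR * ((2 * m + 1) * (1 / (q : ℝ) ^ 21)) / ((m : ℝ) ^ 2 * √m) := by
      field_simp
      ring
    have e2 : (2 * (m : ℝ) + 1) * (1 / (q : ℝ) ^ 21) ≤ 3 * 2 ^ 20 * (1 / q) := by
      rw [mul_one_div, mul_one_div, div_le_div_iff₀ (by positivity) hq0]
      calc (2 * (m : ℝ) + 1) * q ≤ (3 * (2 ^ 20 * (q : ℝ) ^ 20)) * q := by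
            gcongr
            linarith
        _ = _ := by ring
    rw [e1]
    have e3 : 16 * C5 * CR * ((2 * m + 1) * (1 / (q : ℝ) ^ 21))
        ≤ 48 * C5 * CR * 2 ^ 20 * (1 / q) := by
      calc 16 * C5 * CR * ((2 * m + 1) * (1 / (q : ℝ) ^ 21))
          ≤ 16 * C5 * CR * (3 * 2 ^ 20 * (1 / q)) := by gcongr
        _ = _ := by ring
    gcongr
  have hpos : 0 < (m : ℝ) ^ 2 * √m := by positivity
  obtain ⟨X, hX⟩ : ∃ X : ℝ, X = (q : ℝ) ^ 9 / √Y + ((q : ℝ) ^ 9) ^ 2 / Y := ⟨_, rfl⟩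
  have hX0 : 0 ≤ X := by rw [hX]; positivity
  rw [← hX] at p1 ⊢
  rw [mul_add, mul_add, p1]
  have p4 : (8 * C4 * CR + 16 * (cc * C7) * 2 ^ 20 + 48 * C5 * CR * 2 ^ 20) * (X + 1 / q)
      / ((m : ℝ) ^ 2 * √m)
      = 8 * C4 * CR * X / ((m : ℝ) ^ 2 * √m) + 16 * (cc * C7) * 2 ^ 20 * (1 / q) / ((m : ℝ) ^ 2 * √m)
        + 48 * C5 * CR * 2 ^ 20 * (1 / q) / ((m : ℝ) ^ 2 * √m)
        + (8 * C4 * CR * (1 / q) + (16 * (cc * C7) * 2 ^ 20 + 48 * C5 * CR * 2 ^ 20) * X)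
          / ((m : ℝ) ^ 2 * √m) := by
    field_simp
    ring
  rw [p4]
  have p5 : 0 ≤ (8 * C4 * CR * (1 / q) + (16 * (cc * C7) * 2 ^ 20 + 48 * C5 * CR * 2 ^ 20) * X)
      / ((m : ℝ) ^ 2 * √m) := by positivity
  linarith

end MNBa

theorem t_MNB (hB : S_BRI) (hR : S_RST) (hF : S_FEW) (hM : S_MNY) (hG : S_FRG) : S_MNB :=
  fun hrad δ hδ hδ24 => MNBa.main_bound hB hR hF hM hG hrad δ hδ hδ24

end Pool.Agent.UT
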