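import Pool.Agent.UT.Tl

set_option autoImplicit false

/-!
Module MNY (MP_1af41f_co): sizes of big fringe subtrees do not cluster. Adapted from
`Pool/Agent/Lib_helper86/RT/Many.lean`.   (helper84)
-/

namespace Pool.Agent.UT

open Pool.MP_1af41f_co.CSF RT Finset

namespace MNYa

open RT.ManyAux (Np gt gt_nonneg sum_gt_nonneg choose_le Np_pos card_le)

/-- the sum of `gt` over the fringe subtrees -/
noncomputable def Gs (S : Finset ℕ) (p : ℕ) (f : Fr) : ℝ := ((fr f).map (gt S p)).sum

lemma Gs_nonneg (S : Finset ℕ) (p : ℕ) (f : Fr) : 0 ≤ Gs S p f := sum_gt_nonneg S p (fr f)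

lemma Gs_cons (S : Finset ℕ) (p : ℕ) (a b : Fr) :
    Gs S p (Fr.cons a b) = (gt S p a + Gs S p a) + Gs S p b := by
  simp [Gs, fr, add_assoc]

lemma Gs_ne {S : Finset ℕ} {p : ℕ} {f : Fr} (h : Gs S p f ≠ 0) : ∃ k ∈ S, k ≤ f.size := by
  induction f with
  | nil => simp [Gs, fr] at h
  | cons a b iha ihb =>
    have hs : (Fr.cons a b).size = 1 + a.size + b.size := rfl
    rw [Gs_cons] at h
    by_cases h1 : vs a ∈ S
    · exact ⟨vs a, h1, by rw [hs]; unfold vs; omega⟩
    · by_cases h2 : Gs S p a = 0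
      · have h3 : Gs S p b ≠ 0 := by
          intro h3
          apply h
          rw [h2, h3, gt, if_neg h1]
          simp
        obtain ⟨k, hk, hk'⟩ := ihb h3
        exact ⟨k, hk, by rw [hs]; omega⟩
      · obtain ⟨k, hk, hk'⟩ := iha h2
        exact ⟨k, hk, by rw [hs]; omega⟩

/-- at most one branch contributes -/
lemma Gs_point {S : Finset ℕ} {z : ℕ} (hS : ∀ k ∈ S, z < 2 * k) (p : ℕ) (f : Fr)
    (hf : f.size < z) :
    Gs S p f ≤ 0 ∨ ∃ q ∈ br f, Gs S p f ≤ gt S p q.1 + Gs S p q.1 := by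
  induction f with
  | nil => left; simp [Gs, fr]
  | cons a b iha ihb =>
    have hs : (Fr.cons a b).size = 1 + a.size + b.size := rfl
    rw [Gs_cons]
    by_cases h0 : gt S p a + Gs S p a = 0
    · rw [h0, zero_add]
      rcases ihb (by omega) with h | ⟨q, hq, hle⟩
      · exact Or.inl h
      · refine Or.inr ⟨(q.1, Fr.cons a q.2), ?_, hle⟩
        rw [br, List.mem_cons, List.mem_map]
        exact Or.inr ⟨q, hq, rfl⟩
    · have h1 : z < 2 * vs a := by
        by_cases h2 : vs a ∈ S
        · exact hS _ h2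
        · have h3 : Gs S p a ≠ 0 := by
            intro h3
            apply h0
            rw [h3, gt, if_neg h2]
            simp
          obtain ⟨k, hk, hk'⟩ := Gs_ne h3
          have := hS k hk
          unfold vs
          omega
      have h4 : Gs S p b = 0 := by
        by_contra h4
        obtain ⟨k, hk, hk'⟩ := Gs_ne h4
        have := hS k hk
        unfold vs at h1
        omega
      right
      refine ⟨(a, b), ?_, ?_⟩
      · rw [br]
        exact List.mem_cons_self
      · rw [h4, add_zero]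

/-- the fringe formula, as an inequality -/
lemma ET_Gs_le (hB : S_BRI) (h : IsRad rr cc) {S : Finset ℕ} {z : ℕ} (hS : ∀ k ∈ S, z < 2 * k)
    (p : ℕ) (k : ℕ) : k ≤ z → ET k (Gs S p) ≤ ∑ j ∈ Icc 1 (k - 1), υ (k - j) * ET j (gt S p) := by
  induction k using Nat.strong_induction_on with
  | _ k ih =>
    intro hkz
    rcases k with _ | k
    · simp [ET_zero]
    · refine (ET_br_le hB h (k + 1) (Gs S p) (fun a => gt S p a + Gs S p a)
        (fun a => add_nonneg (gt_nonneg S p a) (Gs_nonneg S p a))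
        (fun a _ ha => Gs_point hS p a (by unfold vs at ha; omega))).trans ?_
      rw [Nat.add_sub_cancel]
      have h1 : ∀ l ∈ Icc 1 k, τ (k + 1 - l) * ET l (fun a => gt S p a + Gs S p a)
          ≤ ∑ j ∈ Icc 1 l, τ (k + 1 - l) * υ (l - j) * ET j (gt S p) := by
        intro l hl
        rw [Finset.mem_Icc] at hl
        have h5 := ih l (by omega) (by omega)
        rw [ET_add]
        obtain ⟨i, rfl⟩ : ∃ i, l = i + 1 := ⟨l - 1, by omega⟩
        rw [Finset.sum_Icc_succ_top (by omega), Nat.sub_self, υ_zero, mul_one, mul_add]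
        rw [Nat.add_sub_cancel] at h5
        have h6 : τ (k + 1 - (i + 1)) * ET (i + 1) (Gs S p)
            ≤ ∑ j ∈ Icc 1 i, τ (k + 1 - (i + 1)) * υ (i + 1 - j) * ET j (gt S p) := by
          refine (mul_le_mul_of_nonneg_left h5 (τ_nonneg h _)).trans (le_of_eq ?_)
          rw [Finset.mul_sum]
          refine Finset.sum_congr rfl fun j _ => ?_
          ring
        linarith
      refine (Finset.sum_le_sum h1).trans (le_of_eq ?_)
      have h2 : ∑ l ∈ Icc 1 k, ∑ j ∈ Icc 1 l, τ (k + 1 - l) * υ (l - j) * ET j (gt S p)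
          = ∑ j ∈ Icc 1 k, ∑ l ∈ Icc j k, τ (k + 1 - l) * υ (l - j) * ET j (gt S p) := by
        apply Finset.sum_comm'
        intro x y
        simp only [Finset.mem_Icc]
        omega
      rw [h2]
      refine Finset.sum_congr rfl fun j hj => ?_
      rw [Finset.mem_Icc] at hj
      rw [← Finset.sum_mul]
      congr 1
      rw [υ_rec (k + 1 - j) (by omega)]
      refine Finset.sum_bij' (fun l _ => k + 1 - l) (fun i _ => k + 1 - i) ?_ ?_ ?_ ?_ ?_
      · intro l hl
        rw [Finset.mem_Icc] at hl ⊢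
        omega
      · intro i hi
        rw [Finset.mem_Icc] at hi ⊢
        omega
      · intro l hl
        rw [Finset.mem_Icc] at hl
        exact Nat.sub_sub_self (by omega)
      · intro i hi
        rw [Finset.mem_Icc] at hi
        exact Nat.sub_sub_self (by omega)
      · intro l hl
        rw [Finset.mem_Icc] at hl
        have : k + 1 - j - (k + 1 - l) = l - j := by omega
        rw [this]

/-- `∑_{j ∈ S, j < k} υ (k - j) ≤ 2 cc √|S|` -/
lemma sum_υ_le (h : IsRad rr cc) (S : Finset ℕ) (k : ℕ) :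
    ∑ j ∈ (Icc 1 (k - 1)).filter (· ∈ S), υ (k - j) ≤ 2 * cc * √(S.card) := by
  set A := (Icc 1 (k - 1)).filter (· ∈ S) with hA
  have hinj : Set.InjOn (fun j => k - j) (A : Set ℕ) := by
    intro i hi j hj hij
    simp only [hA, coe_filter, mem_Icc, Set.mem_ofPred_eq] at hi hj hij
    omega
  have h1 : ∑ j ∈ A, υ (k - j) ≤ cc * ∑ j ∈ A, 1 / √((k - j : ℕ) : ℝ) := by
    rw [Finset.mul_sum]
    refine sum_le_sum fun j hj => ?_
    rw [mul_one_div]
    refine υ_le h _ ?_
    simp only [hA, mem_filter, mem_Icc] at hj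
    omega
  have h2 : ∑ j ∈ A, 1 / √((k - j : ℕ) : ℝ) = ∑ i ∈ A.image (fun j => k - j), 1 / √(i : ℝ) :=
    (sum_image (f := fun i : ℕ => 1 / √(i : ℝ)) hinj).symm
  have h3 := sum_set_rsqrt_le (A.image (fun j => k - j)) (by
    intro i hi
    obtain ⟨j, hj, rfl⟩ := mem_image.1 hi
    simp only [hA, mem_filter, mem_Icc] at hj
    omega)
  have h4 : ((A.image (fun j => k - j)).card : ℝ) ≤ S.card := by
    have : (A.image (fun j => k - j)).card ≤ S.card :=
      card_image_le.trans (card_le_card fun x hx => (mem_filter.1 hx).2)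
    exact_mod_cast this
  have h5 : ∑ j ∈ A, 1 / √((k - j : ℕ) : ℝ) ≤ 2 * √(S.card) := by
    calc ∑ j ∈ A, 1 / √((k - j : ℕ) : ℝ)
        = ∑ i ∈ A.image (fun j => k - j), 1 / √(i : ℝ) := h2
      _ ≤ 2 * √((A.image (fun j => k - j)).card) := h3
      _ ≤ 2 * √(S.card) := by gcongr
  calc ∑ j ∈ A, υ (k - j) ≤ cc * ∑ j ∈ A, 1 / √((k - j : ℕ) : ℝ) := h1
    _ ≤ cc * (2 * √(S.card)) := mul_le_mul_of_nonneg_left h5 (cc_pos h).le
    _ = _ := by ring

lemma moment_le (hB : S_BRI) (h : IsRad rr cc) {S : Finset ℕ} {z : ℕ} (hz : 1 ≤ z) (hS : ∀ k ∈ S, z < 2 * k)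
    (p : ℕ) : ∀ k, k ≤ z → z < 2 * k →
      ET k (fun a => ((Np S a).choose p : ℝ)) ≤ (2 * cc * √(S.card)) ^ p * (3 * cc / (z * √z)) := by
  have hzpos : (0 : ℝ) < z := by exact_mod_cast hz
  have hcc := cc_pos h
  induction p with
  | zero =>
    intro k hk hk2
    simp only [Nat.choose_zero_right, Nat.cast_one, pow_zero, one_mul]
    rw [ET_one]
    have hk1 : 1 ≤ k := by omega
    refine (τ_le h k hk1).trans ?_
    have hkz : (z : ℝ) / 2 ≤ k := by
      have : (z : ℝ) ≤ 2 * k := by exact_mod_cast hk2.le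
      linarith
    have h1 : (z : ℝ) / 2 * √((z : ℝ) / 2) ≤ k * √k := by gcongr
    have h2 : (z : ℝ) * √z / 3 ≤ (z : ℝ) / 2 * √((z : ℝ) / 2) := by
      have h3 : √(z : ℝ) * (2 / 3) ≤ √((z : ℝ) / 2) := by
        apply Real.le_sqrt_of_sq_le
        rw [mul_pow, Real.sq_sqrt hzpos.le]
        nlinarith
      nlinarith
    have h4 : 0 < (z : ℝ) * √z := by positivity
    have hk0 : (0 : ℝ) < k := by linarith
    rw [div_le_div_iff₀ (by positivity) h4]
    have h5 : (z : ℝ) * √z ≤ 3 * (k * √k) := by linarith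
    calc cc * ((z : ℝ) * √z) ≤ cc * (3 * (k * √k)) := mul_le_mul_of_nonneg_left h5 hcc.le
      _ = _ := by ring
  | succ p ih =>
    intro k hk hk2
    have h1 : ET k (fun a => ((Np S a).choose (p + 1) : ℝ))
        ≤ ET k (Gs S p) :=
      ET_mono h fun a ha => choose_le hS p a (by unfold vs at ha; omega)
    refine (h1.trans (ET_Gs_le hB h hS p k hk)).trans ?_
    have h2 : ∀ j, ET j (gt S p) = if j ∈ S then ET j (fun a => ((Np S a).choose p : ℝ)) else 0 := by
      intro j
      by_cases hj : j ∈ S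
      · rw [if_pos hj]
        exact ET_congr fun a ha => by rw [gt, ha, if_pos hj]
      · rw [if_neg hj, ET_congr (Ψ := fun _ => 0 * 1) fun a ha => by rw [gt, ha, if_neg hj]; simp,
          ET_mul_left, zero_mul]
    have h3 : ∑ j ∈ Icc 1 (k - 1), υ (k - j) * ET j (gt S p)
        = ∑ j ∈ (Icc 1 (k - 1)).filter (· ∈ S),
          υ (k - j) * ET j (fun a => ((Np S a).choose p : ℝ)) := by
      rw [sum_filter]
      refine sum_congr rfl fun j _ => ?_
      rw [h2]
      split_ifs <;> simp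
    rw [h3]
    calc ∑ j ∈ (Icc 1 (k - 1)).filter (· ∈ S),
          υ (k - j) * ET j (fun a => ((Np S a).choose p : ℝ))
        ≤ ∑ j ∈ (Icc 1 (k - 1)).filter (· ∈ S),
          υ (k - j) * ((2 * cc * √(S.card)) ^ p * (3 * cc / (z * √z))) := by
          refine sum_le_sum fun j hj => mul_le_mul_of_nonneg_left (ih j ?_ ?_) (υ_nonneg h _)
          · simp only [mem_filter, mem_Icc] at hj; omega
          · exact hS j (mem_filter.1 hj).2
      _ = (∑ j ∈ (Icc 1 (k - 1)).filter (· ∈ S), υ (k - j))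
          * ((2 * cc * √(S.card)) ^ p * (3 * cc / (z * √z))) := by rw [sum_mul]
      _ ≤ (2 * cc * √(S.card)) * ((2 * cc * √(S.card)) ^ p * (3 * cc / (z * √z))) := by
          refine mul_le_mul_of_nonneg_right (sum_υ_le h S k) (by positivity)
      _ = _ := by rw [pow_succ]; ring

end MNYa

open MNYa
open RT.ManyAux (Np card_le)

/-- MNY: the sizes of big fringe subtrees do not cluster. -/
theorem t_MNY (hB : S_BRI) : S_MNY := by
  intro h p
  have hcc := cc_pos h
  refine ⟨(p.factorial : ℝ) * (4 * cc) ^ p * (6 * cc) + (2 * p : ℝ) ^ p * cc + 1, by positivity, ?_⟩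
  intro z S T hz hT hS
  have hz' : (0 : ℝ) < z := by exact_mod_cast hz
  have hT' : (1 : ℝ) ≤ T := by exact_mod_cast hT
  have hT0 : (0 : ℝ) < T := by linarith
  have hS1 : (1 : ℝ) ≤ √(S.card) := by
    rw [Real.one_le_sqrt]
    exact_mod_cast hS
  have hzz : (0 : ℝ) < z * √z := by positivity
  rcases lt_or_ge T (2 * p) with hlt | hge
  · -- trivial bound
    have h1 : ET z (fun a => ind (T ≤ ((Wset (z / 2) a) ∩ S).card)) ≤ cc / (z * √z) :=
      (ET_mono h fun a _ => ind_le_one _).trans ((ET_one z).le.trans (τ_le h z hz))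
    refine h1.trans ?_
    have hp : (0 : ℝ) < 2 * p := by
      have : 0 < 2 * p := by omega
      exact_mod_cast this
    have h2 : 1 ≤ (2 * p : ℝ) ^ p * (√(S.card) / T) ^ p := by
      rw [← mul_pow]
      refine one_le_pow₀ ?_
      rw [mul_div_assoc', le_div_iff₀ hT0]
      have h3 : (T : ℝ) ≤ 2 * p := by exact_mod_cast hlt.le
      nlinarith
    have h3 : (0 : ℝ) ≤ (√(S.card) / T) ^ p := by positivity
    have h4 : cc ≤ ((p.factorial : ℝ) * (4 * cc) ^ p * (6 * cc) + (2 * p : ℝ) ^ p * cc + 1)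
        * (√(S.card) / T) ^ p := by
      have h5 : (0 : ℝ) ≤ ((p.factorial : ℝ) * (4 * cc) ^ p * (6 * cc) + 1)
          * (√(S.card) / T) ^ p := by positivity
      have h6 : cc * 1 ≤ cc * ((2 * p : ℝ) ^ p * (√(S.card) / T) ^ p) :=
        mul_le_mul_of_nonneg_left h2 hcc.le
      linarith [h6, h5, show ((p.factorial : ℝ) * (4 * cc) ^ p * (6 * cc) + (2 * p : ℝ) ^ p * cc + 1)
        * (√(S.card) / T) ^ p = ((p.factorial : ℝ) * (4 * cc) ^ p * (6 * cc) + 1)
          * (√(S.card) / T) ^ p + cc * ((2 * p : ℝ) ^ p * (√(S.card) / T) ^ p) by ring]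
    calc cc / (z * √z) ≤ (((p.factorial : ℝ) * (4 * cc) ^ p * (6 * cc) + (2 * p : ℝ) ^ p * cc + 1)
          * (√(S.card) / T) ^ p) / (z * √z) := by gcongr
      _ = _ := by ring
  · set S' := S.filter (z / 2 < ·) with hS'
    have hSk : ∀ k ∈ S', z < 2 * k := by
      intro k hk
      have := (mem_filter.1 hk).2
      omega
    have hcard : (S'.card : ℝ) ≤ S.card := by
      exact_mod_cast Finset.card_le_card (filter_subset _ _)
    -- lower bound for the binomial coefficient
    have hch : ((T : ℝ) / 2) ^ p / p.factorial ≤ (T.choose p : ℝ) := by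
      refine le_trans ?_ (Nat.pow_le_choose p T)
      have h1 : (T : ℝ) / 2 ≤ ((T + 1 - p : ℕ) : ℝ) := by
        have h2 : T ≤ 2 * (T + 1 - p) := by omega
        have h3 : (T : ℝ) ≤ 2 * ((T + 1 - p : ℕ) : ℝ) := by exact_mod_cast h2
        linarith
      have h4 : ((T : ℝ) / 2) ^ p ≤ ((T + 1 - p : ℕ) : ℝ) ^ p := by gcongr
      exact div_le_div_of_nonneg_right h4 (by positivity)
    have hchpos : 0 < (T.choose p : ℝ) := lt_of_lt_of_le (by positivity) hch
    -- Pascal once more
    have hpas : ∀ n : ℕ, ((n + 1).choose p : ℝ) ≤ (n.choose p : ℝ) + (n.choose (p - 1) : ℝ) := by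
      intro n
      rcases p with _ | p
      · simp
      · rw [Nat.choose_succ_succ', Nat.add_sub_cancel, Nat.cast_add]
        linarith
    have hpt : ∀ a : Fr, ind (T ≤ ((Wset (z / 2) a) ∩ S).card) * (T.choose p : ℝ)
        ≤ ((Np S' a).choose p : ℝ) + ((Np S' a).choose (p - 1) : ℝ) := by
      intro a
      have hnn : (0 : ℝ) ≤ ((Np S' a).choose p : ℝ) + ((Np S' a).choose (p - 1) : ℝ) := by
        positivity
      by_cases hc : T ≤ ((Wset (z / 2) a) ∩ S).card
      · rw [ind_of hc, one_mul]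
        have h1 := hc.trans (card_le S (z / 2) a)
        rw [← hS'] at h1
        have h2 : T ≤ Np S' a + 1 := by
          refine h1.trans ?_
          split_ifs <;> omega
        have h3 : (T.choose p : ℝ) ≤ ((Np S' a + 1).choose p : ℝ) := by
          exact_mod_cast Nat.choose_le_choose p h2
        exact h3.trans (hpas _)
      · rw [ind_of_not hc, zero_mul]
        exact hnn
    have hzle : z < 2 * z := by omega
    have hm : ∀ q, ET z (fun a => ((Np S' a).choose q : ℝ)) ≤ (2 * cc * √(S.card)) ^ q * (3 * cc / (z * √z)) := by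
      intro q
      refine (moment_le hB h hz hSk q z le_rfl hzle).trans ?_
      have : √(S'.card : ℝ) ≤ √(S.card) := Real.sqrt_le_sqrt hcard
      gcongr
    have h1 : ET z (fun a => ind (T ≤ ((Wset (z / 2) a) ∩ S).card)) * (T.choose p : ℝ)
        ≤ 2 * ((2 * cc * √(S.card)) ^ p * (3 * cc / (z * √z))) := by
      calc ET z (fun a => ind (T ≤ ((Wset (z / 2) a) ∩ S).card)) * (T.choose p : ℝ)
          = ET z (fun a => (T.choose p : ℝ) * ind (T ≤ ((Wset (z / 2) a) ∩ S).card)) := by
            rw [ET_mul_left, mul_comm]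
        _ ≤ ET z (fun a => ((Np S' a).choose p : ℝ) + ((Np S' a).choose (p - 1) : ℝ)) :=
            ET_mono h fun a _ => by rw [mul_comm]; exact hpt a
        _ = ET z (fun a => ((Np S' a).choose p : ℝ)) + ET z (fun a => ((Np S' a).choose (p - 1) : ℝ)) :=
            ET_add _ _ _
        _ ≤ (2 * cc * √(S.card)) ^ p * (3 * cc / (z * √z)) + (2 * cc * √(S.card)) ^ (p - 1) * (3 * cc / (z * √z)) :=
            add_le_add (hm p) (hm (p - 1))
        _ ≤ (2 * cc * √(S.card)) ^ p * (3 * cc / (z * √z)) + (2 * cc * √(S.card)) ^ p * (3 * cc / (z * √z)) := by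
            have : (2 * cc * √(S.card)) ^ (p - 1) ≤ (2 * cc * √(S.card)) ^ p :=
              pow_le_pow_right₀ (by nlinarith [h.c_one]) (Nat.sub_le p 1)
            gcongr
        _ = _ := by ring
    have h2 : ET z (fun a => ind (T ≤ ((Wset (z / 2) a) ∩ S).card))
        ≤ 2 * ((2 * cc * √(S.card)) ^ p * (3 * cc / (z * √z))) / (((T : ℝ) / 2) ^ p / p.factorial) := by
      rw [le_div_iff₀ (by positivity)]
      refine le_trans ?_ h1
      refine mul_le_mul_of_nonneg_left hch (ET_nonneg h fun _ => ind_nonneg _)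
    refine h2.trans ?_
    have h3 : 2 * ((2 * cc * √(S.card)) ^ p * (3 * cc / (z * √z))) / (((T : ℝ) / 2) ^ p / p.factorial)
        = ((p.factorial : ℝ) * (4 * cc) ^ p * (6 * cc)) / (z * √z) * (√(S.card) / T) ^ p := by
      rw [show (4 : ℝ) = 2 * 2 by norm_num]
      simp only [div_pow, mul_pow]
      field_simp
      ring
    rw [h3]
    have h4 : (p.factorial : ℝ) * (4 * cc) ^ p * (6 * cc) ≤
        (p.factorial : ℝ) * (4 * cc) ^ p * (6 * cc) + (2 * p : ℝ) ^ p * cc + 1 := by
      have : (0 : ℝ) ≤ (2 * p : ℝ) ^ p * cc := by positivity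
      linarith
    gcongr

end Pool.Agent.UT
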