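import Pool.Agent.UT.St

set_option autoImplicit false

/-!
# Module OTT: Otter's theorem up to constants, assembly
-/

namespace Pool.Agent.UT

open Pool.MP_1af41f_co.CSF RT Finset

namespace OTTa

/-- the probability distribution -/
noncomputable def qd (r : ℝ) (n : ℕ) : ℝ := Real.exp 1 * (r ^ n * PowerSeries.coeff n As)

lemma coeff_As_zero : PowerSeries.coeff 0 As = 0 := by
  unfold As
  rw [PowerSeries.coeff_zero_X_mul]

lemma coeff_As_succ (n : ℕ) : PowerSeries.coeff (n + 1) As = Es n := by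
  unfold As
  rw [PowerSeries.coeff_succ_X_mul, PowerSeries.coeff_mk]

lemma qd_zero (r : ℝ) : qd r 0 = 0 := by
  rw [qd, coeff_As_zero, mul_zero, mul_zero]

lemma qd_succ (r : ℝ) (n : ℕ) : qd r (n + 1) = Real.exp 1 * (Es n * r ^ (n + 1)) := by
  rw [qd, coeff_As_succ, mul_comm (r ^ (n + 1))]

lemma mk_qd (r : ℝ) :
    PowerSeries.mk (qd r) = PowerSeries.C (Real.exp 1) * PowerSeries.rescale r As := by
  ext n
  rw [PowerSeries.coeff_mk, PowerSeries.coeff_C_mul, PowerSeries.coeff_rescale, qd]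

lemma coeff_pow (r : ℝ) (m n : ℕ) : PowerSeries.coeff n ((PowerSeries.mk (qd r)) ^ m) =
    Real.exp m * (r ^ n * PowerSeries.coeff n (As ^ m)) := by
  rw [mk_qd, mul_pow, ← map_pow, ← map_pow, PowerSeries.coeff_C_mul, PowerSeries.coeff_rescale,
    Real.exp_one_pow]

end OTTa

open OTTa in
theorem t_OTT (hL : S_LAG) (hR : S_RAD) (hN : S_REN) : S_OTT := by
  obtain ⟨hE, r, s, hr0, hr1, hs1, hsum, hhas⟩ := hR
  have hq0 : ∀ n, 0 ≤ qd r n := by
    intro n
    rcases n with _ | n
    · rw [qd_zero]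
    · rw [qd_succ]
      have := hE n
      have := Real.exp_pos 1
      positivity
  have hq1 : 0 < qd r 1 := by
    have h1 : qd r 1 = Real.exp 1 * (Es 0 * r ^ (0 + 1)) := qd_succ r 0
    have h2 : Es 0 = 1 := by rw [Es]
    rw [h1, h2]
    positivity
  have hqs : HasSum (qd r) 1 := by
    have h1 : HasSum (fun n => qd r (n + 1)) 1 := by
      have h2 := hhas.mul_left (Real.exp 1)
      rw [← Real.exp_add, add_neg_cancel, Real.exp_zero] at h2
      exact h2.congr_fun fun n => (qd_succ r n)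
    have h3 := (hasSum_nat_add_iff (f := qd r) 1).1 h1
    rw [Finset.sum_range_one, qd_zero, add_zero] at h3
    exact h3
  have hqe : Summable fun n => qd r n * s ^ n := by
    rw [← summable_nat_add_iff 1]
    have h1 := hsum.mul_left (Real.exp 1 * (r * s))
    refine h1.congr fun n => ?_
    rw [qd_succ, mul_pow, pow_succ, pow_succ]
    ring
  obtain ⟨C, hC1, hC⟩ := hN (qd r) s (qd_zero r) hq0 hq1 hqs hs1 hqe
  have eu : ∀ n : ℕ, r ^ n * uu n =
      ∑ m ∈ range (n + 1), RT.τ m * PowerSeries.coeff n ((PowerSeries.mk (qd r)) ^ m) := by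
    intro n
    rw [(hL n).1, Finset.mul_sum]
    refine Finset.sum_congr rfl fun m _ => ?_
    rw [coeff_pow]
    ring
  have ek : ∀ n : ℕ, r ^ n * ku n =
      ∑ m ∈ range (n + 1), RT.υ m * PowerSeries.coeff n ((PowerSeries.mk (qd r)) ^ m) := by
    intro n
    rw [(hL n).2, Finset.mul_sum]
    refine Finset.sum_congr rfl fun m _ => ?_
    rw [coeff_pow]
    ring
  have hCc : C ≤ max C (1 / r) := le_max_left _ _
  have hc0 : 0 < max C (1 / r) := by linarith
  have hC0 : 0 < C := by linarith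
  refine ⟨r, max C (1 / r), ⟨hr0, hr1.le, hC1.trans hCc, le_max_right _ _, ?_, ?_, ?_⟩⟩
  · intro k hk
    have hk0 : (0 : ℝ) < k := by exact_mod_cast hk
    rw [eu]
    refine ((hC k hk).1).trans ?_
    exact div_le_div_of_nonneg_right hCc (by positivity)
  · intro k hk
    have hk0 : (0 : ℝ) < k := by exact_mod_cast hk
    rw [eu]
    refine le_trans ?_ ((hC k hk).2.1)
    exact one_div_le_one_div_of_le (by positivity) (mul_le_mul_of_nonneg_right hCc (by positivity))
  · intro k hk
    have hk0 : (0 : ℝ) < k := by exact_mod_cast hk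
    rw [ek]
    refine ((hC k hk).2.2).trans ?_
    exact div_le_div_of_nonneg_right hCc (by positivity)

end Pool.Agent.UT
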