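import Pool.Agent.UT.St

set_option autoImplicit false

/-!
The probabilistic half: the forests rooted at a centroid which violate the hypotheses of Theorem H have
weight `o(m^(-5/2))`.
-/

namespace Pool.Agent.UT

open Pool.MP_1af41f_co.CSF RT Finset

theorem t_PRB (hR : S_RST) (hE : S_EVT) (hM' : S_MNB) : S_PRB := by
  intro hrad η hη
  obtain ⟨⟨C1, hC1, h1⟩, ⟨C2, hC2, h2⟩, evt3⟩ := hE hrad
  obtain ⟨-, fourgroups⟩ := hR hrad
  obtain ⟨δ, hδdef⟩ : ∃ δ : ℝ, δ = min (1 / 24) (min ((η / (5 * C1)) ^ 2) (η / (5 * C2))) :=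
    ⟨_, rfl⟩
  have hδ : 0 < δ := by
    rw [hδdef]
    refine lt_min (by norm_num) (lt_min (by positivity) (by positivity))
  have hδ24 : δ ≤ 1 / 24 := by rw [hδdef]; exact min_le_left _ _
  have hδ1 : C1 * √δ ≤ η / 5 := by
    have e1 : δ ≤ (η / (5 * C1)) ^ 2 := by
      rw [hδdef]; exact (min_le_right _ _).trans (min_le_left _ _)
    have e2 : √δ ≤ η / (5 * C1) := by
      rw [Real.sqrt_le_left (by positivity)]; exact e1
    calc C1 * √δ ≤ C1 * (η / (5 * C1)) := by gcongr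
      _ = η / 5 := by field_simp
  have hδ2 : C2 * δ ≤ η / 5 := by
    have e1 : δ ≤ η / (5 * C2) := by
      rw [hδdef]; exact (min_le_right _ _).trans (min_le_right _ _)
    calc C2 * δ ≤ C2 * (η / (5 * C2)) := by gcongr
      _ = η / 5 := by field_simp
  obtain ⟨C3, hC3, h3⟩ := evt3 δ hδ
  obtain ⟨C0, hC0, h0⟩ := fourgroups δ hδ
  obtain ⟨CM, hCM, hM⟩ := hM' hrad δ hδ hδ24
  obtain ⟨δ', hδ'def⟩ : ∃ δ' : ℝ, δ' = min δ (η / (5 * C3)) := ⟨_, rfl⟩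
  have hδ'0 : 0 < δ' := by rw [hδ'def]; exact lt_min hδ (by positivity)
  have hδ'δ : δ' ≤ δ := by rw [hδ'def]; exact min_le_left _ _
  have hδ3 : C3 * δ' ≤ η / 5 := by
    have e1 : δ' ≤ η / (5 * C3) := by rw [hδ'def]; exact min_le_right _ _
    calc C3 * δ' ≤ C3 * (η / (5 * C3)) := by gcongr
      _ = η / 5 := by field_simp
  obtain ⟨K, hK⟩ : ∃ K : ℕ, 1 / (4 * δ) ≤ (K : ℝ) := exists_nat_ge _
  have hK1 : 1 ≤ (K : ℝ) * (4 * δ) := by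
    rw [div_le_iff₀ (by positivity)] at hK; exact hK
  have hsδ' : 0 < √δ' := Real.sqrt_pos.2 hδ'0
  obtain ⟨Kt, hKt⟩ : ∃ Kt : ℝ, Kt = C0 + C1 + C2 + C3 + CM * (2 / √δ' + 4 / δ' + 1) := ⟨_, rfl⟩
  have hKt0 : 0 < Kt := by rw [hKt]; positivity
  obtain ⟨q0, hq0⟩ : ∃ q0 : ℕ, 3 * (K : ℝ) + 4 + 4 / δ' + 5 * Kt / η ≤ q0 := exists_nat_ge _
  refine ⟨q0 ^ 20, ?_⟩
  intro m hm
  obtain ⟨q, hqm, hmq⟩ := exists_q m
  have hqq : q0 ≤ q := by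
    by_contra hcon
    have e1 : q + 1 ≤ q0 := by omega
    have e2 : (q + 1) ^ 20 ≤ q0 ^ 20 := Nat.pow_le_pow_left e1 20
    exact absurd (lt_of_lt_of_le hmq (e2.trans hm)) (lt_irrefl m)
  have hqm' : (q : ℝ) ^ 20 ≤ m := by exact_mod_cast hqm
  have hmq' : (m : ℝ) < ((q : ℝ) + 1) ^ 20 := by exact_mod_cast hmq
  have hqq' : (q0 : ℝ) ≤ q := by exact_mod_cast hqq
  clear hqm hmq hqq hm
  obtain ⟨N, hN⟩ : ∃ N : ℕ, (N : ℝ) = (q : ℝ) ^ 14 := ⟨q ^ 14, by push_cast; rfl⟩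
  obtain ⟨T, hT⟩ : ∃ T : ℕ, (T : ℝ) = (q : ℝ) ^ 8 := ⟨q ^ 8, by push_cast; rfl⟩
  obtain ⟨M, hMn⟩ : ∃ M : ℕ, (M : ℝ) = (q : ℝ) ^ 9 := ⟨q ^ 9, by push_cast; rfl⟩
  have hKn : (0 : ℝ) ≤ K := by positivity
  have p1 : 0 < 4 / δ' := by positivity
  have p2 : 0 < 5 * Kt / η := by positivity
  have hq4 : (4 : ℝ) ≤ q := by linarith
  have hq3K : 3 * (K : ℝ) ≤ q := by linarith
  have hqδ : 4 / δ' ≤ q := by linarith
  have hqK : 5 * Kt / η ≤ q := by linarith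
  have hq1 : (1 : ℝ) ≤ q := by linarith
  have hq00 : (0 : ℝ) < q := by linarith
  obtain ⟨x, hx⟩ : ∃ x : ℝ, x = (q : ℝ) := ⟨_, rfl⟩
  rw [← hx] at hqm' hmq' hN hT hMn hq4 hq3K hqδ hqK hq1 hq00
  have hxm : x ≤ m := by
    calc x = x ^ 1 := (pow_one x).symm
      _ ≤ x ^ 20 := pow_le_pow_right₀ hq1 (by norm_num)
      _ ≤ m := hqm'
  have hm0 : (0 : ℝ) < m := by linarith
  have hm1 : 1 ≤ m := by
    have : (1 : ℝ) ≤ m := by linarith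
    exact_mod_cast this
  have hN1 : 1 ≤ N := by
    have : (1 : ℝ) ≤ N := by rw [hN]; exact one_le_pow₀ hq1
    exact_mod_cast this
  have hT1 : 1 ≤ T := by
    have : (1 : ℝ) ≤ T := by rw [hT]; exact one_le_pow₀ hq1
    exact_mod_cast this
  have hm2 : (m : ℝ) ≤ 2 ^ 20 * x ^ 20 := by
    calc (m : ℝ) ≤ (x + 1) ^ 20 := hmq'.le
      _ ≤ (2 * x) ^ 20 := by gcongr; linarith
      _ = _ := by ring
  have hKT : K * (2 * T + 1) ≤ M + 1 := by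
    have e1 : ((K * (2 * T + 1) : ℕ) : ℝ) ≤ ((M + 1 : ℕ) : ℝ) := by
      push_cast
      rw [hT, hMn]
      have e2 : 1 ≤ x ^ 8 := one_le_pow₀ hq1
      calc (K : ℝ) * (2 * x ^ 8 + 1) ≤ K * (3 * x ^ 8) := by gcongr; linarith
        _ = (3 * K) * x ^ 8 := by ring
        _ ≤ x * x ^ 8 := by gcongr
        _ ≤ x ^ 9 + 1 := by nlinarith [pow_pos hq00 9]
    exact_mod_cast e1
  have hTM : 4 * T < M + 1 := by
    have e1 : ((4 * T : ℕ) : ℝ) < ((M + 1 : ℕ) : ℝ) := by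
      push_cast
      rw [hT, hMn]
      calc 4 * x ^ 8 ≤ x * x ^ 8 := by gcongr
        _ < x ^ 9 + 1 := by nlinarith [pow_pos hq00 9]
    exact_mod_cast e1
  obtain ⟨Y, hY⟩ : ∃ Y : ℕ, Y = ⌊δ' * m / 2⌋₊ := ⟨_, rfl⟩
  have hYup : (Y : ℝ) ≤ δ' * m / 2 := by
    rw [hY]; exact Nat.floor_le (by positivity)
  have hδm : 4 ≤ δ' * m := by
    rw [div_le_iff₀ hδ'0] at hqδ
    nlinarith
  have hYlow : δ' * m / 4 ≤ (Y : ℝ) := by
    have e1 : δ' * m / 2 - 1 < (Y : ℝ) := by rw [hY]; exact Nat.sub_one_lt_floor _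
    linarith
  have hY1 : 1 ≤ Y := by
    have : (1 : ℝ) ≤ Y := by linarith
    exact_mod_cast this
  have hY6 : (Y : ℝ) ≤ m / 6 := by nlinarith
  have hsm : 0 < √(m : ℝ) := Real.sqrt_pos.2 hm0
  have hms : √(m : ℝ) * √(m : ℝ) = m := Real.mul_self_sqrt hm0.le
  -- the inclusion
  have hincl : E m (fun f => ind ((∀ a ∈ f.toList, 2 * vs a ≤ m + 1) ∧ ¬ HypH f))
      ≤ E m (fun f => ind (∀ a ∈ f.toList, (vs a : ℝ) ≤ (1 / 3 - δ) * m)) +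
        (E m (fun f => ind (∃ p ∈ br f, (1 / 2 - δ) * m < (vs p.1 : ℝ) ∧ 2 * vs p.1 ≤ m + 1
          ∧ AllLe (vs p.1) p.2)) +
        (E m (fun f => ind (∃ p ∈ br f, |(vs p.1 : ℝ) - m / 3| ≤ δ * m ∧ AllLe (vs p.1) p.2)) +
        (E m (fun f => ind (∃ p ∈ br f, ∃ q ∈ br p.2, (m : ℝ) / 4 ≤ vs p.1 ∧
          (vs p.1 : ℝ) ≤ (1 / 2 - δ) * m ∧ (vs p.1 : ℝ) - δ' * m ≤ vs q.1 ∧ vs q.1 ≤ vs p.1)) +
        E m (fun f => ind (∃ p ∈ br f, Rng δ m (vs p.1) ∧ AllLe (vs p.1) p.2 ∧ (Ev4 Y M p.1 ∨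
          Ev7 N N p.2 ∨ ∃ ρ ∈ range (2 * m + 1), Ev5 T (Ico (ρ - N) ρ) p.1 ∨
          ((Bset N p.2).card ≤ N ∧ Ev5 T ((Bset N p.2).image (fun b => ρ - b)) p.1))))))) := by
    rw [← E_add, ← E_add, ← E_add, ← E_add]
    apply E_mono hrad
    intro f hf
    by_cases hbad : (∀ a ∈ f.toList, 2 * vs a ≤ m + 1) ∧ ¬ HypH f
    · rw [ind_of hbad]
      have e1 := main_incl δ δ' hδ hδ24 hδ'0 hδ'δ m Y M T N N K hm1 hY1 hYup hT1 hK1 hKT hTM f hf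
        hbad.1 hbad.2
      refine le_trans (ind_of e1).ge ?_
      refine (ind_or_le _ _).trans (add_le_add le_rfl ?_)
      refine (ind_or_le _ _).trans (add_le_add le_rfl ?_)
      refine (ind_or_le _ _).trans (add_le_add le_rfl ?_)
      exact ind_or_le _ _
    · rw [ind_of_not hbad]
      have n1 := ind_nonneg (∀ a ∈ f.toList, (vs a : ℝ) ≤ (1 / 3 - δ) * m)
      have n2 := ind_nonneg (∃ p ∈ br f, (1 / 2 - δ) * m < (vs p.1 : ℝ) ∧ 2 * vs p.1 ≤ m + 1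
          ∧ AllLe (vs p.1) p.2)
      have n3 := ind_nonneg (∃ p ∈ br f, |(vs p.1 : ℝ) - m / 3| ≤ δ * m ∧ AllLe (vs p.1) p.2)
      have n4 := ind_nonneg (∃ p ∈ br f, ∃ q ∈ br p.2, (m : ℝ) / 4 ≤ vs p.1 ∧
          (vs p.1 : ℝ) ≤ (1 / 2 - δ) * m ∧ (vs p.1 : ℝ) - δ' * m ≤ vs q.1 ∧ vs q.1 ≤ vs p.1)
      have n5 := ind_nonneg (∃ p ∈ br f, Rng δ m (vs p.1) ∧ AllLe (vs p.1) p.2 ∧ (Ev4 Y M p.1 ∨
          Ev7 N N p.2 ∨ ∃ ρ ∈ range (2 * m + 1), Ev5 T (Ico (ρ - N) ρ) p.1 ∨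
          ((Bset N p.2).card ≤ N ∧ Ev5 T ((Bset N p.2).image (fun b => ρ - b)) p.1)))
      linarith
  refine hincl.trans ?_
  have b0 := h0 m hm1
  have b1 := h1 δ hδ (by linarith) m hm1
  have b2 := h2 δ hδ (by linarith) m hm1
  have b3 := h3 δ' hδ'0 (by linarith) m hm1
  have b4 := hM m N T M Y x hm1 hN1 hT1 hY1 hY6 hq1 hm2 hN hT hMn
  obtain ⟨A, hA⟩ : ∃ A : ℝ, A = 1 / ((m : ℝ) ^ 2 * √m) := ⟨_, rfl⟩
  have hA0 : 0 < A := by rw [hA]; positivity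
  have hx10 : x ≤ √(m : ℝ) := by
    have e1 : x ^ 2 ≤ m := (pow_le_pow_right₀ hq1 (by norm_num)).trans hqm'
    exact Real.le_sqrt_of_sq_le e1
  have cube : ∀ C : ℝ, 0 ≤ C → C / (m : ℝ) ^ 3 ≤ (C / x) * A := by
    intro C hC
    have e1 : C / (m : ℝ) ^ 3 = (C / √m) * A := by
      have e2 : (m : ℝ) ^ 3 = √m * ((m : ℝ) ^ 2 * √m) := by
        linear_combination -(m : ℝ) ^ 2 * hms
      rw [e2, hA]
      field_simp
    rw [e1]
    apply mul_le_mul_of_nonneg_right _ hA0.le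
    exact div_le_div_of_nonneg_left hC hq00 hx10
  have c0 := cube C0 hC0.le
  have c1 := cube C1 hC1.le
  have c2 := cube C2 hC2.le
  have c3 := cube C3 hC3.le
  have d1 : C1 * √δ / ((m : ℝ) ^ 2 * √m) ≤ η / 5 * A := by
    rw [hA, mul_one_div]
    exact div_le_div_of_nonneg_right hδ1 (by positivity)
  have d2 : C2 * δ / ((m : ℝ) ^ 2 * √m) ≤ η / 5 * A := by
    rw [hA, mul_one_div]
    exact div_le_div_of_nonneg_right hδ2 (by positivity)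
  have d3 : C3 * δ' / ((m : ℝ) ^ 2 * √m) ≤ η / 5 * A := by
    rw [hA, mul_one_div]
    exact div_le_div_of_nonneg_right hδ3 (by positivity)
  have d4 : CM * (x ^ 9 / √Y + (x ^ 9) ^ 2 / Y + 1 / x) / ((m : ℝ) ^ 2 * √m)
      ≤ (CM * (2 / √δ' + 4 / δ' + 1) / x) * A := by
    have hx20 : δ' * x ^ 20 / 4 ≤ (Y : ℝ) := by
      have : δ' * x ^ 20 ≤ δ' * m := mul_le_mul_of_nonneg_left hqm' hδ'0.le
      linarith
    have hsY : √δ' * x ^ 10 / 2 ≤ √(Y : ℝ) := by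
      apply Real.le_sqrt_of_sq_le
      calc (√δ' * x ^ 10 / 2) ^ 2 = (√δ') ^ 2 * x ^ 20 / 4 := by ring
        _ = δ' * x ^ 20 / 4 := by rw [Real.sq_sqrt hδ'0.le]
        _ ≤ Y := hx20
    have e1 : x ^ 9 / √Y ≤ 2 / √δ' / x := by
      have e2 : 0 < √δ' * x ^ 10 / 2 := by positivity
      calc x ^ 9 / √Y ≤ x ^ 9 / (√δ' * x ^ 10 / 2) :=
            div_le_div_of_nonneg_left (by positivity) e2 hsY
        _ = 2 / √δ' / x := by field_simp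
    have e3 : (x ^ 9) ^ 2 / Y ≤ 4 / δ' / x := by
      have e4 : 0 < δ' * x ^ 20 / 4 := by positivity
      calc (x ^ 9) ^ 2 / (Y : ℝ) ≤ (x ^ 9) ^ 2 / (δ' * x ^ 20 / 4) :=
            div_le_div_of_nonneg_left (by positivity) e4 hx20
        _ = 4 / δ' / x / x := by field_simp
        _ ≤ 4 / δ' / x := div_le_self (by positivity) hq1
    have e5 : CM * (x ^ 9 / √Y + (x ^ 9) ^ 2 / Y + 1 / x)
        ≤ CM * (2 / √δ' + 4 / δ' + 1) / x := by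
      calc CM * (x ^ 9 / √Y + (x ^ 9) ^ 2 / Y + 1 / x)
          ≤ CM * (2 / √δ' / x + 4 / δ' / x + 1 / x) := by gcongr
        _ = _ := by ring
    rw [hA, mul_one_div]
    exact div_le_div_of_nonneg_right e5 (by positivity)
  have f1 : Kt / x ≤ η / 5 := by
    rw [div_le_iff₀ hη] at hqK
    rw [div_le_iff₀ hq00]
    linarith
  have f2 : Kt / x = C0 / x + C1 / x + C2 / x + C3 / x
      + CM * (2 / √δ' + 4 / δ' + 1) / x := by
    rw [hKt]; ring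
  have f3 : η / ((m : ℝ) ^ 2 * √m) = η * A := by rw [hA]; ring
  rw [f3]
  have f4 : (C0 / x + C1 / x + C2 / x + C3 / x + CM * (2 / √δ' + 4 / δ' + 1) / x) * A
      ≤ η / 5 * A := by
    rw [← f2]
    exact mul_le_mul_of_nonneg_right f1 hA0.le
  have f5 : (C0 / x + C1 / x + C2 / x + C3 / x + CM * (2 / √δ' + 4 / δ' + 1) / x) * A
      = C0 / x * A + C1 / x * A + C2 / x * A + C3 / x * A
        + CM * (2 / √δ' + 4 / δ' + 1) / x * A := by ring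
  have f6 : 0 ≤ η / 5 * A := by positivity
  linarith

end Pool.Agent.UT
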