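import Pool.Agent.UT.St

set_option autoImplicit false

/-!
# RAD: the radius of convergence
-/

namespace Pool.Agent.UT

open Pool.MP_1af41f_co.CSF RT Finset

namespace RADa

lemma uu_le (hC : S_CAT) (d : ℕ) : uu d ≤ 4 ^ d := by
  rcases d with _ | d
  · simp [uu_zero]
  · rw [uu_succ]
    exact (hC d).trans (Nat.pow_le_pow_right (by norm_num) (Nat.le_succ d))

lemma bb_nonneg (k : ℕ) : 0 ≤ bb k := Finset.sum_nonneg fun d _ => by positivity

lemma Es_nonneg (n : ℕ) : 0 ≤ Es n := by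
  induction n using Nat.strong_induction_on with
  | _ n ih =>
    rcases n with _ | n
    · rw [Es]; exact zero_le_one
    · rw [Es]
      refine div_nonneg (Finset.sum_nonneg fun j _ => mul_nonneg (bb_nonneg _) (ih j j.2))
        (by positivity)

lemma bb_le (hC : S_CAT) (k : ℕ) : bb k ≤ (k : ℝ) ^ 2 * 2 ^ k := by
  unfold bb
  have h1 : ∀ d ∈ k.properDivisors, (d : ℝ) * uu d ≤ k * 2 ^ k := by
    intro d hd
    rw [Nat.mem_properDivisors] at hd
    obtain ⟨⟨e, he⟩, hlt⟩ := hd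
    have he2 : 2 ≤ e := by
      by_contra hc
      have h0 : e = 0 ∨ e = 1 := by omega
      rcases h0 with rfl | rfl
      · omega
      · omega
    have h2 : 2 * d ≤ k := by
      rw [he, mul_comm 2 d]
      exact Nat.mul_le_mul_left d he2
    have h3 : uu d ≤ 2 ^ k := by
      calc uu d ≤ 4 ^ d := uu_le hC d
        _ = 2 ^ (2 * d) := by rw [pow_mul]; norm_num
        _ ≤ 2 ^ k := Nat.pow_le_pow_right (by norm_num) h2
    have h4 : (uu d : ℝ) ≤ 2 ^ k := by exact_mod_cast h3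
    have h5 : (d : ℝ) ≤ k := by exact_mod_cast hlt.le
    exact mul_le_mul h5 h4 (by positivity) (by positivity)
  have h2 : k.properDivisors.card ≤ k := by
    have h3 : k.properDivisors ⊆ range k :=
      fun d hd => Finset.mem_range.2 (Nat.mem_properDivisors.1 hd).2
    have h4 := Finset.card_le_card h3
    rwa [Finset.card_range] at h4
  have h3 := Finset.sum_le_card_nsmul _ _ _ h1
  have h4 : (k.properDivisors.card : ℝ) ≤ k := by exact_mod_cast h2
  rw [nsmul_eq_mul] at h3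
  refine h3.trans ?_
  calc (k.properDivisors.card : ℝ) * (k * 2 ^ k) ≤ k * (k * 2 ^ k) :=
        mul_le_mul_of_nonneg_right h4 (by positivity)
    _ = (k : ℝ) ^ 2 * 2 ^ k := by ring

lemma summable_bb (hC : S_CAT) {x : ℝ} (hx0 : 0 ≤ x) (hx : x < 1 / 2) :
    Summable (fun k => bb k * x ^ k) := by
  have h1 : Summable (fun k : ℕ => (k : ℝ) ^ 2 * (2 * x) ^ k) :=
    summable_pow_mul_geometric_of_norm_lt_one 2
      (by rw [Real.norm_of_nonneg (by linarith)]; linarith)
  refine Summable.of_nonneg_of_le (fun k => mul_nonneg (bb_nonneg k) (pow_nonneg hx0 k))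
    (fun k => ?_) h1
  calc bb k * x ^ k ≤ ((k : ℝ) ^ 2 * 2 ^ k) * x ^ k :=
        mul_le_mul_of_nonneg_right (bb_le hC k) (pow_nonneg hx0 k)
    _ = (k : ℝ) ^ 2 * (2 * x) ^ k := by rw [mul_pow]; ring

lemma bounded (hC : S_CAT) {x : ℝ} (hx0 : 0 ≤ x) (hx : x < 1 / 2) :
    ∃ M : ℝ, 0 ≤ M ∧ ∀ n, Es n * x ^ n ≤ M := by
  have hs := summable_bb hC hx0 hx
  have hb0 : ∀ k, 0 ≤ bb k * x ^ k := fun k => mul_nonneg (bb_nonneg k) (pow_nonneg hx0 k)
  obtain ⟨N, hN⟩ := exists_nat_ge (∑' k, bb k * x ^ k)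
  have hpos : ∀ j, 0 ≤ Es j * x ^ j := fun j => mul_nonneg (Es_nonneg j) (pow_nonneg hx0 j)
  have hM : 0 ≤ ∑ j ∈ range (N + 1), Es j * x ^ j := Finset.sum_nonneg fun j _ => hpos j
  refine ⟨∑ j ∈ range (N + 1), Es j * x ^ j, hM, fun n => ?_⟩
  induction n using Nat.strong_induction_on with
  | _ n ih =>
    by_cases hn : n ≤ N
    · exact Finset.single_le_sum (f := fun j => Es j * x ^ j) (fun j _ => hpos j)
        (Finset.mem_range.2 (by omega))
    obtain ⟨m, rfl⟩ : ∃ m, n = m + 1 := ⟨n - 1, by omega⟩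
    set M := ∑ j ∈ range (N + 1), Es j * x ^ j with hMd
    have h1 : ((m : ℝ) + 1) * (Es (m + 1) * x ^ (m + 1)) =
        ∑ j : Fin (m + 1), (bb (m + 1 - j) * x ^ (m + 1 - (j : ℕ))) * (Es j * x ^ (j : ℕ)) := by
      have h2 : ((m : ℝ) + 1) * Es (m + 1) = ∑ j : Fin (m + 1), bb (m + 1 - j) * Es j := by
        rw [Es]
        have : ((m : ℝ) + 1) ≠ 0 := by positivity
        field_simp
      rw [← mul_assoc, h2, Finset.sum_mul]
      refine Finset.sum_congr rfl fun j _ => ?_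
      have h3 : x ^ (m + 1) = x ^ (m + 1 - (j : ℕ)) * x ^ (j : ℕ) := by
        rw [← pow_add]
        congr 1
        have := j.2
        omega
      rw [h3]; ring
    have h2 : ∑ j : Fin (m + 1), (bb (m + 1 - j) * x ^ (m + 1 - (j : ℕ))) *
        (Es j * x ^ (j : ℕ)) ≤ ∑ j : Fin (m + 1), (bb (m + 1 - j) * x ^ (m + 1 - (j : ℕ))) * M :=
      Finset.sum_le_sum fun j _ => mul_le_mul_of_nonneg_left (ih j j.2) (hb0 _)
    have h3 : ∑ j : Fin (m + 1), bb (m + 1 - j) * x ^ (m + 1 - (j : ℕ)) ≤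
        ∑' k, bb k * x ^ k := by
      rw [Fin.sum_univ_eq_sum_range (fun j => bb (m + 1 - j) * x ^ (m + 1 - j)) (m + 1)]
      have h4 : ∑ j ∈ range (m + 1), bb (m + 1 - j) * x ^ (m + 1 - j) =
          ∑ k ∈ (range (m + 1)).image (fun j => m + 1 - j), bb k * x ^ k := by
        rw [Finset.sum_image]
        intro a ha b hb h
        have ha' := Finset.mem_range.1 (Finset.mem_coe.1 ha)
        have hb' := Finset.mem_range.1 (Finset.mem_coe.1 hb)
        simp only at h
        omega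
      rw [h4]
      exact hs.sum_le_tsum _ fun k _ => hb0 k
    rw [← Finset.sum_mul] at h2
    have h4 : ((m : ℝ) + 1) * (Es (m + 1) * x ^ (m + 1)) ≤ ((m : ℝ) + 1) * M := by
      rw [h1]
      refine h2.trans (mul_le_mul_of_nonneg_right ?_ hM)
      refine (h3.trans hN).trans ?_
      have : N ≤ m + 1 := by omega
      exact_mod_cast this
    exact le_of_mul_le_mul_left h4 (by positivity)

lemma summable_Es (hC : S_CAT) {x : ℝ} (hx0 : 0 ≤ x) (hx : x < 1 / 2) :
    Summable (fun n => Es n * x ^ n) := by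
  obtain ⟨M, hM0, hM⟩ := bounded hC (x := (x + 1 / 2) / 2) (by linarith) (by linarith)
  have hy : 0 < (x + 1 / 2) / 2 := by linarith
  set y := (x + 1 / 2) / 2 with hyd
  have hq0 : 0 ≤ x / y := div_nonneg hx0 hy.le
  have hq : x / y < 1 := by rw [div_lt_one hy]; linarith
  have h1 : Summable (fun n : ℕ => M * (x / y) ^ n) :=
    (summable_geometric_of_lt_one hq0 hq).mul_left M
  refine Summable.of_nonneg_of_le (fun n => mul_nonneg (Es_nonneg n) (pow_nonneg hx0 n))
    (fun n => ?_) h1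
  have h2 : x ^ n = y ^ n * (x / y) ^ n := by
    rw [← mul_pow, mul_div_cancel₀ _ hy.ne']
  rw [h2, ← mul_assoc]
  exact mul_le_mul_of_nonneg_right (hM n) (pow_nonneg hq0 n)

end RADa

open RADa in
theorem t_RAD (hC : S_CAT) : S_RAD := by
  refine ⟨Es_nonneg, ?_⟩
  have hs' : ∀ x : ℝ, 0 ≤ x → x < 1 / 2 → Summable (fun n => Es n * x ^ (n + 1)) := by
    intro x hx0 hx
    have h1 := (summable_Es hC hx0 hx).mul_right x
    refine h1.congr fun n => ?_
    rw [pow_succ]; ring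
  have hg : ContinuousOn (fun x : ℝ => ∑' n, Es n * x ^ (n + 1)) (Set.Icc 0 (2 / 5)) := by
    refine continuousOn_tsum (u := fun n => Es n * (2 / 5 : ℝ) ^ (n + 1))
      (fun n => by fun_prop) (hs' (2 / 5) (by norm_num) (by norm_num)) ?_
    intro n x hx
    rw [Real.norm_of_nonneg (mul_nonneg (Es_nonneg n) (pow_nonneg hx.1 _))]
    exact mul_le_mul_of_nonneg_left (pow_le_pow_left₀ hx.1 hx.2 _) (Es_nonneg n)
  have h0 : (∑' n, Es n * (0 : ℝ) ^ (n + 1)) = 0 := by simp
  have h1 : Real.exp (-1) ≤ ∑' n, Es n * (2 / 5 : ℝ) ^ (n + 1) := by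
    have h2 := (hs' (2 / 5) (by norm_num) (by norm_num)).sum_le_tsum {0}
      (fun n _ => mul_nonneg (Es_nonneg n) (by positivity))
    rw [Finset.sum_singleton, Es] at h2
    have h3 := Real.exp_neg_one_lt_d9
    norm_num at h2 h3 ⊢
    linarith
  have hmem : Real.exp (-1) ∈ Set.Icc (∑' n, Es n * (0 : ℝ) ^ (n + 1))
      (∑' n, Es n * (2 / 5 : ℝ) ^ (n + 1)) := ⟨by rw [h0]; positivity, h1⟩
  obtain ⟨r, hr, hgr⟩ := intermediate_value_Icc (by norm_num : (0 : ℝ) ≤ 2 / 5) hg hmem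
  have hr0 : 0 < r := by
    rcases hr.1.lt_or_eq with h | h
    · exact h
    exfalso
    rw [← h] at hgr
    have h2 : (0 : ℝ) = Real.exp (-1) := h0.symm.trans hgr
    exact (Real.exp_pos (-1)).ne h2
  have hr2 := hr.2
  refine ⟨r, 9 / 8, hr0, by linarith, by norm_num,
    summable_Es hC (by positivity) (by linarith), ?_⟩
  have h2 := (hs' r hr0.le (by linarith)).hasSum
  have h3 : (∑' n, Es n * r ^ (n + 1)) = Real.exp (-1) := hgr
  rwa [h3] at h2

end Pool.Agent.UT
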