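import Pool.Agent.UT.St

set_option autoImplicit false

/-!
# Module REN: renewal estimates for a distribution with exponential tails
-/

namespace Pool.Agent.UT

open Finset

namespace RENa

/-- the coefficients of the powers -/
noncomputable def Q (q : ℕ → ℝ) (m n : ℕ) : ℝ := PowerSeries.coeff n ((PowerSeries.mk q) ^ m)

/-- the renewal sequence -/
noncomputable def W (q : ℕ → ℝ) (n : ℕ) : ℝ := ∑ m ∈ range (n + 1), Q q m n

/-- the tails -/
noncomputable def R (q : ℕ → ℝ) (i : ℕ) : ℝ := 1 - ∑ k ∈ range (i + 1), q k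

variable {q : ℕ → ℝ}

lemma Q_zero (n : ℕ) : Q q 0 n = if n = 0 then 1 else 0 := by
  rw [Q, pow_zero, PowerSeries.coeff_one]

lemma Q_succ (m n : ℕ) : Q q (m + 1) n = ∑ p ∈ antidiagonal n, q p.1 * Q q m p.2 := by
  rw [Q, pow_succ', PowerSeries.coeff_mul]
  refine sum_congr rfl fun p _ => ?_
  rw [PowerSeries.coeff_mk, Q]

lemma Q_nonneg (hq : ∀ n, 0 ≤ q n) (m n : ℕ) : 0 ≤ Q q m n := by
  induction m generalizing n with
  | zero => rw [Q_zero]; split_ifs <;> norm_num
  | succ m ih => rw [Q_succ]; exact sum_nonneg fun p _ => mul_nonneg (hq _) (ih _)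

lemma Q_lt (h0 : q 0 = 0) (m n : ℕ) (h : n < m) : Q q m n = 0 := by
  induction m generalizing n with
  | zero => omega
  | succ m ih =>
    rw [Q_succ]
    refine sum_eq_zero fun p hp => ?_
    rw [HasAntidiagonal.mem_antidiagonal] at hp
    rcases Nat.eq_zero_or_pos p.1 with h1 | h1
    · rw [h1, h0, zero_mul]
    · rw [ih p.2 (by omega), mul_zero]

lemma W_eq (h0 : q 0 = 0) (n N : ℕ) (h : n + 1 ≤ N) : ∑ m ∈ range N, Q q m n = W q n := by
  unfold W
  symm
  refine sum_subset (range_subset_range.2 h) fun m _ hm => Q_lt h0 m n ?_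
  rw [mem_range] at hm
  omega

lemma W_zero : W q 0 = 1 := by simp [W, Q_zero]

lemma W_nonneg (hq : ∀ n, 0 ≤ q n) (n : ℕ) : 0 ≤ W q n :=
  sum_nonneg fun _ _ => Q_nonneg hq _ _

lemma W_rec (h0 : q 0 = 0) (n : ℕ) :
    W q (n + 1) = ∑ p ∈ antidiagonal n, q (p.1 + 1) * W q p.2 := by
  rw [W, sum_range_succ', Q_zero, if_neg (Nat.succ_ne_zero n), add_zero]
  have h1 : ∀ m, Q q (m + 1) (n + 1) = ∑ p ∈ antidiagonal n, q (p.1 + 1) * Q q m p.2 := by
    intro m
    rw [Q_succ, Finset.Nat.sum_antidiagonal_succ]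
    rw [h0, zero_mul, zero_add]
  rw [sum_congr rfl fun m _ => h1 m, sum_comm]
  refine sum_congr rfl fun p hp => ?_
  rw [HasAntidiagonal.mem_antidiagonal] at hp
  rw [← mul_sum, W_eq h0 p.2 (n + 1) (by omega)]

lemma sum_le_one (hq : ∀ n, 0 ≤ q n) (hs : HasSum q 1) (s : Finset ℕ) : ∑ i ∈ s, q i ≤ 1 :=
  sum_le_hasSum s (fun i _ => hq i) hs

lemma W_le_one (h0 : q 0 = 0) (hq : ∀ n, 0 ≤ q n) (hs : HasSum q 1) (n : ℕ) : W q n ≤ 1 := by
  induction n using Nat.strong_induction_on with
  | _ n ih =>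
    rcases n with _ | n
    · rw [W_zero]
    · rw [W_rec h0]
      calc ∑ p ∈ antidiagonal n, q (p.1 + 1) * W q p.2 ≤ ∑ p ∈ antidiagonal n, q (p.1 + 1) := by
            refine sum_le_sum fun p hp => ?_
            rw [HasAntidiagonal.mem_antidiagonal] at hp
            exact mul_le_of_le_one_right (hq _) (ih p.2 (by omega))
        _ = ∑ i ∈ range (n + 1), q (i + 1) := by
            rw [Finset.Nat.sum_antidiagonal_eq_sum_range_succ (fun i _ => q (i + 1))]
        _ ≤ ∑ i ∈ range (n + 2), q i := by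
            rw [sum_range_succ' _ (n + 1)]
            linarith [hq 0]
        _ ≤ 1 := sum_le_one hq hs _

lemma R_succ (i : ℕ) : R q (i + 1) = R q i - q (i + 1) := by
  unfold R
  rw [sum_range_succ _ (i + 1)]
  ring

lemma R_zero (h0 : q 0 = 0) : R q 0 = 1 := by simp [R, h0]

lemma R_nonneg (hq : ∀ n, 0 ≤ q n) (hs : HasSum q 1) (i : ℕ) : 0 ≤ R q i := by
  unfold R
  linarith [sum_le_one hq hs (range (i + 1))]

lemma R_le_one (hq : ∀ n, 0 ≤ q n) (i : ℕ) : R q i ≤ 1 := by
  unfold R
  linarith [sum_nonneg fun (k : ℕ) (_ : k ∈ range (i + 1)) => hq k]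

/-- the renewal identity -/
lemma renew (h0 : q 0 = 0) (n : ℕ) : ∑ p ∈ antidiagonal n, W q p.2 * R q p.1 = 1 := by
  induction n with
  | zero => simp [W_zero, R_zero h0]
  | succ n ih =>
    rw [Finset.Nat.sum_antidiagonal_succ, R_zero h0, mul_one, W_rec h0, ← sum_add_distrib]
    simp only [R_succ]
    rw [← ih]
    exact sum_congr rfl fun p _ => by ring

lemma W_mono (h0 : q 0 = 0) (hq : ∀ n, 0 ≤ q n) (n : ℕ) : q 1 * W q n ≤ W q (n + 1) := by
  rw [W_rec h0]
  have h1 : ((0, n) : ℕ × ℕ) ∈ antidiagonal n := by simp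
  exact single_le_sum (f := fun p : ℕ × ℕ => q (p.1 + 1) * W q p.2)
    (fun p _ => mul_nonneg (hq _) (W_nonneg hq _)) h1

lemma W_mono' (h0 : q 0 = 0) (hq : ∀ n, 0 ≤ q n) (n i : ℕ) :
    q 1 ^ i * W q n ≤ W q (n + i) := by
  induction i with
  | zero => simp
  | succ i ih =>
    calc q 1 ^ (i + 1) * W q n = q 1 * (q 1 ^ i * W q n) := by ring
      _ ≤ q 1 * W q (n + i) := mul_le_mul_of_nonneg_left ih (hq 1)
      _ ≤ W q (n + i + 1) := W_mono h0 hq _

lemma R_tail (hs : HasSum q 1) (i : ℕ) : R q i = ∑' k, q (k + (i + 1)) := by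
  have h := hs.summable.sum_add_tsum_nat_add (i + 1)
  rw [hs.tsum_eq] at h
  unfold R
  linarith

lemma R_summable (hq : ∀ n, 0 ≤ q n) (hs : HasSum q 1) {s : ℝ} (h1 : 1 < s)
    (hS : Summable (fun n => q n * s ^ n)) : Summable (R q) := by
  have hs0 : 0 < s := by linarith
  have hG : ∀ i, R q i ≤ (∑' n, q n * s ^ n) * (s⁻¹) ^ i := by
    intro i
    have hS' : Summable (fun k => q (k + (i + 1)) * s ^ (k + (i + 1))) :=
      (summable_nat_add_iff (i + 1)).2 hS
    have h2 : ∑' k, q (k + (i + 1)) * s ^ (k + (i + 1)) ≤ ∑' n, q n * s ^ n := by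
      rw [← hS.sum_add_tsum_nat_add (i + 1)]
      exact le_add_of_nonneg_left (sum_nonneg fun k _ => mul_nonneg (hq k) (by positivity))
    have h3 : R q i ≤ ∑' k, (q (k + (i + 1)) * s ^ (k + (i + 1))) * (s⁻¹) ^ i := by
      rw [R_tail hs]
      refine Summable.tsum_le_tsum (fun k => ?_) ((summable_nat_add_iff (i + 1)).2 hs.summable)
        (hS'.mul_right _)
      rw [mul_assoc]
      refine le_mul_of_one_le_right (hq _) ?_
      rw [show k + (i + 1) = (k + 1) + i by ring, pow_add, mul_assoc, ← mul_pow,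
        mul_inv_cancel₀ hs0.ne', one_pow, mul_one]
      exact one_le_pow₀ h1.le
    rw [tsum_mul_right] at h3
    exact h3.trans (mul_le_mul_of_nonneg_right h2 (by positivity))
  refine Summable.of_nonneg_of_le (fun i => R_nonneg hq hs i) hG ?_
  exact (summable_geometric_of_lt_one (by positivity) (inv_lt_one_of_one_lt₀ h1)).mul_left _

lemma W_lower (h0 : q 0 = 0) (hq : ∀ n, 0 ≤ q n) (hq1 : 0 < q 1) (hs : HasSum q 1) {s : ℝ}
    (h1 : 1 < s) (hS : Summable (fun n => q n * s ^ n)) :
    ∃ c : ℝ, 0 < c ∧ ∀ n, c ≤ W q n := by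
  have hR := R_summable hq hs h1 hS
  have ht := tendsto_sum_nat_add (R q)
  obtain ⟨K, hK⟩ := (ht.eventually (gt_mem_nhds (show (0 : ℝ) < 1 / 2 by norm_num))).exists
  have hq1' : q 1 ≤ 1 := by
    have := sum_le_one hq hs {1}
    rwa [sum_singleton] at this
  have hpos : 0 < q 1 ^ K := pow_pos hq1 K
  refine ⟨q 1 ^ K / (2 * (K + 1)), by positivity, fun n => ?_⟩
  have key : (1 : ℝ) ≤ K * (W q n / q 1 ^ K) + 1 / 2 := by
    have hterm : ∀ p ∈ antidiagonal n, W q p.2 * R q p.1 ≤
        if p.1 < K then W q n / q 1 ^ K else R q p.1 := by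
      intro p hp
      rw [HasAntidiagonal.mem_antidiagonal] at hp
      split_ifs with hlt
      · have h2 : q 1 ^ K * W q p.2 ≤ W q n := by
          have h3 := W_mono' h0 hq p.2 p.1
          rw [add_comm p.2 p.1, hp] at h3
          refine le_trans (mul_le_mul_of_nonneg_right ?_ (W_nonneg hq _)) h3
          exact pow_le_pow_of_le_one (hq 1) hq1' hlt.le
        calc W q p.2 * R q p.1 ≤ W q p.2 * 1 :=
              mul_le_mul_of_nonneg_left (R_le_one hq _) (W_nonneg hq _)
          _ ≤ W q n / q 1 ^ K := by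
              rw [le_div_iff₀ hpos]
              linarith
      · exact mul_le_of_le_one_left (R_nonneg hq hs _) (W_le_one h0 hq hs _)
    have hWK : 0 ≤ W q n / q 1 ^ K := div_nonneg (W_nonneg hq n) hpos.le
    calc (1 : ℝ) = ∑ p ∈ antidiagonal n, W q p.2 * R q p.1 := (renew h0 n).symm
      _ ≤ ∑ p ∈ antidiagonal n, (if p.1 < K then W q n / q 1 ^ K else R q p.1) :=
          sum_le_sum hterm
      _ = ∑ i ∈ range (n + 1), (if i < K then W q n / q 1 ^ K else R q i) := by
          rw [Finset.Nat.sum_antidiagonal_eq_sum_range_succ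
            (fun i _ => if i < K then W q n / q 1 ^ K else R q i)]
      _ ≤ ∑ i ∈ range (K + (n + 1)), (if i < K then W q n / q 1 ^ K else R q i) := by
          refine sum_le_sum_of_subset_of_nonneg (range_subset_range.2 (by omega)) fun i _ _ => ?_
          split_ifs
          · exact hWK
          · exact R_nonneg hq hs i
      _ = K * (W q n / q 1 ^ K) + ∑ i ∈ range (n + 1), R q (i + K) := by
          rw [sum_range_add]
          congr 1
          · rw [sum_congr rfl (g := fun _ => W q n / q 1 ^ K) fun i hi => if_pos (mem_range.1 hi),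
              sum_const, card_range, nsmul_eq_mul]
          · refine sum_congr rfl fun i _ => ?_
            rw [if_neg (by omega), add_comm]
      _ ≤ K * (W q n / q 1 ^ K) + 1 / 2 := by
          refine add_le_add le_rfl (le_trans ?_ hK.le)
          exact Summable.sum_le_tsum _ (fun i _ => R_nonneg hq hs _)
            ((summable_nat_add_iff K).2 hR)
  rw [div_le_iff₀ (by positivity)]
  have h2 : (K : ℝ) * (W q n / q 1 ^ K) = K * W q n / q 1 ^ K := by ring
  rw [h2] at key
  have h3 : 1 / 2 ≤ K * W q n / q 1 ^ K := by linarith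
  rw [le_div_iff₀ hpos] at h3
  have := W_nonneg hq n
  nlinarith

lemma Q_exp (hq : ∀ n, 0 ≤ q n) {s G : ℝ} (hs : 0 < s)
    (hS : Summable (fun n => q n * s ^ n)) (hG : ∑' n, q n * s ^ n ≤ G) (m n : ℕ) :
    Q q m n * s ^ n ≤ G ^ m := by
  have hG0 : 0 ≤ G := le_trans (tsum_nonneg fun n => mul_nonneg (hq n) (by positivity)) hG
  induction m generalizing n with
  | zero =>
    rw [Q_zero, pow_zero]
    split_ifs with h
    · simp [h]
    · simp
  | succ m ih =>
    rw [Q_succ, sum_mul]
    calc ∑ p ∈ antidiagonal n, q p.1 * Q q m p.2 * s ^ n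
        ≤ ∑ p ∈ antidiagonal n, (q p.1 * s ^ p.1) * G ^ m := by
          refine sum_le_sum fun p hp => ?_
          rw [HasAntidiagonal.mem_antidiagonal] at hp
          rw [← hp, pow_add]
          calc q p.1 * Q q m p.2 * (s ^ p.1 * s ^ p.2) =
              (q p.1 * s ^ p.1) * (Q q m p.2 * s ^ p.2) := by ring
            _ ≤ _ := mul_le_mul_of_nonneg_left (ih p.2) (mul_nonneg (hq _) (by positivity))
      _ = (∑ i ∈ range (n + 1), q i * s ^ i) * G ^ m := by
          rw [sum_mul, Finset.Nat.sum_antidiagonal_eq_sum_range_succ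
            (fun i _ => (q i * s ^ i) * G ^ m)]
      _ ≤ G * G ^ m := by
          refine mul_le_mul_of_nonneg_right (le_trans ?_ hG) (by positivity)
          exact hS.sum_le_tsum _ fun i _ => mul_nonneg (hq i) (by positivity)
      _ = G ^ (m + 1) := by ring

lemma decay {a : ℝ} (ha : 0 < a) {n : ℕ} (hn : 1 ≤ n) :
    ((n : ℝ) + 1) * Real.exp (-(a * n)) ≤ 6 * Real.exp a / a ^ 3 / (n * √n) := by
  have hn0 : (0 : ℝ) < n := by exact_mod_cast hn
  have hsq : √(n : ℝ) ≤ n + 1 := by
    have h1 : √(n : ℝ) * √(n : ℝ) = n := Real.mul_self_sqrt hn0.le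
    have h2 : 0 ≤ √(n : ℝ) := Real.sqrt_nonneg _
    nlinarith
  have hs0 : 0 < √(n : ℝ) := Real.sqrt_pos.2 hn0
  have h3 := Real.pow_div_factorial_le_exp (a * ((n : ℝ) + 1)) (by positivity) 3
  have h4 : Real.exp (a * ((n : ℝ) + 1)) = Real.exp a * Real.exp (a * n) := by
    rw [← Real.exp_add]
    congr 1
    ring
  rw [h4] at h3
  have h5 : ((Nat.factorial 3 : ℕ) : ℝ) = 6 := by norm_num [Nat.factorial]
  rw [h5, div_le_iff₀ (by norm_num)] at h3
  rw [le_div_iff₀ (by positivity), le_div_iff₀ (by positivity), Real.exp_neg]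
  have h6 : ((n : ℝ) + 1) * (Real.exp (a * n))⁻¹ * (n * √n) * a ^ 3 =
      ((n : ℝ) + 1) * (n * √n) * a ^ 3 * (Real.exp (a * n))⁻¹ := by ring
  rw [h6, ← div_eq_mul_inv, div_le_iff₀ (Real.exp_pos _)]
  have h7 : (n : ℝ) * √n ≤ (n + 1) * (n + 1) :=
    mul_le_mul (by linarith) hsq hs0.le (by positivity)
  calc ((n : ℝ) + 1) * (n * √n) * a ^ 3 ≤ ((n : ℝ) + 1) * ((n + 1) * (n + 1)) * a ^ 3 := by
        gcongr
    _ = (a * (n + 1)) ^ 3 := by ring
    _ ≤ Real.exp a * Real.exp (a * n) * 6 := h3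
    _ = 6 * Real.exp a * Real.exp (a * n) := by ring

end RENa

open RENa in
theorem t_REN : S_REN := by
  intro q s h0 hq hq1 hs h1 hS
  obtain ⟨c, hc, hW⟩ := W_lower h0 hq hq1 hs h1 hS
  have hs0 : 0 < s := by linarith
  set G : ℝ := ∑' n, q n * s ^ n + 2 with hG
  have hG1 : 1 < G := by
    have : 0 ≤ ∑' n, q n * s ^ n := tsum_nonneg fun n => mul_nonneg (hq n) (by positivity)
    linarith
  have hlG : 0 < Real.log G := Real.log_pos hG1
  have hls : 0 < Real.log s := Real.log_pos h1
  set κ : ℝ := Real.log s / (2 * Real.log G) with hκ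
  have hκ0 : 0 < κ := by positivity
  set a : ℝ := Real.log s / 2 with ha
  have ha0 : 0 < a := by positivity
  set D : ℝ := 6 * Real.exp a / a ^ 3 with hD
  have hD0 : 0 < D := by positivity
  -- small `m`
  have hsmall : ∀ m n : ℕ, (m : ℝ) ≤ κ * n → Q q m n ≤ Real.exp (-(a * n)) := by
    intro m n hmn
    have h2 := Q_exp hq hs0 hS (G := G) (by linarith) m n
    have h3 : G ^ m ≤ Real.exp (a * n) := by
      have hGe : G ^ m = Real.exp (m * Real.log G) := by
        rw [Real.exp_nat_mul, Real.exp_log (show 0 < G by linarith)]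
      rw [hGe, Real.exp_le_exp]
      calc (m : ℝ) * Real.log G ≤ κ * n * Real.log G :=
            mul_le_mul_of_nonneg_right hmn hlG.le
        _ = a * n := by
            rw [hκ, ha]
            field_simp
    have h4 : s ^ n = Real.exp (a * n) * Real.exp (a * n) := by
      have hse : s ^ n = Real.exp (n * Real.log s) := by
        rw [Real.exp_nat_mul, Real.exp_log hs0]
      rw [← Real.exp_add, hse, ha]
      congr 1
      ring
    rw [h4] at h2
    rw [Real.exp_neg, ← one_div, le_div_iff₀ (Real.exp_pos _)]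
    have h5 : (Q q m n * Real.exp (a * n)) * Real.exp (a * n) ≤ 1 * Real.exp (a * n) := by
      rw [mul_assoc, one_mul]
      exact h2.trans h3
    exact le_of_mul_le_mul_right h5 (Real.exp_pos _)
  refine ⟨1 + 1 / (κ * √κ) + 1 / √κ + D + 3 / c, ?_, fun n hn => ?_⟩
  · have : 0 ≤ 1 / (κ * √κ) + 1 / √κ + D + 3 / c := by positivity
    linarith
  have hn0 : (0 : ℝ) < n := by exact_mod_cast hn
  have hsn : 0 < √(n : ℝ) := Real.sqrt_pos.2 hn0
  have hW1 := W_le_one h0 hq hs n
  have hdec := decay ha0 hn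
  have hsn1 : (1 : ℝ) ≤ n := by exact_mod_cast hn
  refine ⟨?_, ?_, ?_⟩
  · have hterm : ∀ m ∈ range (n + 1), RT.τ m * PowerSeries.coeff n ((PowerSeries.mk q) ^ m) ≤
        1 / (κ * √κ) / (n * √n) * Q q m n + Real.exp (-(a * n)) := by
      intro m _
      have hQ := Q_nonneg hq m n
      change RT.τ m * Q q m n ≤ _
      rcases le_or_gt (m : ℝ) (κ * n) with hm | hm
      · have h2 := hsmall m n hm
        have h3 : RT.τ m ≤ 1 := by
          have := RT.τ_sum_le {m}
          rwa [sum_singleton] at this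
        have h4 : RT.τ m * Q q m n ≤ Q q m n := mul_le_of_le_one_left hQ h3
        have h5 : 0 ≤ 1 / (κ * √κ) / (n * √n) * Q q m n := by positivity
        linarith
      · have hm0 : 0 < (m : ℝ) := lt_trans (by positivity) hm
        have hm1 : 1 ≤ m := by exact_mod_cast hm0
        have h3 : RT.τ m ≤ 1 / (κ * √κ) / (n * √n) := by
          refine (RT.τ_le m hm1).trans ?_
          rw [div_div]
          refine one_div_le_one_div_of_le (by positivity) ?_
          have h4 : √(κ * n) ≤ √m := Real.sqrt_le_sqrt hm.le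
          rw [Real.sqrt_mul hκ0.le] at h4
          calc κ * √κ * (n * √n) = (κ * n) * (√κ * √n) := by ring
            _ ≤ m * √m := mul_le_mul hm.le h4 (by positivity) hm0.le
        have h5 := mul_le_mul_of_nonneg_right h3 hQ
        have := Real.exp_pos (-(a * n))
        linarith
    calc ∑ m ∈ range (n + 1), RT.τ m * PowerSeries.coeff n ((PowerSeries.mk q) ^ m)
        ≤ ∑ m ∈ range (n + 1), (1 / (κ * √κ) / (n * √n) * Q q m n + Real.exp (-(a * n))) :=
          sum_le_sum hterm
      _ = 1 / (κ * √κ) / (n * √n) * W q n + ((n : ℝ) + 1) * Real.exp (-(a * n)) := by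
          rw [sum_add_distrib, ← mul_sum, sum_const, card_range, nsmul_eq_mul, W]
          push_cast
          ring
      _ ≤ 1 / (κ * √κ) / (n * √n) * 1 + D / (n * √n) :=
          add_le_add (mul_le_mul_of_nonneg_left hW1 (by positivity)) hdec
      _ = (1 / (κ * √κ) + D) / (n * √n) := by ring
      _ ≤ (1 + 1 / (κ * √κ) + 1 / √κ + D + 3 / c) / (n * √n) := by
          have : 0 ≤ 1 / √κ + 3 / c := by positivity
          refine div_le_div_of_nonneg_right ?_ (by positivity)
          linarith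
  · have hterm : ∀ m ∈ range (n + 1), 1 / (3 * (n * √n)) * Q q m n ≤
        RT.τ m * PowerSeries.coeff n ((PowerSeries.mk q) ^ m) := by
      intro m hm
      rw [mem_range] at hm
      change _ ≤ RT.τ m * Q q m n
      rcases Nat.eq_zero_or_pos m with h2 | h2
      · rw [h2, Q_zero, if_neg (by omega), mul_zero, mul_zero]
      · refine mul_le_mul_of_nonneg_right (le_trans ?_ (RT.τ_ge m h2)) (Q_nonneg hq m n)
        have hm0 : (0 : ℝ) < m := by exact_mod_cast h2
        have hmn : (m : ℝ) ≤ n := by exact_mod_cast Nat.lt_succ_iff.1 hm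
        have h3 : √(m : ℝ) ≤ √n := Real.sqrt_le_sqrt hmn
        have h4 : 0 < √(m : ℝ) := Real.sqrt_pos.2 hm0
        gcongr
    calc 1 / ((1 + 1 / (κ * √κ) + 1 / √κ + D + 3 / c) * (n * √n))
        ≤ 1 / ((3 / c) * (n * √n)) := by
          have : 0 ≤ 1 / (κ * √κ) + 1 / √κ + D := by positivity
          gcongr
          linarith
      _ = 1 / (3 * (n * √n)) * c := by
          field_simp
      _ ≤ 1 / (3 * (n * √n)) * W q n := mul_le_mul_of_nonneg_left (hW n) (by positivity)
      _ = ∑ m ∈ range (n + 1), 1 / (3 * (n * √n)) * Q q m n := by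
          rw [← mul_sum, W]
      _ ≤ _ := sum_le_sum hterm
  · have hterm : ∀ m ∈ range (n + 1), RT.υ m * PowerSeries.coeff n ((PowerSeries.mk q) ^ m) ≤
        1 / √κ / √n * Q q m n + Real.exp (-(a * n)) := by
      intro m _
      have hQ := Q_nonneg hq m n
      change RT.υ m * Q q m n ≤ _
      rcases le_or_gt (m : ℝ) (κ * n) with hm | hm
      · have h2 := hsmall m n hm
        have h4 : RT.υ m * Q q m n ≤ Q q m n := mul_le_of_le_one_left hQ (RT.υ_le_one m)
        have h5 : 0 ≤ 1 / √κ / √n * Q q m n := by positivity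
        linarith
      · have hm0 : 0 < (m : ℝ) := lt_trans (by positivity) hm
        have hm1 : 1 ≤ m := by exact_mod_cast hm0
        have h3 : RT.υ m ≤ 1 / √κ / √n := by
          refine (RT.υ_le m hm1).trans ?_
          rw [div_div]
          refine one_div_le_one_div_of_le (by positivity) ?_
          rw [← Real.sqrt_mul hκ0.le]
          exact Real.sqrt_le_sqrt hm.le
        have h5 := mul_le_mul_of_nonneg_right h3 hQ
        have := Real.exp_pos (-(a * n))
        linarith
    have hdec2 : D / (n * √n) ≤ D / √n := by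
      refine div_le_div_of_nonneg_left hD0.le hsn ?_
      exact le_mul_of_one_le_left hsn.le hsn1
    calc ∑ m ∈ range (n + 1), RT.υ m * PowerSeries.coeff n ((PowerSeries.mk q) ^ m)
        ≤ ∑ m ∈ range (n + 1), (1 / √κ / √n * Q q m n + Real.exp (-(a * n))) :=
          sum_le_sum hterm
      _ = 1 / √κ / √n * W q n + ((n : ℝ) + 1) * Real.exp (-(a * n)) := by
          rw [sum_add_distrib, ← mul_sum, sum_const, card_range, nsmul_eq_mul, W]
          push_cast
          ring
      _ ≤ 1 / √κ / √n * 1 + D / √n :=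
          add_le_add (mul_le_mul_of_nonneg_left hW1 (by positivity)) (hdec.trans hdec2)
      _ = (1 / √κ + D) / √n := by ring
      _ ≤ (1 + 1 / (κ * √κ) + 1 / √κ + D + 3 / c) / √n := by
          have : 0 ≤ 1 / (κ * √κ) + 3 / c := by positivity
          refine div_le_div_of_nonneg_right ?_ (by positivity)
          linarith

end Pool.Agent.UT
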