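import Pool.Agent.UT.Tl

set_option autoImplicit false

/-!
Module RST (forests without a big branch), adapted from `Pool/Agent/Lib_helper86/RT/Restr.lean`.
-/

namespace Pool.Agent.UT

open Pool.MP_1af41f_co.CSF RT Finset

namespace RSTa

lemma F_nonneg (h : IsRad rr cc) (k : ℕ) : 0 ≤ E k (fun _ => 1) :=
  E_nonneg h fun _ => zero_le_one

/-- if `a ≤ k + 1` -/
lemma F_le' (h : IsRad rr cc) (k : ℕ) {a : ℝ} (ha : 0 < a) (hk : a ≤ (k : ℝ) + 1) :
    E k (fun _ => 1) ≤ cc ^ 2 * (1 / (a * √a)) := by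
  refine (E_one_le h k).trans ?_
  rw [mul_one_div]
  apply div_le_div_of_nonneg_left (by positivity) (by positivity)
  exact mul_le_mul hk (Real.sqrt_le_sqrt hk) (Real.sqrt_nonneg _) (by linarith)

/-- forests with a branch of size in (m/2, y] -/
lemma partI (hB : S_BRI) (hr : IsRad rr cc) (m y : ℕ) (hy : y < m) :
    E m (fun f => ind (∃ p ∈ br f, m < 2 * vs p.1 ∧ vs p.1 ≤ y)) ≤
      9 * cc ^ 3 / (m * √m * √((m : ℝ) - y)) := by
  have hcc := cc_pos hr
  have hm0 : (0 : ℝ) < m := by exact_mod_cast (by omega : 0 < m)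
  have hsm : 0 < √(m : ℝ) := Real.sqrt_pos.mpr hm0
  refine (E_br_ind hB hr m (fun a _ => m < 2 * vs a ∧ vs a ≤ y)).trans ?_
  have h1 : ∀ k ∈ Icc 1 m, ET k (fun a => E (m - k) (fun _ => ind (m < 2 * vs a ∧ vs a ≤ y))) ≤
      (3 * cc ^ 3 / (m * √m)) *
        (ind (k ≤ y) * (1 / (((m - k + 1 : ℕ) : ℝ) * √((m - k + 1 : ℕ) : ℝ)))) := by
    intro k hk
    have hk' := Finset.mem_Icc.mp hk
    have e1 : ET k (fun a => E (m - k) (fun _ => ind (m < 2 * vs a ∧ vs a ≤ y))) =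
        (ind (m < 2 * k ∧ k ≤ y) * E (m - k) (fun _ => 1)) * τ k := by
      rw [← ET_one k, ← ET_mul_left]
      apply ET_congr
      intro a ha
      rw [E_const, ha, mul_one]
    rw [e1]
    by_cases hc : m < 2 * k ∧ k ≤ y
    · rw [ind_of hc, ind_of hc.2, one_mul, one_mul]
      have h2 := E_one_le hr (m - k)
      have h3 := τ_le hr k hk'.1
      have hk0 : (0 : ℝ) < k := by exact_mod_cast hk'.1
      have h4 : cc / ((k : ℝ) * √k) ≤ cc * (3 / (m * √m)) := by
        rw [div_eq_mul_one_div]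
        refine mul_le_mul_of_nonneg_left ?_ hcc.le
        rw [div_le_div_iff₀ (by positivity) (by positivity)]
        have hzk : (m : ℝ) ≤ 2 * k := by exact_mod_cast (by omega : m ≤ 2 * k)
        have hs : √(m : ℝ) ≤ √2 * √(k : ℝ) := by
          rw [← Real.sqrt_mul (by norm_num)]
          exact Real.sqrt_le_sqrt hzk
        have hs2 : √(2 : ℝ) ≤ 3 / 2 := by
          rw [Real.sqrt_le_left (by norm_num)]; norm_num
        calc 1 * ((m : ℝ) * √m) ≤ (2 * k) * (√2 * √(k : ℝ)) := by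
              rw [one_mul]; gcongr
          _ ≤ (2 * k) * ((3 / 2) * √(k : ℝ)) := by gcongr
          _ = 3 * (k * √k) := by ring
      have e5 : ((m - k : ℕ) : ℝ) + 1 = ((m - k + 1 : ℕ) : ℝ) := by push_cast; ring
      rw [e5] at h2
      calc E (m - k) (fun _ => 1) * τ k
          ≤ (cc ^ 2 / (((m - k + 1 : ℕ) : ℝ) * √((m - k + 1 : ℕ) : ℝ))) *
            (cc * (3 / (m * √m))) := mul_le_mul h2 (h3.trans h4) (τ_nonneg hr _) (by positivity)
        _ = _ := by ring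
    · rw [ind_of_not hc, zero_mul, zero_mul]
      have := ind_nonneg (k ≤ y)
      positivity
  refine (Finset.sum_le_sum h1).trans ?_
  rw [← Finset.mul_sum]
  have h2 : ∑ k ∈ Icc 1 m, ind (k ≤ y) * (1 / (((m - k + 1 : ℕ) : ℝ) * √((m - k + 1 : ℕ) : ℝ))) ≤
      3 / √((m : ℝ) - y) := by
    rw [← Finset.sum_filter_add_sum_filter_not (Icc 1 m) (fun k => k ≤ y)]
    have e2 : ∑ k ∈ (Icc 1 m).filter (fun k => ¬ k ≤ y),
        ind (k ≤ y) * (1 / (((m - k + 1 : ℕ) : ℝ) * √((m - k + 1 : ℕ) : ℝ))) = 0 := by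
      apply Finset.sum_eq_zero
      intro k hk
      rw [ind_of_not (Finset.mem_filter.mp hk).2, zero_mul]
    rw [e2, add_zero]
    have e3 : ∑ k ∈ (Icc 1 m).filter (fun k => k ≤ y),
        ind (k ≤ y) * (1 / (((m - k + 1 : ℕ) : ℝ) * √((m - k + 1 : ℕ) : ℝ))) =
        ∑ j ∈ ((Icc 1 m).filter (fun k => k ≤ y)).image (fun k => m - k + 1),
          1 / ((j : ℝ) * √j) := by
      rw [Finset.sum_image]
      · apply Finset.sum_congr rfl
        intro k hk
        rw [ind_of (Finset.mem_filter.mp hk).2, one_mul]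
      · intro k hk l hl hkl
        have hk' := Finset.mem_filter.mp (Finset.mem_coe.mp hk)
        have hl' := Finset.mem_filter.mp (Finset.mem_coe.mp hl)
        rw [Finset.mem_Icc] at hk' hl'
        simp only at hkl
        omega
    rw [e3]
    have e4 : ∑ j ∈ ((Icc 1 m).filter (fun k => k ≤ y)).image (fun k => m - k + 1),
          1 / ((j : ℝ) * √j) ≤ ∑ j ∈ Ico (m - y) (m + 1), 1 / ((j : ℝ) * √j) := by
      apply Finset.sum_le_sum_of_subset_of_nonneg
      · intro j hj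
        obtain ⟨k, hk, rfl⟩ := Finset.mem_image.mp hj
        have hk' := Finset.mem_filter.mp hk
        rw [Finset.mem_Icc] at hk'
        rw [Finset.mem_Ico]
        omega
      · intro j _ _
        positivity
    refine e4.trans ?_
    have e5 := sum_tail_le (m - y) (m + 1) (by omega)
    have e6 : ((m - y : ℕ) : ℝ) = (m : ℝ) - y := by
      push_cast [Nat.cast_sub hy.le]; ring
    rw [e6] at e5
    exact e5
  have hmy : (0 : ℝ) < (m : ℝ) - y := by
    have : (y : ℝ) < m := by exact_mod_cast hy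
    linarith
  calc 3 * cc ^ 3 / (m * √m) * ∑ k ∈ Icc 1 m,
        ind (k ≤ y) * (1 / (((m - k + 1 : ℕ) : ℝ) * √((m - k + 1 : ℕ) : ℝ)))
      ≤ 3 * cc ^ 3 / (m * √m) * (3 / √((m : ℝ) - y)) :=
        mul_le_mul_of_nonneg_left h2 (by positivity)
    _ = 9 * cc ^ 3 / (m * √m * √((m : ℝ) - y)) := by
        rw [div_mul_div_comm]; ring

/-- forests with a balanced split -/
lemma partII (hB : S_BRI) (hr : IsRad rr cc) (m : ℕ) (hm : 1 ≤ m) :
    E m (fun f => ind (∃ p ∈ splits f, m ≤ 3 * p.1.size ∧ 3 * p.1.size ≤ 2 * m)) ≤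
      54 * cc ^ 4 / (m : ℝ) ^ 2 := by
  have hcc := cc_pos hr
  have hm0 : (0 : ℝ) < m := by exact_mod_cast hm
  have hm1 : (1 : ℝ) ≤ m := by exact_mod_cast hm
  refine (E_splits_ind hB hr m (fun g _ => m ≤ 3 * g.size ∧ 3 * g.size ≤ 2 * m)).trans ?_
  have h1 : ∀ k ∈ range (m + 1), E k (fun g => E (m - k)
      (fun _ => ind (m ≤ 3 * g.size ∧ 3 * g.size ≤ 2 * m))) ≤ 27 * cc ^ 4 / (m : ℝ) ^ 3 := by
    intro k hk
    have hk' := Finset.mem_range.mp hk
    have e1 : E k (fun g => E (m - k) (fun _ => ind (m ≤ 3 * g.size ∧ 3 * g.size ≤ 2 * m))) =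
        (ind (m ≤ 3 * k ∧ 3 * k ≤ 2 * m) * E (m - k) (fun _ => 1)) * E k (fun _ => 1) := by
      rw [← E_mul_left]
      apply E_congr
      intro g hg
      rw [E_const, hg, mul_one]
    rw [e1]
    by_cases hc : m ≤ 3 * k ∧ 3 * k ≤ 2 * m
    · rw [ind_of hc, one_mul]
      have hmk : ((m - k : ℕ) : ℝ) = (m : ℝ) - k := by
        push_cast [Nat.cast_sub (by omega : k ≤ m)]; ring
      have hk1 : (m : ℝ) ≤ 3 * k := by exact_mod_cast hc.1
      have hk2 : 3 * (k : ℝ) ≤ 2 * m := by exact_mod_cast hc.2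
      have hm3 : (0 : ℝ) < m / 3 := by positivity
      have h2 := F_le' hr k hm3 (by linarith)
      have h3 := F_le' hr (m - k) hm3 (by rw [hmk]; linarith)
      calc E (m - k) (fun _ => 1) * E k (fun _ => 1)
          ≤ (cc ^ 2 * (1 / ((m : ℝ) / 3 * √((m : ℝ) / 3)))) *
            (cc ^ 2 * (1 / ((m : ℝ) / 3 * √((m : ℝ) / 3)))) :=
            mul_le_mul h3 h2 (F_nonneg hr _) (by positivity)
        _ = cc ^ 4 / (((m : ℝ) / 3) ^ 2 * (√((m : ℝ) / 3) * √((m : ℝ) / 3))) := by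
            field_simp
        _ = cc ^ 4 / (((m : ℝ) / 3) ^ 2 * ((m : ℝ) / 3)) := by
            rw [Real.mul_self_sqrt hm3.le]
        _ = 27 * cc ^ 4 / (m : ℝ) ^ 3 := by
            field_simp
            norm_num
    · rw [ind_of_not hc, zero_mul, zero_mul]; positivity
  refine (Finset.sum_le_sum h1).trans ?_
  rw [Finset.sum_const, Finset.card_range, nsmul_eq_mul]
  push_cast
  calc ((m : ℝ) + 1) * (27 * cc ^ 4 / (m : ℝ) ^ 3)
      ≤ (2 * m) * (27 * cc ^ 4 / (m : ℝ) ^ 3) := by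
        apply mul_le_mul_of_nonneg_right _ (by positivity)
        linarith
    _ = 54 * cc ^ 4 / (m : ℝ) ^ 2 := by
        field_simp
        norm_num

theorem restr (hB : S_BRI) (hr : IsRad rr cc) : ∃ C : ℝ, 0 < C ∧ ∀ m y : ℕ, y < m →
    E m (fun f => ind (AllLe y f)) ≤ C / (m * √m * √((m : ℝ) - y)) := by
  have hcc := cc_pos hr
  refine ⟨9 * cc ^ 3 + 54 * cc ^ 4, by positivity, ?_⟩
  intro m y hy
  have hm : 1 ≤ m := by omega
  have hm0 : (0 : ℝ) < m := by exact_mod_cast hm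
  have hmy : (0 : ℝ) < (m : ℝ) - y := by
    have : (y : ℝ) < m := by exact_mod_cast hy
    linarith
  have hp : ∀ f : Fr, f.size = m → ind (AllLe y f) ≤
      ind (∃ p ∈ br f, m < 2 * vs p.1 ∧ vs p.1 ≤ y) +
      ind (∃ p ∈ splits f, m ≤ 3 * p.1.size ∧ 3 * p.1.size ≤ 2 * m) := by
    intro f hf
    refine le_trans (ind_mono fun h1 => ?_) (ind_or_le _ _)
    by_cases h2 : ∀ b ∈ f.toList, 2 * vs b ≤ m
    · obtain ⟨g, h, hmem, hc⟩ := Restr97.split_third m hm f 0 (by omega) (by omega) h2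
      exact Or.inr ⟨(g, h), hmem, by show m ≤ 3 * g.size ∧ 3 * g.size ≤ 2 * m; omega⟩
    · push Not at h2
      obtain ⟨b, hb, hmb⟩ := h2
      obtain ⟨p, hp, hpb⟩ := Restr97.exists_br hb
      exact Or.inl ⟨p, hp, by rw [hpb]; exact ⟨hmb, h1 b hb⟩⟩
  refine (E_mono hr hp).trans ?_
  rw [E_add, add_div]
  apply add_le_add (partI hB hr m y hy)
  refine (partII hB hr m hm).trans ?_
  apply div_le_div_of_nonneg_left (by positivity)
    (by have := Real.sqrt_pos.mpr hm0; have := Real.sqrt_pos.mpr hmy; positivity)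
  have h1 : √((m : ℝ) - y) ≤ √(m : ℝ) := Real.sqrt_le_sqrt (by
    have : (0 : ℝ) ≤ y := Nat.cast_nonneg y
    linarith)
  calc (m : ℝ) * √m * √((m : ℝ) - y) ≤ (m : ℝ) * √m * √m := by gcongr
    _ = (m : ℝ) ^ 2 := by rw [mul_assoc, Real.mul_self_sqrt hm0.le]; ring

/-- one can choose `j` groups of size at least `t`, the last one being the rest -/
def K (t : ℝ) : ℕ → Fr → Prop
  | 0, f => t ≤ (f.size : ℝ)
  | (j + 1), f => ∃ p ∈ splits f, t ≤ (p.1.size : ℝ) ∧ K t j p.2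

lemma E_K_le (hB : S_BRI) (hr : IsRad rr cc) (t : ℝ) (ht : 0 < t) (m j : ℕ) : ∀ n, n ≤ m →
    E n (fun f => ind (K t j f)) ≤ ((m : ℝ) + 1) ^ j * (cc ^ 2 * (1 / (t * √t))) ^ (j + 1) := by
  have hcc := cc_pos hr
  have hbase : ∀ n : ℕ, E n (fun f => ind (t ≤ (f.size : ℝ))) ≤ cc ^ 2 * (1 / (t * √t)) := by
    intro n
    have e1 : E n (fun f => ind (t ≤ (f.size : ℝ))) = ind (t ≤ (n : ℝ)) * E n (fun _ => 1) := by
      rw [← E_mul_left]
      apply E_congr
      intro f hf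
      rw [hf, mul_one]
    rw [e1]
    by_cases h : t ≤ (n : ℝ)
    · rw [ind_of h, one_mul]
      exact F_le' hr n ht (by linarith)
    · rw [ind_of_not h, zero_mul]; positivity
  induction j with
  | zero =>
    intro n _
    have := hbase n
    simpa [K] using this
  | succ j ih =>
    intro n hn
    have e1 : E n (fun f => ind (K t (j + 1) f)) ≤ ∑ k ∈ range (n + 1),
        E k (fun g => E (n - k) (fun h => ind (t ≤ (g.size : ℝ) ∧ K t j h))) :=
      E_splits_ind hB hr n (fun g h => t ≤ (g.size : ℝ) ∧ K t j h)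
    refine e1.trans ?_
    set B : ℝ := cc ^ 2 * (1 / (t * √t)) with hBd
    have hB0 : 0 ≤ B := by positivity
    have h1 : ∀ k ∈ range (n + 1),
        E k (fun g => E (n - k) (fun h => ind (t ≤ (g.size : ℝ) ∧ K t j h))) ≤
        B * (((m : ℝ) + 1) ^ j * B ^ (j + 1)) := by
      intro k hk
      have e2 : E k (fun g => E (n - k) (fun h => ind (t ≤ (g.size : ℝ) ∧ K t j h))) =
          E (n - k) (fun h => ind (K t j h)) * E k (fun g => ind (t ≤ (g.size : ℝ))) := by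
        rw [← E_mul_left]
        apply E_congr
        intro g _
        rw [mul_comm, ← E_mul_left]
        apply E_congr
        intro h _
        rw [ind_and]
      rw [e2, mul_comm]
      exact mul_le_mul (hbase k) (ih (n - k) (by omega)) (E_nonneg hr fun _ => ind_nonneg _) hB0
    refine (Finset.sum_le_sum h1).trans ?_
    rw [Finset.sum_const, Finset.card_range, nsmul_eq_mul]
    have hn' : ((n + 1 : ℕ) : ℝ) ≤ (m : ℝ) + 1 := by
      push_cast
      have : (n : ℝ) ≤ m := by exact_mod_cast hn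
      linarith
    calc ((n + 1 : ℕ) : ℝ) * (B * (((m : ℝ) + 1) ^ j * B ^ (j + 1)))
        ≤ ((m : ℝ) + 1) * (B * (((m : ℝ) + 1) ^ j * B ^ (j + 1))) :=
          mul_le_mul_of_nonneg_right hn' (by positivity)
      _ = ((m : ℝ) + 1) ^ (j + 1) * B ^ (j + 1 + 1) := by ring

/-- large forests with small branches have many groups -/
lemma K_of (t x : ℝ) (ht : 0 < t) (j : ℕ) : ∀ f : Fr, (∀ b ∈ f.toList, (vs b : ℝ) ≤ x) →
    (j : ℝ) * (t + x) + t ≤ (f.size : ℝ) → 0 ≤ x → K t j f := by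
  induction j with
  | zero =>
    intro f _ h _
    rw [K]
    simpa using h
  | succ j ih =>
    intro f hall h hx
    push_cast at h
    have h0 : 0 ≤ (j : ℝ) * (t + x) := by positivity
    obtain ⟨p, hp, h1, h2⟩ := Restr97.greedy x f t ht (by nlinarith) hall
    have hsz : (p.1.size : ℝ) + p.2.size = f.size := by exact_mod_cast Restr97.splits_size hp
    have h3 : K t j p.2 := by
      apply ih p.2 (fun b hb => hall b (Restr97.splits_mem hp b hb)) _ hx
      nlinarith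
    rw [K]
    exact ⟨p, hp, h1, h3⟩

theorem fourgroups (hB : S_BRI) (hr : IsRad rr cc) (δ : ℝ) (hδ : 0 < δ) :
    ∃ C : ℝ, 0 < C ∧ ∀ m : ℕ, 1 ≤ m →
    E m (fun f => ind (∀ a ∈ f.toList, (vs a : ℝ) ≤ (1 / 3 - δ) * m)) ≤ C / (m : ℝ) ^ 3 := by
  have hcc := cc_pos hr
  refine ⟨8 * cc ^ 8 / (δ / 2) ^ 6, by positivity, ?_⟩
  intro m hm
  have hm0 : (0 : ℝ) < m := by exact_mod_cast hm
  have hm1 : (1 : ℝ) ≤ m := by exact_mod_cast hm
  have ht : 0 < δ / 2 * m := by positivity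
  have hp : ∀ f : Fr, f.size = m →
      ind (∀ a ∈ f.toList, (vs a : ℝ) ≤ (1 / 3 - δ) * m) ≤ ind (K (δ / 2 * m) 3 f) := by
    intro f hf
    refine ind_mono fun h => ?_
    have hx : 0 ≤ (1 / 3 - δ) * m := by
      cases f with
      | nil =>
        have : (Fr.nil).size = 0 := rfl
        omega
      | cons a b =>
        have := h a (by rw [Fr.toList]; exact List.mem_cons_self)
        have h2 : (0 : ℝ) ≤ vs a := Nat.cast_nonneg _
        linarith
    apply K_of (δ / 2 * m) ((1 / 3 - δ) * m) ht 3 f h _ hx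
    rw [hf]
    push_cast
    nlinarith
  refine (E_mono hr hp).trans ((E_K_le hB hr (δ / 2 * m) ht m 3 m le_rfl).trans ?_)
  have hs : √(δ / 2 * m) * √(δ / 2 * m) = δ / 2 * m := Real.mul_self_sqrt ht.le
  have hs0 : 0 < √(δ / 2 * m) := Real.sqrt_pos.mpr ht
  have e1 : (cc ^ 2 * (1 / (δ / 2 * m * √(δ / 2 * m)))) ^ (3 + 1) =
      cc ^ 8 / (δ / 2 * m) ^ 6 := by
    have : (δ / 2 * m * √(δ / 2 * m)) ^ 4 = (δ / 2 * m) ^ 6 := by
      calc (δ / 2 * m * √(δ / 2 * m)) ^ 4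
          = (δ / 2 * m) ^ 4 * (√(δ / 2 * m) * √(δ / 2 * m)) ^ 2 := by ring
        _ = (δ / 2 * m) ^ 6 := by rw [hs]; ring
    rw [mul_one_div, div_pow, this, ← pow_mul]
  rw [e1]
  calc ((m : ℝ) + 1) ^ 3 * (cc ^ 8 / (δ / 2 * m) ^ 6)
      ≤ (2 * m) ^ 3 * (cc ^ 8 / (δ / 2 * m) ^ 6) := by
        apply mul_le_mul_of_nonneg_right _ (by positivity)
        apply pow_le_pow_left₀ (by positivity)
        linarith
    _ = 8 * cc ^ 8 / (δ / 2) ^ 6 / (m : ℝ) ^ 3 := by
        field_simp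
        norm_num

end RSTa

theorem t_RST (hB : S_BRI) : S_RST := fun hr =>
  ⟨RSTa.restr hB hr, fun δ hδ => RSTa.fourgroups hB hr δ hδ⟩

end Pool.Agent.UT
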