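import Pool.Agent.UT.St

set_option autoImplicit false

/-!
# The theorem, from Otter's theorem, the probabilistic half and the counting of classes
-/

namespace Pool.Agent.UT

open Pool.MP_1af41f_co.CSF RT Finset

lemma E_bad_le (hrad : IsRad rr cc) (hP : S_PRB) (η : ℝ) (hη : 0 < η) :
    ∃ m0 : ℕ, ∀ m : ℕ, m0 ≤ m → E m Bad ≤ η / ((m : ℝ) ^ 2 * √(m : ℝ)) := by
  obtain ⟨m0, hm0⟩ := hP hrad η hη
  refine ⟨m0, fun m hm => le_trans (E_mono hrad fun f hf => ?_) (hm0 m hm)⟩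
  refine ind_mono ?_
  rintro ⟨h1, h2⟩
  refine ⟨fun a ha => ?_, fun h => h1 (det_of_hypH h)⟩
  have := h2 a ha
  omega

/-- the number of classes, times `rr ^ m`, from below -/
lemma class_ge (hrad : IsRad rr cc) (hC : S_CLS) (m : ℕ) (hm : 1 ≤ m) :
    1 / (8 * cc * ((m : ℝ) ^ 2 * √m)) ≤ rr ^ m * (Nat.card (TreeClass (m + 1)) : ℝ) := by
  have hm1 : (1 : ℝ) ≤ m := by exact_mod_cast hm
  have hm0' : (0 : ℝ) < m := by linarith
  have hcc := cc_pos hrad
  have h1 : (cf m : ℝ) ≤ ((m : ℝ) + 1) * (Nat.card (TreeClass (m + 1)) : ℝ) := by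
    exact_mod_cast (hC m).1
  have hτ := τ_ge hrad (m + 1) (by omega)
  have h2 : τ (m + 1) = rr ^ (m + 1) * (cf m : ℝ) := by
    rw [τ, uu_succ]
  rw [h2] at hτ
  push_cast at hτ
  set s := √(m : ℝ) with hs
  have hs0 : 0 < s := Real.sqrt_pos.2 hm0'
  have hs2 : s ^ 2 = m := Real.sq_sqrt hm0'.le
  have hs' : √((m : ℝ) + 1) ≤ 2 * s := by
    rw [Real.sqrt_le_left (by positivity)]
    nlinarith
  have hs1 : 0 < √((m : ℝ) + 1) := Real.sqrt_pos.2 (by linarith)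
  have hr0 := hrad.r_pos
  have hpow : rr ^ (m + 1) ≤ rr ^ m := by
    rw [pow_succ]
    exact mul_le_of_le_one_right (pow_nonneg hr0.le _) hrad.r_le
  have hcard : (0 : ℝ) ≤ (Nat.card (TreeClass (m + 1)) : ℝ) := Nat.cast_nonneg _
  have h3 : 1 / (cc * (((m : ℝ) + 1) * √((m : ℝ) + 1))) ≤
      ((m : ℝ) + 1) * (rr ^ m * (Nat.card (TreeClass (m + 1)) : ℝ)) := by
    refine hτ.trans ?_
    calc rr ^ (m + 1) * (cf m : ℝ)
        ≤ rr ^ m * (((m : ℝ) + 1) * (Nat.card (TreeClass (m + 1)) : ℝ)) :=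
          mul_le_mul hpow h1 (Nat.cast_nonneg _) (pow_nonneg hr0.le _)
      _ = _ := by ring
  have h4 : (1 / (8 * cc * ((m : ℝ) ^ 2 * s))) * ((m : ℝ) + 1) ≤
      1 / (cc * (((m : ℝ) + 1) * √((m : ℝ) + 1))) := by
    rw [div_mul_eq_mul_div, one_mul, div_le_div_iff₀ (by positivity) (by positivity)]
    have h5 : ((m : ℝ) + 1) * √((m : ℝ) + 1) ≤ (2 * m) * (2 * s) :=
      mul_le_mul (by linarith) hs' hs1.le (by positivity)
    calc ((m : ℝ) + 1) * (cc * ((m + 1) * √((m : ℝ) + 1)))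
        = cc * ((m + 1) * ((m + 1) * √((m : ℝ) + 1))) := by ring
      _ ≤ cc * ((2 * m) * ((2 * m) * (2 * s))) := by
          refine mul_le_mul_of_nonneg_left ?_ hcc.le
          exact mul_le_mul (by linarith) h5 (by positivity) (by positivity)
      _ = 1 * (8 * cc * ((m : ℝ) ^ 2 * s)) := by ring
  have h6 := h4.trans h3
  have h7 : (0 : ℝ) < (m : ℝ) + 1 := by linarith
  refine le_of_mul_le_mul_right (a := (m : ℝ) + 1) ?_ h7
  calc _ ≤ ((m : ℝ) + 1) * (rr ^ m * (Nat.card (TreeClass (m + 1)) : ℝ)) := h6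
    _ = _ := by ring

/-- the proportion of the bad classes tends to `0` -/
lemma bad_ratio (hrad : IsRad rr cc) (hP : S_PRB) (hC : S_CLS) (ε : ℝ) (hε : 0 < ε) :
    ∃ m0 : ℕ, ∀ m : ℕ, m0 ≤ m →
    (Nat.card {c : TreeClass (m + 1) // ¬ DetClass c} : ℝ) ≤
      ε * (Nat.card (TreeClass (m + 1)) : ℝ) := by
  have hcc := cc_pos hrad
  have hr0 := hrad.r_pos
  obtain ⟨m0, hm0⟩ := E_bad_le hrad hP (ε / (8 * cc)) (by positivity)
  refine ⟨m0 + 1, fun m hm => ?_⟩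
  have hE := hm0 m (by omega)
  have hm1 : 1 ≤ m := by omega
  have hg := class_ge hrad hC m hm1
  have hb := (hC m).2
  have hm1' : (1 : ℝ) ≤ m := by exact_mod_cast hm1
  have hm0' : (0 : ℝ) < m := by linarith
  have hs0 : 0 < √(m : ℝ) := Real.sqrt_pos.2 hm0'
  have hp : 0 < rr ^ m := pow_pos hr0 _
  refine le_of_mul_le_mul_left ?_ hp
  calc rr ^ m * (Nat.card {c : TreeClass (m + 1) // ¬ DetClass c} : ℝ)
      ≤ rr ^ m * ∑ f ∈ CS m, Bad f := mul_le_mul_of_nonneg_left hb hp.le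
    _ = E m Bad := rfl
    _ ≤ ε / (8 * cc) / ((m : ℝ) ^ 2 * √m) := hE
    _ = ε * (1 / (8 * cc * ((m : ℝ) ^ 2 * √m))) := by field_simp
    _ ≤ ε * (rr ^ m * (Nat.card (TreeClass (m + 1)) : ℝ)) :=
        mul_le_mul_of_nonneg_left hg hε.le
    _ = _ := by ring

lemma finite_class (n : ℕ) : Finite (TreeClass n) := by
  unfold TreeClass
  exact Quotient.finite _

theorem t_TOP (hO : S_OTT) (hP : S_PRB) (hC : S_CLS) : S_TOP := by
  classical
  have hrad := isRad_of hO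
  unfold S_TOP
  rw [Metric.tendsto_atTop]
  intro ε hε
  obtain ⟨m0, hm0⟩ := bad_ratio hrad hP hC (ε / 2) (by positivity)
  refine ⟨m0 + 2, fun n hn => ?_⟩
  obtain ⟨m, rfl⟩ : ∃ m, n = m + 1 := ⟨n - 1, by omega⟩
  have h1 := hm0 m (by omega)
  have hm1 : 1 ≤ m := by omega
  have hm1' : (1 : ℝ) ≤ m := by exact_mod_cast hm1
  have hm0' : (0 : ℝ) < m := by linarith
  have hs0 : 0 < √(m : ℝ) := Real.sqrt_pos.2 hm0'
  have hcc := cc_pos hrad
  have hpos : 0 < (Nat.card (TreeClass (m + 1)) : ℝ) := by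
    have h2 := class_ge hrad hC m hm1
    have h3 : 0 < rr ^ m * (Nat.card (TreeClass (m + 1)) : ℝ) :=
      lt_of_lt_of_le (by positivity) h2
    exact pos_of_mul_pos_right h3 (pow_nonneg hrad.r_pos.le _)
  haveI := finite_class (m + 1)
  haveI := Fintype.ofFinite (TreeClass (m + 1))
  have e4 : (Nat.card {c : TreeClass (m + 1) // DetClass c} : ℝ) +
      (Nat.card {c : TreeClass (m + 1) // ¬ DetClass c} : ℝ) =
      (Nat.card (TreeClass (m + 1)) : ℝ) := by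
    have e3 := Nat.card_congr (Equiv.sumCompl (fun c : TreeClass (m + 1) => DetClass c))
    rw [Nat.card_sum] at e3
    exact_mod_cast e3
  rw [Real.dist_eq]
  have e5 : (Nat.card {c : TreeClass (m + 1) // DetClass c} : ℝ) /
      (Nat.card (TreeClass (m + 1)) : ℝ) - 1
      = - ((Nat.card {c : TreeClass (m + 1) // ¬ DetClass c} : ℝ) /
        (Nat.card (TreeClass (m + 1)) : ℝ)) := by
    field_simp
    linarith
  rw [e5, abs_neg, abs_of_nonneg (by positivity)]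
  refine lt_of_le_of_lt ?_ (half_lt_self hε)
  rw [div_le_iff₀ hpos]
  exact h1

end Pool.Agent.UT
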