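import Pool.Agent.UT.P_CANA
import Pool.Agent.UT.P_BRI
import Pool.Agent.UT.P_EUL
import Pool.Agent.UT.P_CAT
import Pool.Agent.UT.P_LAG
import Pool.Agent.UT.P_RAD
import Pool.Agent.UT.P_REN
import Pool.Agent.UT.P_OTT
import Pool.Agent.UT.P_CNV
import Pool.Agent.UT.P_RST
import Pool.Agent.UT.P_EVT
import Pool.Agent.UT.P_FEW
import Pool.Agent.UT.P_MNY
import Pool.Agent.UT.P_FRG
import Pool.Agent.UT.P_MNB
import Pool.Agent.UT.P_PRB
import Pool.Agent.UT.P_CANB
import Pool.Agent.UT.P_CLS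
import Pool.Agent.UT.P_TOP
import Pool.Agent.UT.Cls

set_option autoImplicit false

/-!
# Almost all unlabelled trees are determined: assembly
-/

namespace Pool.Agent.UT

theorem final_OTT : S_OTT := t_OTT (t_LAG (t_EUL t_CANA)) (t_RAD t_CAT) t_REN

theorem final_MNB : S_MNB :=
  t_MNB (t_BRI t_CANA) (t_RST (t_BRI t_CANA)) (t_FEW (t_BRI t_CANA) (t_RST (t_BRI t_CANA)) t_CNV)
    (t_MNY (t_BRI t_CANA)) (t_FRG (t_BRI t_CANA))

theorem final_PRB : S_PRB :=
  t_PRB (t_RST (t_BRI t_CANA)) (t_EVT (t_BRI t_CANA) (t_RST (t_BRI t_CANA))) final_MNB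

/-- Almost every isomorphism class of trees is determined by its chromatic symmetric function. -/
theorem final_TOP : S_TOP := t_TOP final_OTT final_PRB (t_CLS (t_CANB t_CANA))

end Pool.Agent.UT
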