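import Pool.Agent.UT.St

/-!
# Module CANA: basic facts on canonical forests
-/

set_option autoImplicit false

namespace Pool.Agent.UT

open Pool.MP_1af41f_co.CSF RT Finset

namespace CANAa

lemma cd_inj : Function.Injective cd := by
  intro f
  induction f with
  | nil =>
    intro g h
    cases g with
    | nil => rfl
    | cons c d => simp [cd] at h
  | cons a b iha ihb =>
    intro g h
    cases g with
    | nil => simp [cd] at h
    | cons c d =>
      simp only [cd, Nat.add_right_cancel_iff, Nat.pair_eq_pair] at h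
      rw [iha h.1, ihb h.2]

lemma can_iff (f : Fr) :
    Can f ↔ (∀ a ∈ f.toList, Can a) ∧ f.toList.Pairwise (fun a b => cd a ≤ cd b) := by
  induction f with
  | nil => simp [Can, Fr.toList]
  | cons a b _ ih =>
    simp only [Can, Fr.toList, List.forall_mem_cons, List.pairwise_cons]
    rw [ih]
    tauto

lemma eq_of_toList {f g : Fr} (h : f.toList = g.toList) : f = g := by
  rw [← Fr.ofList_toList f, ← Fr.ofList_toList g, h]

lemma eq_of_perm {f g : Fr} (hf : Can f) (hg : Can g) (h : f.toList.Perm g.toList) : f = g := by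
  rw [can_iff] at hf hg
  refine eq_of_toList (h.eq_of_pairwise ?_ hf.2 hg.2)
  intro a b _ _ h1 h2
  exact cd_inj (le_antisymm h1 h2)

lemma exists_can (l : List Fr) (hl : ∀ a ∈ l, Can a) : ∃ f : Fr, Can f ∧ f.toList.Perm l := by
  classical
  have : Std.Total (fun a b : Fr => cd a ≤ cd b) := ⟨fun a b => le_total (cd a) (cd b)⟩
  have : IsTrans Fr (fun a b : Fr => cd a ≤ cd b) := ⟨fun a b c h1 h2 => h1.trans h2⟩
  refine ⟨Fr.ofList (l.insertionSort (fun a b : Fr => cd a ≤ cd b)), ?_, ?_⟩
  · rw [can_iff, Fr.toList_ofList]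
    refine ⟨fun a ha => hl a ((List.mem_insertionSort _).1 ha), ?_⟩
    exact List.pairwise_insertionSort _ _
  · rw [Fr.toList_ofList]
    exact List.perm_insertionSort _ _

lemma can_br {f : Fr} {p : Fr × Fr} (hf : Can f) (hp : p ∈ br f) : Can p.1 ∧ Can p.2 := by
  induction f generalizing p with
  | nil => simp [br] at hp
  | cons a b _ ih =>
    rw [br, List.mem_cons, List.mem_map] at hp
    rcases hp with rfl | ⟨q, hq, rfl⟩
    · exact ⟨hf.1, hf.2.1⟩
    · obtain ⟨h1, h2⟩ := ih hf.2.1 hq
      refine ⟨h1, hf.1, h2, fun c hc => hf.2.2 c ?_⟩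
      exact (br_toList hq c).2 (Or.inr hc)

lemma can_splits {f : Fr} {p : Fr × Fr} (hf : Can f) (hp : p ∈ splits f) :
    Can p.1 ∧ Can p.2 ∧ f.toList.Perm (p.1.toList ++ p.2.toList) := by
  induction f generalizing p with
  | nil =>
    rw [splits, List.mem_singleton] at hp
    subst hp
    exact ⟨trivial, trivial, List.Perm.refl _⟩
  | cons a b _ ih =>
    rw [splits, List.mem_append, List.mem_map, List.mem_map] at hp
    rcases hp with ⟨q, hq, rfl⟩ | ⟨q, hq, rfl⟩
    · obtain ⟨h1, h2, h3⟩ := ih hf.2.1 hq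
      refine ⟨⟨hf.1, h1, fun c hc => hf.2.2 c ?_⟩, h2, ?_⟩
      · exact h3.mem_iff.2 (List.mem_append_left _ hc)
      · simp only [Fr.toList, List.cons_append]
        exact h3.cons a
    · obtain ⟨h1, h2, h3⟩ := ih hf.2.1 hq
      refine ⟨h1, ⟨hf.1, h2, fun c hc => hf.2.2 c ?_⟩, ?_⟩
      · exact h3.mem_iff.2 (List.mem_append_right _ hc)
      · simp only [Fr.toList]
        exact (h3.cons a).trans List.perm_middle.symm

lemma can_fr {f x : Fr} (hf : Can f) (hx : x ∈ fr f) : Can x := by
  induction f with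
  | nil => simp [fr] at hx
  | cons a b iha ihb =>
    rw [fr, List.mem_cons, List.mem_append] at hx
    rcases hx with rfl | hx | hx
    · exact hf.1
    · exact iha hf.1 hx
    · exact ihb hf.2.1 hx

end CANAa

theorem t_CANA : S_CANA := by
  refine ⟨CANAa.cd_inj, fun f g hf hg h => CANAa.eq_of_perm hf hg h, CANAa.exists_can,
    fun f p hf hp => CANAa.can_br hf hp, fun f p hf hp => CANAa.can_splits hf hp,
    fun f x hf hx => CANAa.can_fr hf hx, fun f a hf ha => ((CANAa.can_iff f).1 hf).1 a ha⟩

end Pool.Agent.UT
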