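import Pool.Agent.UT.St

set_option autoImplicit false

/-!
# Counting isomorphism classes of trees (module CLS)
-/

namespace Pool.Agent.UT

open Pool.MP_1af41f_co.CSF RT Finset

namespace CLSa

lemma isTree_G (f : Fr) : (Fr.G f).IsTree := by
  induction f with
  | nil =>
    have : Subsingleton (Fr.W Fr.nil) := inferInstanceAs (Subsingleton Unit)
    have : Nonempty (Fr.W Fr.nil) := inferInstanceAs (Nonempty Unit)
    exact SimpleGraph.IsTree.of_subsingleton
  | cons a b iha ihb => exact Lab.join_isTree iha ihb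

/-- the tree of a forest, on `Fin n` -/
lemma exists_fin {n : ℕ} (f : Fr) (hf : f.size + 1 = n) :
    ∃ T : {T : SimpleGraph (Fin n) // T.IsTree}, Nonempty (Fr.G f ≃g T.1) := by
  have hcard : Fintype.card (Fr.W f) = Fintype.card (Fin n) := by
    rw [Fr.card_W, Fintype.card_fin]; omega
  let e : Fr.W f ≃ Fin n := Fintype.equivOfCardEq hcard
  let i : Fr.G f ≃g (Fr.G f).map e.toEmbedding := SimpleGraph.Iso.map e (Fr.G f)
  exact ⟨⟨(Fr.G f).map e.toEmbedding, i.isTree_iff.1 (isTree_G f)⟩, ⟨i⟩⟩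

instance finClass (n : ℕ) : Finite (TreeClass n) := by
  classical
  unfold TreeClass
  exact Quotient.finite _

lemma mk_eq {n : ℕ} {T T' : {T : SimpleGraph (Fin n) // T.IsTree}} :
    Quotient.mk (treeSetoid n) T = Quotient.mk (treeSetoid n) T' ↔ Nonempty (T.1 ≃g T'.1) :=
  Quotient.eq (r := treeSetoid n)

lemma size_eq {m : ℕ} {T : SimpleGraph (Fin (m + 1))} {f : Fr} (e : T ≃g Fr.G f) :
    f.size = m := by
  have h := Fintype.card_congr e.toEquiv
  rw [Fintype.card_fin, Fr.card_W] at h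
  omega

/-- the class of a canonical forest and the position of the root -/
lemma exists_pos {m : ℕ} (f : Fr) (hf : f.size = m) :
    ∃ p : TreeClass (m + 1) × Fin (m + 1), ∃ e : Fr.G f ≃g (Quotient.out p.1).1,
      e (Fr.ρ f) = p.2 := by
  obtain ⟨T, ⟨e⟩⟩ := exists_fin (n := m + 1) f (by omega)
  have h1 : Quotient.mk (treeSetoid (m + 1))
      (Quotient.out (Quotient.mk (treeSetoid (m + 1)) T)) = Quotient.mk (treeSetoid (m + 1)) T :=
    Quotient.out_eq _
  obtain ⟨e'⟩ := mk_eq.1 h1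
  exact ⟨(Quotient.mk (treeSetoid (m + 1)) T, (e.trans e'.symm) (Fr.ρ f)), e.trans e'.symm, rfl⟩

/-- the canonical forest of a bad class -/
lemma exists_bad (hB : S_CANB) {m : ℕ} (c : TreeClass (m + 1)) (hc : ¬ DetClass c) :
    ∃ g ∈ CS m, (¬ Det (Fr.G g) ∧ ∀ a ∈ g.toList, 2 * vs a ≤ g.size + 1) ∧
      ∃ T : {T : SimpleGraph (Fin (m + 1)) // T.IsTree},
        Quotient.mk (treeSetoid (m + 1)) T = c ∧ Nonempty (T.1 ≃g Fr.G g) := by
  unfold DetClass at hc
  push Not at hc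
  obtain ⟨T, hT, hdet⟩ := hc
  obtain ⟨v, hv⟩ := exists_cent T.1 T.2
  obtain ⟨f, e, he⟩ := exists_rep (m + 1) (Fin (m + 1)) T.1 T.2 v (by simp)
  obtain ⟨g, hg, hfg, hgs⟩ := hB.1 f
  have hsize := size_eq e
  obtain ⟨e', he'⟩ := hfg
  have heg : (e.trans e') v = Fr.ρ g := by
    show e' (e v) = Fr.ρ g
    rw [he, he']
  refine ⟨g, mem_CS.2 ⟨hgs.trans hsize, hg⟩, ⟨?_, ?_⟩, T, hT, ⟨e.trans e'⟩⟩
  · rw [← det_iff (e.trans e')]
    exact hdet
  · rw [← cent_G, ← cent_iff (e.trans e') heg]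
    exact hv

end CLSa

open CLSa in
theorem t_CLS (hB : S_CANB) : S_CLS := by
  classical
  intro m
  constructor
  · have h1 : ∀ f : {f // f ∈ CS m}, ∃ p : TreeClass (m + 1) × Fin (m + 1),
        ∃ e : Fr.G f.1 ≃g (Quotient.out p.1).1, e (Fr.ρ f.1) = p.2 := fun f =>
      exists_pos f.1 (mem_CS.1 f.2).1
    choose F hF using h1
    have hinj : Function.Injective F := by
      intro f g hfg
      have hF' := hF g
      rw [← hfg] at hF'
      obtain ⟨e, he⟩ := hF f
      obtain ⟨e', he'⟩ := hF'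
      apply Subtype.ext
      apply hB.2 f.1 g.1 (mem_CS.1 f.2).2 (mem_CS.1 g.2).2
      refine ⟨e.trans e'.symm, ?_⟩
      show e'.symm (e (Fr.ρ f.1)) = Fr.ρ g.1
      rw [he, ← he']
      exact e'.symm_apply_apply _
    have h2 := Nat.card_le_card_of_injective F hinj
    rw [Nat.card_prod, Nat.card_eq_fintype_card, Fintype.card_coe, Nat.card_fin, mul_comm] at h2
    exact h2
  · have h1 : ∀ c : {c : TreeClass (m + 1) // ¬ DetClass c},
        ∃ g ∈ CS m, (¬ Det (Fr.G g) ∧ ∀ a ∈ g.toList, 2 * vs a ≤ g.size + 1) ∧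
          ∃ T : {T : SimpleGraph (Fin (m + 1)) // T.IsTree},
            Quotient.mk (treeSetoid (m + 1)) T = c.1 ∧ Nonempty (T.1 ≃g Fr.G g) := fun c =>
      exists_bad hB c.1 c.2
    choose F hF1 hF2 T hT1 hT2 using h1
    have h2 : ∀ c, F c ∈ (CS m).filter
        (fun g => ¬ Det (Fr.G g) ∧ ∀ a ∈ g.toList, 2 * vs a ≤ g.size + 1) := fun c =>
      Finset.mem_filter.2 ⟨hF1 c, hF2 c⟩
    have hinj : Function.Injective (fun c => (⟨F c, h2 c⟩ : {g // g ∈ (CS m).filter
        (fun g => ¬ Det (Fr.G g) ∧ ∀ a ∈ g.toList, 2 * vs a ≤ g.size + 1)})) := by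
      intro c c' hcc
      have h3 : F c = F c' := congrArg Subtype.val hcc
      apply Subtype.ext
      have h4 := hT2 c
      rw [h3] at h4
      obtain ⟨e⟩ := h4
      obtain ⟨e'⟩ := hT2 c'
      exact (hT1 c).symm.trans ((mk_eq.2 ⟨e.trans e'.symm⟩).trans (hT1 c'))
    have h4 := Nat.card_le_card_of_injective _ hinj
    rw [Nat.card_eq_fintype_card (α := {g // g ∈ (CS m).filter
        (fun g => ¬ Det (Fr.G g) ∧ ∀ a ∈ g.toList, 2 * vs a ≤ g.size + 1)}),
      Fintype.card_coe] at h4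
    have h5 : (((CS m).filter
        (fun g => ¬ Det (Fr.G g) ∧ ∀ a ∈ g.toList, 2 * vs a ≤ g.size + 1)).card : ℝ) =
        ∑ f ∈ CS m, Bad f := by
      rw [Finset.card_filter]
      push_cast
      apply Finset.sum_congr rfl
      intro f _
      unfold Bad
      by_cases h : ¬ Det (Fr.G f) ∧ ∀ a ∈ f.toList, 2 * vs a ≤ f.size + 1
      · rw [if_pos h, ind_of h]
      · rw [if_neg h, ind_of_not h]
    rw [← h5]
    exact_mod_cast h4

end Pool.Agent.UT
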