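import Pool.Agent.UT.Defs

set_option autoImplicit false

/-!
# Almost all unlabelled trees are determined by X: statements of the modules (MP_1af41f_co)

Every `def S_X : Prop` is the statement of a module; the module proves `theorem t_X : S_X` in
`Pool/Agent/UT/P_X.lean` (from other `S_Y` as hypotheses if the doc-string says so:
`theorem t_X (hY : S_Y) : S_X`). The doc-string contains the proof. Most modules are adaptations of
files in `Pool/Agent/Lib_helper86/RT` (the labelled case): copy the file, replace `namespace RT` by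
`namespace Pool.Agent.UT`, and change what is said in the doc-string. Lemmas of `RT` that do not
mention `RT.E`, `RT.ET`, `RT.τ`, `RT.υ`, `RT.conv` can be used as they are (`open RT`; inside
`namespace Pool.Agent.UT` the names `E`, `ET`, `τ`, `υ`, `conv`, `E_add`, ... mean those of
`Pool.Agent.UT`; write `RT.τ` for the labelled ones). Main changes: the lemmas of this namespace take
the hypothesis `h : IsRad rr cc` first; `τ k ≤ cc / (k √k)` instead of `1 / (k √k)`; `E_one_le` has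
`cc ^ 2` instead of `3`; the factor `exp (-1)` becomes `rr`; sums over all marked branches become
EXISTENCE of a marked branch (`E_br_le`, `E_br_ind`, ... in `Pool/Agent/UT/Tl.lean`).
-/

namespace Pool.Agent.UT

open Pool.MP_1af41f_co.CSF RT Finset

/-! ### Combinatorics of canonical forests -/

/-- CANA: basic facts on canonical forests.
Proof. `cd` is injective: induction (`Nat.pair_eq_pair`). `Can f` iff all branches in `f.toList` are
canonical and `f.toList` is sorted for `cd a ≤ cd b` (`List.Pairwise`), by induction. Two sorted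
lists which are permutations of each other are equal (antisymmetry by injectivity of `cd`:
`List.Perm.eq_of_pairwise` or similar), and `Fr.ofList`, `Fr.toList` are inverse. Existence: sort the list
(`List.insertionSort` or `List.mergeSort`) and take `Fr.ofList`. Parts 4, 5, 6: by induction on `f`
from the definitions of `br`, `splits`, `fr` (`RT.br_perm` in Top.lean gives the permutation for `br`). -/
def S_CANA : Prop :=
  Function.Injective cd ∧
  (∀ f g : Fr, Can f → Can g → f.toList.Perm g.toList → f = g) ∧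
  (∀ l : List Fr, (∀ a ∈ l, Can a) → ∃ f : Fr, Can f ∧ f.toList.Perm l) ∧
  (∀ (f : Fr) (p : Fr × Fr), Can f → p ∈ br f → Can p.1 ∧ Can p.2) ∧
  (∀ (f : Fr) (p : Fr × Fr), Can f → p ∈ splits f →
    Can p.1 ∧ Can p.2 ∧ f.toList.Perm (p.1.toList ++ p.2.toList)) ∧
  (∀ f x : Fr, Can f → x ∈ fr f → Can x) ∧
  (∀ f a : Fr, Can f → a ∈ f.toList → Can a)

open Classical in
/-- BRI: marking a branch, splitting the branches, summing over the types of branches.
Proof (from CANA). Part 1. Write `A = {f ∈ CS m : 0 < Φ f}`; choose for `f ∈ A` a `p f ∈ br f` with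
`Φ f ≤ H (p f).1 (p f).2`. By CANA `(p f).1`, `(p f).2` are canonical, `vs (p f).1 + (p f).2.size = m`
(`RT.br_size`), and `f.toList` is a permutation of `(p f).1 :: (p f).2.toList` (`RT.br_perm`), so `p` is
injective on `A`. The right side is `rr ^ m` times the sum of `H a g` over all `k ∈ Icc 1 m`,
`a ∈ CS (k - 1)`, `g ∈ CS (m - k)`, which contains the image of `A` (`Finset.sum_le_sum_of_injOn` or
`sum_image` and `sum_le_sum_of_subset_of_nonneg`). Part 2 is the same with `splits` (sizes: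
`RT.Restr97.splits_size`). Part 3: the pairs `(f, a)`, `f ∈ CS m`, `a ∈ f.toList`: choose `p ∈ br f` with
`p.1 = a` (`RT.exists_br_of_mem`); `(f, a) ↦ (a, p.2)` is injective. -/
def S_BRI : Prop := IsRad rr cc →
  (∀ (m : ℕ) (Φ : Fr → ℝ) (H : Fr → Fr → ℝ), (∀ a g, 0 ≤ H a g) →
    (∀ f, Can f → f.size = m → Φ f ≤ 0 ∨ ∃ p ∈ br f, Φ f ≤ H p.1 p.2) →
    E m Φ ≤ ∑ k ∈ Icc 1 m, ET k (fun a => E (m - k) (fun g => H a g))) ∧
  (∀ (m : ℕ) (Φ : Fr → ℝ) (H : Fr → Fr → ℝ), (∀ g h, 0 ≤ H g h) →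
    (∀ f, Can f → f.size = m → Φ f ≤ 0 ∨ ∃ p ∈ splits f, Φ f ≤ H p.1 p.2) →
    E m Φ ≤ ∑ k ∈ range (m + 1), E k (fun g => E (m - k) (fun h => H g h))) ∧
  (∀ (m : ℕ) (H : Fr → ℝ), (∀ a, 0 ≤ H a) →
    E m (fun f => ∑ a ∈ f.toList.toFinset, H a) ≤
      ∑ k ∈ Icc 1 m, ET k H * E (m - k) (fun _ => 1))

/-- EUL: Euler's recursion for the numbers of multisets.
Proof (from CANA). Count the vertices of all canonical forests with `m` vertices:
`m * cf m = ∑_{f ∈ CS m} f.size = ∑_f ∑_{a ∈ f.toList} vs a = ∑_f ∑_{a ∈ toFinset} (count a f.toList) vs a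
= ∑_a ∑_{j ≥ 1} vs a * #{f ∈ CS m : j ≤ count a f.toList}` (`a` over the canonical trees with
`d ≤ m` vertices, `j ≤ m`), and for `j * vs a ≤ m` the map adding `j` copies of `a` (CANA, part 3:
the canonical forest whose list is a permutation of `List.replicate j a ++ g.toList`) is a bijection
from `CS (m - j * vs a)` onto `{f ∈ CS m : j ≤ count a f.toList}`, which is empty if
`m < j * vs a`. So `m * cf m = ∑_{d, j ≥ 1, d j ≤ m} d * uu d * cf (m - d j)`; put `k = d j`. -/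
def S_EUL : Prop :=
  ∀ m : ℕ, m * cf m = ∑ k ∈ Icc 1 m, (∑ d ∈ k.divisors, d * uu d) * cf (m - k)

/-- CAT: `cf m ≤ card (FS m) ≤ catalan m ≤ 4 ^ m`.
Proof. `RT.E_succ`-like decomposition (`RT.finite_size`): `card (FS (m + 1)) ≤ ∑_{i ≤ m} card (FS i) *
card (FS (m - i))`, so `card (FS m) ≤ catalan m` by strong induction (`catalan_succ`), and
`catalan m = centralBinom m / (m + 1) ≤ centralBinom m ≤ 4 ^ m`. -/
def S_CAT : Prop := ∀ m : ℕ, cf m ≤ 4 ^ m

/-! ### Otter's theorem up to constants -/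

/-- `bb k = ∑_{d ∣ k, d < k} d uu d` -/
noncomputable def bb (k : ℕ) : ℝ := ∑ d ∈ k.properDivisors, (d : ℝ) * uu d

/-- the coefficients of `exp (∑ bb k x^k / k)` -/
noncomputable def Es : ℕ → ℝ
  | 0 => 1
  | (n + 1) => (∑ j : Fin (n + 1), bb (n + 1 - j) * Es j) / (n + 1)

/-- the power series `x E(x)` -/
noncomputable def As : PowerSeries ℝ := PowerSeries.X * PowerSeries.mk Es

/-- LAG: Lagrange inversion for `U = A exp U`.
Proof (from EUL; S_CAT is not needed). Let `U = ∑ uu n x^n` (so `U = x ∑ cf n x^n`), `b = ∑_{k ≥ 1} bb k x^k`,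
`D = x d/dx` (`D f` has the coefficients `n f_n`; use `PowerSeries.derivative`, `X * d⁄dX f`). (1) EUL says
`D F = F (D U + b)` for `F = ∑ cf n x^n` (`∑_{d ∣ k} d uu d = k uu k + bb k`), so `D U = U (1 + D U + b)`;
coefficientwise `(n - 1) uu n = ∑_{k=1}^{n-1} uu (n - k) (k uu k + bb k)`, and `uu 1 = 1`: this determines `uu`.
(2) `D As = As (1 + b)` from the definition of `Es`, so `D (As^m) = m As^m (1 + b)`.
(3) Put `t m = m^(m-1)/m!` (`t 0 = 0`) and `V = ∑ t m As^m`, `V₁ = ∑ m t m As^m` (coefficient of `x^n`: finite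
sum over `m ≤ n`, since `x^m` divides `As^m`). Abel's identity `∑_{k+l=N} k t k * t l = (N - 1) t N`
(`RT.E_one_aux`, with `τ k = t k e^(-k)`) gives `V V₁ = V₁ - V`. So `D V = (1 + b) V₁` and
`V (1 + D V + b) = (1 + b)(V + V V₁) = (1 + b) V₁ = D V`, the same recursion as `U`, `V_1 = 1`: `U = V`.
(4) `RT.υ_rec`: `∑_{j=1}^N t j * s (N - j) = s N` for `N ≥ 1`, `s m = m^m/m!`; so
`V * ∑ s m As^m = ∑ s m As^m - 1`, which is the recursion of `ku` (definition of `ku`, `U = V`). -/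
def S_LAG : Prop := ∀ n : ℕ,
  (uu n : ℝ) = ∑ m ∈ range (n + 1), RT.τ m * Real.exp m * PowerSeries.coeff n (As ^ m) ∧
  (ku n : ℝ) = ∑ m ∈ range (n + 1), RT.υ m * Real.exp m * PowerSeries.coeff n (As ^ m)

/-- RAD: the radius of convergence.
Proof (from CAT). `0 ≤ Es n`. `bb k ≤ ∑_{d ≤ k/2} d 4^d ≤ k^2 2^k` (a proper divisor is `≤ k/2`), so
for `0 < x < 1/2` the numbers `bb k x^k` are summable, sum `≤ B`. With `c n = Es n x^n`:
`n c n = ∑_{k=1}^n (bb k x^k) c (n-k) ≤ B * max_{j<n} c j`, so `c n ≤ max_{j<n} c j` for `n ≥ B`, `c` is bounded,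
and comparing two values of `x` the series `∑ Es n x^n` converges for every `0 ≤ x < 1/2`. The
function `g x = ∑ Es n x^(n+1)` is continuous on `[0, 2/5]` (uniform convergence, e.g.
`continuousOn_tsum`), `g 0 = 0`, `g (2/5) ≥ 2/5 > exp (-1)`: intermediate value theorem gives `r` with
`g r = exp (-1)`, `0 < r ≤ 2/5`; take `s = 9/8` (`r s ≤ 9/20 < 1/2`). -/
def S_RAD : Prop := (∀ n, 0 ≤ Es n) ∧ ∃ r s : ℝ, 0 < r ∧ r < 1 ∧ 1 < s ∧
  Summable (fun n => Es n * (r * s) ^ n) ∧ HasSum (fun n => Es n * r ^ (n + 1)) (Real.exp (-1))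

/-- REN: renewal estimates. `q` is a probability distribution on the positive integers with
exponential tails, `q 1 > 0`; `Q m n` = coefficient of `x^n` in `(∑ q k x^k)^m`.
Proof. `Q m n ≥ 0`, `Q m n = 0` for `n < m`, `Q 0 n = [n = 0]`. `W n = ∑_{m ≤ n} Q m n` satisfies
`W 0 = 1`, `W n = ∑_{j=1}^n q j W (n-j)` (`n ≥ 1`), so `W n ≤ 1` by induction. LOWER BOUND `W n ≥ c0 > 0`: with
`R i = ∑_{k > i} q k` (tails, `R i ≤ 1`, `∑_i R i < ∞`) one has `∑_{j=0}^n W j R (n-j) = 1` for all `n` (induction on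
`n`, `R i = R (i-1) - q i`); choose `K` with `∑_{i ≥ K} R i ≤ 1/2`; then for every `n` some
`j ∈ [n-K, n]` has `W j ≥ 1/(2(K+1))`, and `W n ≥ (q 1)^(n-j) W j`. SMALL `m`: with
`G = ∑ q k s^k > 1`: `Q m n ≤ G^m s^(-n)`; let `κ = log s / (2 log G)`, so for `m ≤ κ n`,
`Q m n ≤ s^(-n/2)`, and `∑_{m ≤ κ n} Q m n ≤ (n+1) s^(-n/2) ≤ C / (n √n)`. LARGE `m > κ n`:
`RT.τ m ≤ 1/(m √m) ≤ C/(n √n)` (`RT.τ_le`), `RT.υ m ≤ C/√n` (`RT.υ_le`), `∑ Q m n ≤ W n ≤ 1`. Also
`RT.τ m ≤ 1`, `RT.υ m ≤ 1` (`RT.υ_le_one`). Lower bound of part 2: `RT.τ m ≥ 1/(3 m √m) ≥ 1/(3 n √n)` for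
`1 ≤ m ≤ n` (`RT.τ_ge`), `Q 0 n = 0` for `n ≥ 1`, `W n ≥ c0`. -/
def S_REN : Prop := ∀ (q : ℕ → ℝ) (s : ℝ), q 0 = 0 → (∀ n, 0 ≤ q n) → 0 < q 1 → HasSum q 1 →
  1 < s → Summable (fun n => q n * s ^ n) →
  ∃ C : ℝ, 1 ≤ C ∧ ∀ n : ℕ, 1 ≤ n →
    ∑ m ∈ range (n + 1), RT.τ m * PowerSeries.coeff n ((PowerSeries.mk q) ^ m) ≤ C / (n * √n) ∧
    1 / (C * (n * √n)) ≤
      ∑ m ∈ range (n + 1), RT.τ m * PowerSeries.coeff n ((PowerSeries.mk q) ^ m) ∧
    ∑ m ∈ range (n + 1), RT.υ m * PowerSeries.coeff n ((PowerSeries.mk q) ^ m) ≤ C / √n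

/-- OTT: Otter's theorem up to constants.
Proof (from LAG, RAD, REN). `q n = e r^n coeff n As` (`q 0 = 0`, `q (n+1) = e r^(n+1) Es n`, sum `1`,
`q 1 = e r > 0`); `PowerSeries.mk q = e * rescale r As`, so `coeff n ((mk q)^m) = e^m r^n coeff n (As^m)`.
By LAG `r^n uu n = ∑ RT.τ m coeff n ((mk q)^m)`, the same for `ku`. Apply REN; `c = max C (1/r)`. -/
def S_OTT : Prop := ∃ r c : ℝ, IsRad r c

/-! ### Estimates -/

/-- CNV. Proof: as `RT.τ_sum_le`, `RT.conv_nonneg`, `RT.conv_sum_le` in `AbelC.lean` (with `υ n ≤ cc` instead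
of `υ n ≤ 1`). -/
def S_CNV : Prop := IsRad rr cc →
  (∀ s : Finset ℕ, ∑ k ∈ s, τ k ≤ 1) ∧ (∀ j s : ℕ, 0 ≤ conv j s) ∧
  (∀ (j : ℕ) (s : Finset ℕ), ∑ k ∈ s, conv j k ≤ 1)

/-- RST: forests without a big branch. Proof (from BRI): adapt `Restr.lean` (theorems `restr` and
`fourgroups`). In `partI`, `partII` replace the sum over `br f` / `splits f` by
`ind (∃ p ∈ br f, ...)`, `ind (∃ p ∈ splits f, ...)` (`E_br_ind`, `E_splits_ind` of Tl.lean); define
`K t (j+1) f = ind (∃ p ∈ splits f, t ≤ p.1.size ∧ K t j p.2 = 1)`, or directly: four groups means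
`∃ p ∈ splits f, ∃ p' ∈ splits p.2, ∃ p'' ∈ splits p'.2`, all of size `≥ t`; the constants depend on `cc`. -/
def S_RST : Prop := IsRad rr cc →
  (∃ C : ℝ, 0 < C ∧ ∀ m y : ℕ, y < m →
    E m (fun f => ind (AllLe y f)) ≤ C / (m * √m * √((m : ℝ) - y))) ∧
  (∀ δ : ℝ, 0 < δ → ∃ C : ℝ, 0 < C ∧ ∀ m : ℕ, 1 ≤ m →
    E m (fun f => ind (∀ a ∈ f.toList, (vs a : ℝ) ≤ (1 / 3 - δ) * m)) ≤ C / (m : ℝ) ^ 3)

/-- EVT: the events on the large branches. Proof (from BRI, RST): adapt `Events.lean` (`evt1`,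
`evt2`, `evt3`). `E_one_branch`, `E_two_branches` hold with the same statements (by `E_br_ind` of
Tl.lean, twice for the second); constants depend on `cc`. -/
def S_EVT : Prop := IsRad rr cc →
  (∃ C : ℝ, 0 < C ∧ ∀ δ : ℝ, 0 < δ → δ ≤ 1 / 4 → ∀ m : ℕ, 1 ≤ m →
    E m (fun f => ind (∃ p ∈ br f, (1 / 2 - δ) * m < (vs p.1 : ℝ) ∧ 2 * vs p.1 ≤ m + 1
      ∧ AllLe (vs p.1) p.2)) ≤ C * √δ / ((m : ℝ) ^ 2 * √m) + C / (m : ℝ) ^ 3) ∧
  (∃ C : ℝ, 0 < C ∧ ∀ δ : ℝ, 0 < δ → δ ≤ 1 / 12 → ∀ m : ℕ, 1 ≤ m →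
    E m (fun f => ind (∃ p ∈ br f, |(vs p.1 : ℝ) - m / 3| ≤ δ * m ∧ AllLe (vs p.1) p.2))
      ≤ C * δ / ((m : ℝ) ^ 2 * √m) + C / (m : ℝ) ^ 3) ∧
  (∀ δ : ℝ, 0 < δ → ∃ C : ℝ, 0 < C ∧ ∀ δ' : ℝ, 0 < δ' → δ' ≤ 1 / 8 → ∀ m : ℕ, 1 ≤ m →
    E m (fun f => ind (∃ p ∈ br f, ∃ q ∈ br p.2, (m : ℝ) / 4 ≤ vs p.1 ∧
      (vs p.1 : ℝ) ≤ (1 / 2 - δ) * m ∧ (vs p.1 : ℝ) - δ' * m ≤ vs q.1 ∧ vs q.1 ≤ vs p.1))
      ≤ C * δ' / ((m : ℝ) ^ 2 * √m) + C / (m : ℝ) ^ 3)

/-- FEW: the spine has many sizes. Proof (from BRI, RST, CNV): adapt `Few.lean`. The pointwise lemma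
becomes `ind ((Wset y a).card ≤ M + 1) ≤ ind (AllLe y a) + ind (∃ p ∈ br a, y < vs p.1 ∧
(Wset y p.1).card ≤ M)`, and `A_succ` follows from `ET_br_ind` of Tl.lean. The rest is unchanged
(`conv_nonneg`, `conv_sum_le` from CNV). -/
def S_FEW : Prop := IsRad rr cc → ∃ C : ℝ, 0 < C ∧ ∀ z y M : ℕ, y < z → z ≤ 2 * y →
  ET z (fun a => ind ((Wset y a).card ≤ M))
    ≤ C / (z * √z) * (M / √((z : ℝ) - y) + (M : ℝ) ^ 2 / ((z : ℝ) - y))

/-- MNY: the sizes of big fringe subtrees do not cluster. Proof (from BRI): adapt `Many.lean`. Only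
`moment_le` changes: with `G f = ((fr f).map (gt S p)).sum` (`gt S p x = C(Np x, p)` if `vs x ∈ S`, else `0`;
`z < 2 k` for `k ∈ S`) show for `1 ≤ k ≤ z`: `ET k G ≤ ∑_{j ∈ Icc 1 (k-1)} υ (k-j) * ET j (gt S p)`. For `f.size < z` at
most one `p ∈ br f` has `z < 2 * vs p.1`, the others contribute `0`, so `G f = 0` or
`G f = gt S p p.1 + G p.1` for one `p ∈ br f`; by `ET_br_le` of Tl.lean
`ET k G ≤ ∑_{j ∈ Icc 1 (k-1)} τ (k-j) * (ET j (gt S p) + ET j G)`, and by strong induction on `k` and `υ_rec`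
(as in `RT.fringe_both`, with `≤`) the claim follows. -/
def S_MNY : Prop := IsRad rr cc → ∀ p : ℕ, ∃ C : ℝ, 0 < C ∧ ∀ (z : ℕ) (S : Finset ℕ) (T : ℕ),
  1 ≤ z → 1 ≤ T → 1 ≤ S.card → ET z (fun a => ind (T ≤ ((Wset (z / 2) a) ∩ S).card))
    ≤ C / (z * √z) * (√(S.card) / T) ^ p

/-- FRG: few different sizes of fringe subtrees above `L`. Proof (from BRI): adapt
`FringeRestr.lean`. Put `cnt L a = (Wset L a).card`. `Bset L g` is the union of the `Wset L a`,
`a ∈ g.toList`, so `(Bset L g).card ≤ ∑ a ∈ g.toList.toFinset, (Wset L a).card`. By part 3 of BRI (for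
`H a = ind (vs a ≤ z) * (Wset L a).card`) `E m (ind (AllLe z g) * card (Bset L g)) ≤ ∑_k ind (k ≤ z) ET k (cnt L) * E (m-k) 1`.
`ET k (cnt L) ≤ ∑_{j ∈ Icc 1 k} υ (k-j) * (ind (L < j) * τ j)` for `k ≥ 1`: `(Wset L a).card ≤ ind (L < vs a) + (Bset L a).card`,
so `ET k (cnt L) ≤ ind (L < k) τ k + ∑_{j ∈ Icc 1 (k-1)} τ (k-j) * ET j (cnt L)` (part 3 of BRI for
`H = cnt L`, and `rr_E_one`), strong induction and `υ_rec`. The rest is unchanged up to constants. -/
def S_FRG : Prop := IsRad rr cc → ∀ δ : ℝ, 0 < δ → ∃ C : ℝ, 0 < C ∧ ∀ m z L : ℕ, 1 ≤ m → 1 ≤ L →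
  (z : ℝ) ≤ (1 - δ) * m →
  E m (fun g => ind (AllLe z g) * ((Bset L g).card : ℝ)) ≤ C / (m * √L)

/-- MNB: the main bound. Proof (from BRI, RST, FEW, MNY, FRG): adapt `Final.lean` (`main_bound` and the
lemmas before it). In `main_sum` use `E_br_le'` of Tl.lean: the left side is an indicator of the
existence of `p ∈ br f`, and for such a `p` the indicator `1` is at most the product. -/
def S_MNB : Prop := IsRad rr cc → ∀ δ : ℝ, 0 < δ → δ ≤ 1 / 24 → ∃ C : ℝ, 0 < C ∧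
  ∀ (m N T M Y : ℕ) (q : ℝ), 1 ≤ m → 1 ≤ N → 1 ≤ T → 1 ≤ Y → (Y : ℝ) ≤ m / 6 → 1 ≤ q →
  (m : ℝ) ≤ 2 ^ 20 * q ^ 20 → (N : ℝ) = q ^ 14 → (T : ℝ) = q ^ 8 → (M : ℝ) = q ^ 9 →
  E m (fun f => ind (∃ p ∈ br f, Rng δ m (vs p.1) ∧ AllLe (vs p.1) p.2 ∧ (Ev4 Y M p.1 ∨
    Ev7 N N p.2 ∨ ∃ ρ ∈ range (2 * m + 1),
      Ev5 T (Ico (ρ - N) ρ) p.1 ∨ ((Bset N p.2).card ≤ N ∧
        Ev5 T ((Bset N p.2).image (fun b => ρ - b)) p.1))))
  ≤ C * (q ^ 9 / √Y + (q ^ 9) ^ 2 / Y + 1 / q) / ((m : ℝ) ^ 2 * √m)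

/-- PRB: the probabilistic half. Proof (from RST, EVT, MNB): adapt `Prob.lean`. -/
def S_PRB : Prop := IsRad rr cc → ∀ η : ℝ, 0 < η → ∃ m0 : ℕ, ∀ m : ℕ, m0 ≤ m →
  E m (fun f => ind ((∀ a ∈ f.toList, 2 * vs a ≤ m + 1) ∧ ¬ HypH f))
    ≤ η / ((m : ℝ) ^ 2 * √m)

/-! ### Isomorphism classes -/

/-- CANB: canonical forests and isomorphism of rooted forests.
Proof (from CANA). (1) By induction on the size: replace every branch by its canonical form, then
sort (`Fr.Equ.of_forall₂`, `Fr.Equ.of_toList_perm` in CSF/Fringe.lean, `Fr.Equ.cons`). (2) Induction on the size. Let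
`e : G f ≃g G g`, `e (ρ f) = ρ g`, `f = cons a b`. `x = e (ρ a)` is a neighbour of `ρ g`, so it is the root of a branch
`a'` of `g`: there is `q ∈ br g`, `a' = q.1`, `b' = q.2`, and an isomorphism `G g ≃g G (cons a' b')` respecting
the roots and mapping `x` to the root `Sum.inl (ρ a')` of the first branch (induction on `g`). So
we have a root preserving `e : join (G a) (ρ a) (G b) (ρ b) ≃g join (G a') (ρ a') (G b') (ρ b')` with
`e (inl (ρ a)) = inl (ρ a')`. The vertices `inl _` are those reachable from `inl (ρ a)` without using the edge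
from `inl (ρ a)` to `inr (ρ b)`, so `e` restricts to isomorphisms `G a ≃g G a'`, `G b ≃g G b'` of rooted trees. `a`, `a'`
are canonical and smaller, so `a = a'`; `b`, `b'` are canonical (CANA) and smaller, so `b = b'`; hence
`f.toList` and `g.toList` are permutations of each other and `f = g` (CANA). -/
def S_CANB : Prop :=
  (∀ f : Fr, ∃ g : Fr, Can g ∧ Fr.Equ f g ∧ g.size = f.size) ∧
  (∀ f g : Fr, Can f → Can g → Fr.Equ f g → f = g)

/-- isomorphism of trees on `Fin n` -/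
def treeSetoid (n : ℕ) : Setoid {T : SimpleGraph (Fin n) // T.IsTree} where
  r T T' := Nonempty (T.1 ≃g T'.1)
  iseqv := ⟨fun _ => ⟨SimpleGraph.Iso.refl⟩, fun ⟨e⟩ => ⟨e.symm⟩, fun ⟨e⟩ ⟨e'⟩ => ⟨e.trans e'⟩⟩

/-- the isomorphism classes of trees with `n` vertices -/
def TreeClass (n : ℕ) : Type := Quotient (treeSetoid n)

/-- all trees in the class are determined by their chromatic symmetric functions -/
def DetClass {n : ℕ} (c : TreeClass n) : Prop :=
  ∀ T : {T : SimpleGraph (Fin n) // T.IsTree}, Quotient.mk (treeSetoid n) T = c → Det T.1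

/-- CLS: counting isomorphism classes.
Proof (from CANB). `TreeClass (m+1)` is finite. (1) For `f ∈ CS m` the tree `G f` (it is a tree: see
Labelled.lean) has `m + 1` vertices; transport it to `Fin (m+1)` (`Fr.card_W`), let `c` be its class,
`T₀` the chosen representative of `c` (`Quotient.out`) and `e_f : G f ≃g T₀` a chosen isomorphism. The map
`f ↦ (c, e_f (ρ f))` is injective: if `f, g` have the same image then `e_g⁻¹ e_f` maps root to root, so
`Fr.Equ f g` and `f = g`. Hence `cf m ≤ card (TreeClass (m+1)) * (m+1)`. (2) For a class `c` that is not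
`DetClass` choose `T` in it with `¬ Det T`, a vertex `v` with `Cent T v` (`RT.exists_cent`), a forest `f` with
`T ≃g G f`, `v ↦ ρ f` (`exists_rep`), and `g` canonical with `Fr.Equ f g` (CANB), `g.size = m`. Then `RT.Bad g = 1`
(`RT.badT_eq`, `RT.bad_equ`), and `g` determines `c` (`G g ≃g T`). So the number of these classes is at most the number
of `g ∈ CS m` with `Bad g = 1`. -/
def S_CLS : Prop := ∀ m : ℕ,
  cf m ≤ (m + 1) * Nat.card (TreeClass (m + 1)) ∧
  (Nat.card {c : TreeClass (m + 1) // ¬ DetClass c} : ℝ) ≤ ∑ f ∈ CS m, Bad f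

/-- TOP: the theorem. Proof (from OTT, PRB, CLS): as `bad_ratio` and `almost_all` in Top.lean.
`E m Bad ≤ η/(m² √m)` for large `m` (PRB and `RT.det_of_hypH`), the number of bad classes is at most
`rr^(-m) E m Bad`, the number of classes at least `cf m/(m+1) = rr^(-(m+1)) τ (m+1)/(m+1)`, `τ_ge`. -/
def S_TOP : Prop := Filter.Tendsto (fun n : ℕ => (Nat.card {c : TreeClass n // DetClass c} : ℝ) /
  (Nat.card (TreeClass n) : ℝ)) Filter.atTop (nhds 1)

end Pool.Agent.UT
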