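import Pool.Agent.UT.St

set_option autoImplicit false

/-!
Tools derived from BRI: marking a branch, splitting, summing over the types of branches.
-/

namespace Pool.Agent.UT

open Pool.MP_1af41f_co.CSF RT Finset

lemma E_br_le (hB : S_BRI) (h : IsRad rr cc) (m : ℕ) (Φ : Fr → ℝ) (H : Fr → Fr → ℝ)
    (hH : ∀ a g, 0 ≤ H a g)
    (hΦ : ∀ f, Can f → f.size = m → Φ f ≤ 0 ∨ ∃ p ∈ br f, Φ f ≤ H p.1 p.2) :
    E m Φ ≤ ∑ k ∈ Icc 1 m, ET k (fun a => E (m - k) (fun g => H a g)) :=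
  (hB h).1 m Φ H hH hΦ

lemma E_splits_le (hB : S_BRI) (h : IsRad rr cc) (m : ℕ) (Φ : Fr → ℝ) (H : Fr → Fr → ℝ)
    (hH : ∀ g h, 0 ≤ H g h)
    (hΦ : ∀ f, Can f → f.size = m → Φ f ≤ 0 ∨ ∃ p ∈ splits f, Φ f ≤ H p.1 p.2) :
    E m Φ ≤ ∑ k ∈ range (m + 1), E k (fun g => E (m - k) (fun h => H g h)) :=
  (hB h).2.1 m Φ H hH hΦ

/-- indicator of the existence of a marked branch; `1 ≤ H` on the event -/
lemma E_br_le' (hB : S_BRI) (h : IsRad rr cc) (m : ℕ) (P : Fr → Fr → Prop) (H : Fr → Fr → ℝ)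
    (hH : ∀ a g, 0 ≤ H a g) (hP : ∀ a g, P a g → 1 ≤ H a g) :
    E m (fun f => ind (∃ p ∈ br f, P p.1 p.2)) ≤
      ∑ k ∈ Icc 1 m, ET k (fun a => E (m - k) (fun g => H a g)) := by
  refine E_br_le hB h m _ H hH fun f _ _ => ?_
  by_cases hf : ∃ p ∈ br f, P p.1 p.2
  · obtain ⟨p, hp, hPp⟩ := hf
    exact Or.inr ⟨p, hp, (ind_le_one _).trans (hP _ _ hPp)⟩
  · exact Or.inl (ind_of_not hf).le

lemma E_br_ind (hB : S_BRI) (h : IsRad rr cc) (m : ℕ) (P : Fr → Fr → Prop) :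
    E m (fun f => ind (∃ p ∈ br f, P p.1 p.2)) ≤
      ∑ k ∈ Icc 1 m, ET k (fun a => E (m - k) (fun g => ind (P a g))) :=
  E_br_le' hB h m P (fun a g => ind (P a g)) (fun _ _ => ind_nonneg _)
    fun _ _ hP => (ind_of hP).ge

lemma E_splits_le' (hB : S_BRI) (h : IsRad rr cc) (m : ℕ) (P : Fr → Fr → Prop) (H : Fr → Fr → ℝ)
    (hH : ∀ a g, 0 ≤ H a g) (hP : ∀ a g, P a g → 1 ≤ H a g) :
    E m (fun f => ind (∃ p ∈ splits f, P p.1 p.2)) ≤
      ∑ k ∈ range (m + 1), E k (fun a => E (m - k) (fun g => H a g)) := by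
  refine E_splits_le hB h m _ H hH fun f _ _ => ?_
  by_cases hf : ∃ p ∈ splits f, P p.1 p.2
  · obtain ⟨p, hp, hPp⟩ := hf
    exact Or.inr ⟨p, hp, (ind_le_one _).trans (hP _ _ hPp)⟩
  · exact Or.inl (ind_of_not hf).le

lemma E_splits_ind (hB : S_BRI) (h : IsRad rr cc) (m : ℕ) (P : Fr → Fr → Prop) :
    E m (fun f => ind (∃ p ∈ splits f, P p.1 p.2)) ≤
      ∑ k ∈ range (m + 1), E k (fun a => E (m - k) (fun g => ind (P a g))) :=
  E_splits_le' hB h m P (fun a g => ind (P a g)) (fun _ _ => ind_nonneg _)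
    fun _ _ hP => (ind_of hP).ge

open Classical in
/-- sums over the types of branches -/
lemma E_types_le (hB : S_BRI) (h : IsRad rr cc) (m : ℕ) (H : Fr → ℝ) (hH : ∀ a, 0 ≤ H a) :
    E m (fun f => ∑ a ∈ f.toList.toFinset, H a) ≤
      ∑ k ∈ Icc 1 m, ET k H * E (m - k) (fun _ => 1) :=
  (hB h).2.2 m H hH

lemma ET_E_const (k j : ℕ) (H : Fr → ℝ) :
    ET k (fun a => E j (fun _ => H a)) = ET k H * E j (fun _ => 1) := by
  rw [mul_comm, ← ET_mul_left]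
  refine ET_congr fun a _ => ?_
  rw [E_const, mul_comm]

lemma rr_sum (n : ℕ) (A : ℕ → ℝ) :
    rr * ∑ k ∈ Icc 1 n, A k * E (n - k) (fun _ => 1) = ∑ j ∈ Icc 1 n, τ (n + 1 - j) * A j := by
  rw [Finset.mul_sum]
  refine Finset.sum_congr rfl fun j hj => ?_
  rw [Finset.mem_Icc] at hj
  have e : n + 1 - j = n - j + 1 := by omega
  rw [e, ← rr_E_one]
  ring

/-- marking a branch of a tree; only the branch matters -/
lemma ET_br_le (hB : S_BRI) (h : IsRad rr cc) (k : ℕ) (Φ H : Fr → ℝ) (hH : ∀ a, 0 ≤ H a)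
    (hΦ : ∀ a, Can a → vs a = k → Φ a ≤ 0 ∨ ∃ p ∈ br a, Φ a ≤ H p.1) :
    ET k Φ ≤ ∑ j ∈ Icc 1 (k - 1), τ (k - j) * ET j H := by
  rcases k with _ | n
  · simp [ET_zero]
  · rw [ET_succ, Nat.add_sub_cancel]
    have h1 := E_br_le hB h n Φ (fun a _ => H a) (fun a _ => hH a)
      (fun f hc hf => hΦ f hc (by unfold vs; omega))
    have h2 := mul_le_mul_of_nonneg_left h1 h.r_pos.le
    refine h2.trans (le_of_eq ?_)
    rw [← rr_sum]
    congr 1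
    exact Finset.sum_congr rfl fun j _ => ET_E_const _ _ _

lemma ET_br_ind (hB : S_BRI) (h : IsRad rr cc) (k : ℕ) (P : Fr → Prop) :
    ET k (fun a => ind (∃ p ∈ br a, P p.1)) ≤
      ∑ j ∈ Icc 1 (k - 1), τ (k - j) * ET j (fun a => ind (P a)) := by
  refine ET_br_le hB h k _ _ (fun _ => ind_nonneg _) fun a _ _ => ?_
  by_cases hf : ∃ p ∈ br a, P p.1
  · obtain ⟨p, hp, hPp⟩ := hf
    exact Or.inr ⟨p, hp, (ind_le_one _).trans (ind_of hPp).ge⟩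
  · exact Or.inl (ind_of_not hf).le

open Classical in
lemma ET_types_le (hB : S_BRI) (h : IsRad rr cc) (k : ℕ) (H : Fr → ℝ) (hH : ∀ a, 0 ≤ H a) :
    ET k (fun a => ∑ b ∈ a.toList.toFinset, H b) ≤
      ∑ j ∈ Icc 1 (k - 1), τ (k - j) * ET j H := by
  rcases k with _ | n
  · simp [ET_zero]
  · rw [ET_succ, Nat.add_sub_cancel, ← rr_sum]
    exact mul_le_mul_of_nonneg_left (E_types_le hB h n H hH) h.r_pos.le

end Pool.Agent.UT
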